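import Mathlib

/-!
# Correlations on a cyclic group of prime order
-/

set_option autoImplicit false

namespace Pool.Agent.H21.NP

open Polynomial

/-- A rational linear combination of the powers of a primitive root of unity of prime order. -/
theorem const_of_root {g : ℕ} (hg : g.Prime) {ζ : ℂ} (hζ : IsPrimitiveRoot ζ g) (b : ℕ → ℚ)
    (h : ∑ k ∈ Finset.range g, (b k : ℂ) * ζ ^ k = 0) : ∀ k < g, b k = b 0 := by
  have hg0 : 0 < g := hg.pos
  let Q : ℚ[X] := ∑ k ∈ Finset.range g, C (b k) * X ^ k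
  have hQ : aeval ζ Q = 0 := by
    simp only [Q, map_sum, map_mul, aeval_C, map_pow, aeval_X]
    exact h
  have hcoef : ∀ k < g, Q.coeff k = b k := by
    intro k hk
    simp only [Q, finset_sum_coeff, coeff_C_mul, coeff_X_pow, mul_ite, mul_one, mul_zero]
    rw [Finset.sum_ite_eq, if_pos (Finset.mem_range.2 hk)]
  have hdeg : Q.natDegree ≤ g - 1 := by
    apply natDegree_sum_le_of_forall_le
    intro k hk
    have := Finset.mem_range.1 hk
    exact (natDegree_C_mul_X_pow_le _ _).trans (by omega)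
  have hdvd : cyclotomic g ℚ ∣ Q := by
    rw [cyclotomic_eq_minpoly_rat hζ hg0]
    exact minpoly.dvd ℚ ζ hQ
  obtain ⟨R, hR⟩ := hdvd
  by_cases hQ0 : Q = 0
  · intro k hk
    rw [← hcoef k hk, ← hcoef 0 hg0, hQ0, coeff_zero, coeff_zero]
  have hR0 : R ≠ 0 := by
    rintro rfl
    exact hQ0 (by rw [hR, mul_zero])
  have hRdeg : R.natDegree = 0 := by
    have h1 : Q.natDegree = (cyclotomic g ℚ).natDegree + R.natDegree := by
      rw [hR]
      exact natDegree_mul (cyclotomic_ne_zero _ _) hR0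
    rw [natDegree_cyclotomic, Nat.totient_prime hg] at h1
    omega
  obtain ⟨t, ht⟩ := natDegree_eq_zero.1 hRdeg
  have hcy : ∀ k < g, (cyclotomic g ℚ).coeff k = 1 := by
    intro k hk
    have : Fact g.Prime := ⟨hg⟩
    rw [cyclotomic_prime ℚ g]
    simp only [finset_sum_coeff, coeff_X_pow]
    rw [Finset.sum_ite_eq, if_pos (Finset.mem_range.2 hk)]
  have hval : ∀ k < g, b k = t := by
    intro k hk
    rw [← hcoef k hk, hR, ← ht, coeff_mul_C, hcy k hk, one_mul]
  intro k hk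
  rw [hval k hk, hval 0 hg0]

/-- Correlations. -/
theorem corr {g : ℕ} [NeZero g] (hg : g.Prime) (a b : ZMod g → ℚ)
    (h : ∀ i, ∑ j, a j * b (i + j) = 0) : (∀ j, a j = a 0) ∨ (∀ j, b j = b 0) := by
  have hg0 : 0 < g := hg.pos
  let ζ : ℂ := Complex.exp (2 * Real.pi * Complex.I / g)
  have hζ : IsPrimitiveRoot ζ g := Complex.isPrimitiveRoot_exp g hg0.ne'
  have hζ' : IsPrimitiveRoot ζ⁻¹ g := hζ.inv
  -- the character
  let χ : ZMod g → ℂ := fun i => ζ ^ i.val
  have hχ : ∀ i j, χ (i + j) = χ i * χ j := by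
    intro i j
    simp only [χ]
    rw [ZMod.val_add, ← pow_add]
    conv_rhs => rw [← Nat.div_add_mod (i.val + j.val) g, pow_add, pow_mul, hζ.pow_eq_one, one_pow,
      one_mul]
  have hχ0 : ∀ i, χ i ≠ 0 := fun i => pow_ne_zero _ (hζ.ne_zero hg0.ne')
  have hsum : ∀ (z : ℂ) (f : ZMod g → ℚ), ∑ j : ZMod g, (f j : ℂ) * z ^ j.val =
      ∑ k ∈ Finset.range g, (f (k : ZMod g) : ℂ) * z ^ k := by
    intro z f
    symm
    refine Finset.sum_nbij' (fun k => (k : ZMod g)) (fun j => j.val) (fun _ _ => Finset.mem_univ _)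
      (fun j _ => Finset.mem_range.2 (ZMod.val_lt j)) ?_ (fun j _ => ZMod.natCast_zmod_val j) ?_
    · intro k hk
      exact ZMod.val_cast_of_lt (Finset.mem_range.1 hk)
    · intro k hk
      rw [ZMod.val_cast_of_lt (Finset.mem_range.1 hk)]
  have hconst : ∀ (z : ℂ) (_ : IsPrimitiveRoot z g) (f : ZMod g → ℚ),
      ∑ j : ZMod g, (f j : ℂ) * z ^ j.val = 0 → ∀ j, f j = f 0 := by
    intro z hz f hf j
    rw [hsum] at hf
    have h1 := const_of_root hg hz (fun k => f (k : ZMod g)) hf j.val (ZMod.val_lt j)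
    simp only [ZMod.natCast_zmod_val, Nat.cast_zero] at h1
    exact h1
  have hprod : (∑ j, (a j : ℂ) * (χ j)⁻¹) * (∑ k, (b k : ℂ) * χ k) = 0 := by
    rw [Finset.sum_mul]
    have h1 : ∀ j : ZMod g, (a j : ℂ) * (χ j)⁻¹ * ∑ k, (b k : ℂ) * χ k =
        ∑ i, χ i * ((a j * b (i + j) : ℚ) : ℂ) := by
      intro j
      rw [← Equiv.sum_comp (Equiv.addRight j), Finset.mul_sum]
      refine Finset.sum_congr rfl fun i _ => ?_
      rw [Equiv.coe_addRight, hχ]
      push_cast
      field_simp [hχ0 j]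
    rw [Finset.sum_congr rfl fun j _ => h1 j, Finset.sum_comm]
    refine Finset.sum_eq_zero fun i _ => ?_
    rw [← Finset.mul_sum, ← Rat.cast_sum, h i, Rat.cast_zero, mul_zero]
  rcases mul_eq_zero.1 hprod with h1 | h1
  · left
    refine hconst ζ⁻¹ hζ' a ?_
    rw [← h1]
    refine Finset.sum_congr rfl fun j _ => ?_
    simp only [χ, inv_pow]
  · right
    exact hconst ζ hζ b h1

end Pool.Agent.H21.NP
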