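import Pool.Agent.H21.NP.Low
import Pool.Agent.H21.NP.Cyc

/-!
# A prime number of pairs
-/

set_option autoImplicit false
set_option linter.unusedSectionVars false

namespace Pool.Agent.H21.NP

open Module Pool.Agent.H21.TC

variable {X : Type*} [Fintype X]
variable {P : Subgroup (Equiv.Perm X)} {bar : X → X} {w : X → ℚ}

theorem perm_pow_comm {bar : X → X} {τ : Equiv.Perm X} (h : ∀ x, τ (bar x) = bar (τ x)) (n : ℕ)
    (x : X) : (τ ^ n) (bar x) = bar ((τ ^ n) x) := by
  induction n generalizing x with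
  | zero => rfl
  | succ n ih => rw [pow_succ, Equiv.Perm.mul_apply, Equiv.Perm.mul_apply, h, ih]

theorem zero_sum_of_prime (hbar : ∀ x, bar (bar x) = x) (hb : ∀ x, bar x ≠ x)
    (hcomm : ∀ σ ∈ P, ∀ x, σ (bar x) = bar (σ x)) (htr : ∀ x y : X, ∃ σ ∈ P, σ x = y)
    (hw : ∀ x, w (bar x) = - w x) {g : ℕ} (hg : g.Prime) (hg2 : g ≠ 2)
    (hcard : Fintype.card X = 2 * g)
    (hnc : ∀ x y, (∀ σ ∈ P, w (σ x) = w (σ y)) → x = y) {c : X → ℚ} (hc : c ∈ RelS P bar w)
    (hc0 : c ≠ 0) : ∃ O : Finset X, IsTr bar O ∧ ∑ x ∈ O, w x = 0 := by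
  classical
  have hgF : Fact g.Prime := ⟨hg⟩
  have hgne : NeZero g := ⟨hg.ne_zero⟩
  have hg1 : 1 < g := hg.one_lt
  have hgodd : ¬ g ∣ 2 := by
    intro h
    exact hg2 ((Nat.prime_dvd_prime_iff_eq hg Nat.prime_two).1 h)
  -- an element of order `g`
  have hXne : Nonempty X := Fintype.card_pos_iff.1 (by rw [hcard]; omega)
  obtain ⟨x₀⟩ := hXne
  have hdvd : g ∣ Nat.card P := by
    have h1 : MulAction.orbit P x₀ = Set.univ := by
      ext y
      refine ⟨fun _ => trivial, fun _ => ?_⟩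
      obtain ⟨σ, hσ, rfl⟩ := htr x₀ y
      exact ⟨⟨σ, hσ⟩, rfl⟩
    have h2 := MulAction.card_orbit_mul_card_stabilizer_eq_card_group P x₀
    have h3 : Fintype.card (MulAction.orbit P x₀) = 2 * g := by
      rw [← hcard]
      exact Fintype.card_congr ((Equiv.setCongr h1).trans (Equiv.Set.univ X))
    rw [Nat.card_eq_fintype_card, ← h2, h3]
    exact Dvd.intro_left 2 rfl |>.mul_right _
  obtain ⟨⟨τ, hτP⟩, hτ⟩ := exists_prime_orderOf_dvd_card' (G := P) g hdvd
  have hτ1 : orderOf τ = g := by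
    rw [← hτ]
    exact (Subgroup.orderOf_mk (a := τ) hτP).symm
  have hτg : τ ^ g = 1 := by rw [← hτ1]; exact pow_orderOf_eq_one τ
  have hτne : τ ≠ 1 := by
    rintro rfl
    rw [orderOf_one] at hτ1
    omega
  obtain ⟨y, hy⟩ : ∃ y, τ y ≠ y := by
    by_contra hno
    push Not at hno
    exact hτne (Equiv.ext hno)
  have hτb := hcomm τ hτP
  -- powers of `τ` that fix `y`
  have hfix : ∀ n : ℕ, (τ ^ n) y = y → g ∣ n := by
    intro n hn
    by_contra hnd
    have hcop : n.Coprime g := Nat.Coprime.symm ((Nat.Prime.coprime_iff_not_dvd hg).2 hnd)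
    apply hy
    have h1 : ∀ k : ℕ, ((τ ^ n) ^ k) y = y := by
      intro k
      induction k with
      | zero => rfl
      | succ k ih => rw [pow_succ, Equiv.Perm.mul_apply, hn, ih]
    obtain ⟨m, hm⟩ := Nat.exists_mul_mod_eq_one_of_coprime hcop hg1
    have h2 := h1 m
    rw [← pow_mul, ← Nat.div_add_mod (n * m) g, hm.2, pow_add, pow_mul, hτg, one_pow, one_mul,
      pow_one] at h2
    exact h2
  have hmod : ∀ n : ℕ, τ ^ (n % g) = τ ^ n := by
    intro n
    conv_rhs => rw [← Nat.div_add_mod n g, pow_add, pow_mul, hτg, one_pow, one_mul]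
  -- the two orbits
  let f : ZMod g → X := fun i => (τ ^ i.val) y
  have hfadd : ∀ (i j : ZMod g), (τ ^ i.val) (f j) = f (i + j) := by
    intro i j
    simp only [f]
    rw [ZMod.val_add, hmod, pow_add, Equiv.Perm.mul_apply]
  have hfinj : Function.Injective f := by
    intro i j hij
    have h1 : (τ ^ (-i).val) (f i) = (τ ^ (-i).val) (f j) := by rw [hij]
    rw [hfadd, hfadd, neg_add_cancel] at h1
    have h2 : f 0 = y := by
      simp only [f, ZMod.val_zero, pow_zero]
      rfl
    rw [h2] at h1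
    have h3 := hfix (-i + j).val h1.symm
    have h4 := Nat.eq_zero_of_dvd_of_lt h3 (ZMod.val_lt _)
    rw [ZMod.val_eq_zero] at h4
    have h5 : j = i := by
      have := neg_add_eq_zero.1 h4
      exact this.symm
    exact h5.symm
  have hfbar : ∀ i j, bar (f i) ≠ f j := by
    intro i j hij
    have h1 : (τ ^ (-i).val) (bar (f i)) = (τ ^ (-i).val) (f j) := by rw [hij]
    rw [perm_pow_comm hτb, hfadd, hfadd, neg_add_cancel] at h1
    have h2 : f 0 = y := by
      simp only [f, ZMod.val_zero, pow_zero]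
      rfl
    rw [h2] at h1
    have h3 : (τ ^ (2 * (-i + j).val)) y = y := by
      rw [two_mul, pow_add, Equiv.Perm.mul_apply]
      have h4 : (τ ^ (-i + j).val) y = bar y := h1.symm
      rw [h4, perm_pow_comm hτb, h4, hbar]
    have h5 := hfix _ h3
    have h6 : g ∣ (-i + j).val := by
      rcases (Nat.Prime.dvd_mul hg).1 h5 with h | h
      · exact absurd h hgodd
      · exact h
    have h7 := Nat.eq_zero_of_dvd_of_lt h6 (ZMod.val_lt _)
    rw [ZMod.val_eq_zero] at h7
    rw [h7, h2] at h1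
    exact hb y h1
  let O : Finset X := Finset.univ.image f
  have hOc : O.card = g := by
    rw [Finset.card_image_of_injective _ hfinj, Finset.card_univ, ZMod.card]
  have hO : IsTr bar O := by
    have h1 : ∀ x ∈ O, bar x ∉ O := by
      intro x hx hx'
      obtain ⟨i, -, rfl⟩ := Finset.mem_image.1 hx
      obtain ⟨j, -, hj⟩ := Finset.mem_image.1 hx'
      exact hfbar i j hj.symm
    have hbinj : Function.Injective bar := fun a b h => by rw [← hbar a, h, hbar]
    have h2 : Disjoint O (O.image bar) := by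
      rw [Finset.disjoint_left]
      intro x hx hx'
      obtain ⟨z, hz, rfl⟩ := Finset.mem_image.1 hx'
      exact h1 z hz hx
    have h3 : O ∪ O.image bar = Finset.univ := by
      rw [← Finset.card_eq_iff_eq_univ, Finset.card_union_of_disjoint h2,
        Finset.card_image_of_injective _ hbinj, hOc, hcard]
      ring
    intro x
    refine ⟨h1 x, fun hx => ?_⟩
    have h4 : x ∈ O ∪ O.image bar := by rw [h3]; exact Finset.mem_univ _
    rcases Finset.mem_union.1 h4 with h5 | h5
    · exact h5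
    · obtain ⟨z, hz, rfl⟩ := Finset.mem_image.1 h5
      rw [hbar] at hx
      exact absurd hz hx
  have hsumO : ∀ F : X → ℚ, ∑ x ∈ O, F x = ∑ i, F (f i) := fun F =>
    Finset.sum_image fun a _ b _ h => hfinj h
  -- the correlations
  have hcorr : ∀ σ ∈ P, ∀ i : ZMod g, ∑ j, c (f j) * w (σ (f (i + j))) = 0 := by
    intro σ hσ i
    have h1 := hc.2 (σ * τ ^ i.val) (mul_mem hσ (pow_mem hτP _))
    rw [sum_tr hbar hO (fun x => c x * w ((σ * τ ^ i.val) x)) (fun x => by
      rw [hc.1, Equiv.Perm.mul_apply, perm_pow_comm hτb, hcomm σ hσ, hw]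
      rw [Equiv.Perm.mul_apply]
      ring), hsumO] at h1
    have h2 : ∑ j, c (f j) * w ((σ * τ ^ i.val) (f j)) = 0 := by linarith
    rw [← h2]
    refine Finset.sum_congr rfl fun j _ => ?_
    rw [Equiv.Perm.mul_apply, hfadd]
  have h01 : f 0 ≠ f 1 := by
    intro h
    exact zero_ne_one (hfinj h)
  have hconst : ∀ j, c (f j) = c (f 0) := by
    by_contra hno
    apply h01
    apply hnc
    intro σ hσ
    rcases corr hg (fun j => c (f j)) (fun j => w (σ (f j))) (hcorr σ hσ) with h1 | h1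
    · exact absurd h1 hno
    · exact (h1 1).symm
  have hc00 : c (f 0) ≠ 0 := by
    intro h0
    apply hc0
    funext x
    by_cases hx : x ∈ O
    · obtain ⟨i, -, rfl⟩ := Finset.mem_image.1 hx
      rw [hconst, h0]
      rfl
    · have h1 : bar x ∈ O := by
        rw [hO, hbar]
        exact hx
      obtain ⟨i, -, hi⟩ := Finset.mem_image.1 h1
      have h2 : c (bar x) = 0 := by rw [← hi, hconst, h0]
      rw [hc.1] at h2
      exact neg_eq_zero.1 h2
  refine ⟨O, hO, ?_⟩
  rw [hsumO]
  have h1 := hcorr 1 (one_mem _) 0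
  have h2 : ∑ j, c (f j) * w ((1 : Equiv.Perm X) (f (0 + j))) = c (f 0) * ∑ j, w (f j) := by
    rw [Finset.mul_sum]
    refine Finset.sum_congr rfl fun j _ => ?_
    rw [hconst, zero_add, Equiv.Perm.one_apply]
  rw [h2] at h1
  exact (mul_eq_zero.1 h1).resolve_left hc00

/-- **All relations.** A function with a relation and without coincidences. -/
theorem dichotomy (hbar : ∀ x, bar (bar x) = x) (hb : ∀ x, bar x ≠ x)
    (hcomm : ∀ σ ∈ P, ∀ x, σ (bar x) = bar (σ x)) (htr : ∀ x y : X, ∃ σ ∈ P, σ x = y)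
    (hw : ∀ x, w (bar x) = - w x) (hw0 : w ≠ 0) {g : ℕ} (hg : g.Prime ∨ g ≤ 4)
    (hcard : Fintype.card X = 2 * g)
    (hnc : ∀ x y, (∀ σ ∈ P, w (σ x) = w (σ y)) → x = y) {c : X → ℚ} (hc : c ∈ RelS P bar w)
    (hc0 : c ≠ 0) : 3 ≤ g ∧ ((∃ O : Finset X, IsTr bar O ∧ ∑ x ∈ O, w x = 0) ∨
      ∃ (O : Finset X) (_ : IsTr bar O) (e : Fin 4 ≃ O),
        w (e 0) ^ 2 + w (e 1) ^ 2 = w (e 2) ^ 2 + w (e 3) ^ 2) := by
  classical
  have hsum := finrank_add hbar hb hcomm htr hw
  rw [hcard] at hsum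
  push_cast at hsum
  have hsum' : finrank ℚ (SpanS P w) + finrank ℚ (RelS P bar w) = g := by
    have : (finrank ℚ (SpanS P w) : ℚ) + finrank ℚ (RelS P bar w) = g := by rw [hsum]; ring
    exact_mod_cast this
  have hV : 0 < finrank ℚ (SpanS P w) := by
    rw [Nat.pos_iff_ne_zero]
    intro h0
    rw [Submodule.finrank_eq_zero] at h0
    have h1 : w ∈ SpanS P w := mem_spanS
    rw [h0, Submodule.mem_bot] at h1
    exact hw0 h1
  have hN : 0 < finrank ℚ (RelS P bar w) := by
    rw [Nat.pos_iff_ne_zero]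
    intro h0
    rw [Submodule.finrank_eq_zero] at h0
    rw [h0, Submodule.mem_bot] at hc
    exact hc0 hc
  have h1 : finrank ℚ (SpanS P w) ≠ 1 := by
    intro h1
    have h2 := card_of_rank_one hbar hb hcomm htr hw hw0 hnc h1
    obtain ⟨x₀⟩ : Nonempty X := Fintype.card_pos_iff.1 (by rw [hcard]; omega)
    have h3 : (Finset.univ : Finset X) ⊆ {x₀, bar x₀} := by
      intro y _
      rw [Finset.mem_insert, Finset.mem_singleton]
      exact h2 x₀ y
    have h4 := Finset.card_le_card h3
    rw [Finset.card_univ, hcard] at h4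
    have h5 := Finset.card_le_two (a := x₀) (b := bar x₀)
    omega
  have h3 : 3 ≤ g := by omega
  refine ⟨h3, ?_⟩
  by_cases hp : g.Prime
  · left
    exact zero_sum_of_prime hbar hb hcomm htr hw hp (by omega) hcard hnc hc hc0
  · have h4 : g = 4 := by
      have h5 := hg.resolve_left hp
      interval_cases g
      · exact absurd Nat.prime_three hp
      · rfl
    subst h4
    by_cases h2 : finrank ℚ (SpanS P w) = 2
    · right
      exact pyth_of_rank_two hbar hb hcomm htr hw hcard h2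
    · left
      exact zero_sum_of_corank_one hbar hb hcomm htr hw (by omega)

end Pool.Agent.H21.NP
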