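import Pool.Agent.H21.NP.Ker

/-!
# Relations of a function on a finite set with a transitive group of permutations: dimension one,
# codimension one, and the case of four pairs
-/

set_option autoImplicit false
set_option linter.unusedSectionVars false

namespace Pool.Agent.H21.NP

open Module Pool.Agent.H21.TC

/-- Four pairs, two dimensional spaces. -/
theorem four_alg (K : Fin 4 → Fin 4 → ℚ) (hs : ∀ i j, K i j = K j i) (hd : ∀ i, K i i = 1 / 2)
    (hK : ∀ i j, K i j = ∑ l, K i l * K l j) (v : Fin 4 → ℚ) (hv : ∀ i, v i = ∑ j, K i j * v j) :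
    v 0 ^ 2 + v 1 ^ 2 = v 2 ^ 2 + v 3 ^ 2 ∨ v 0 ^ 2 + v 2 ^ 2 = v 1 ^ 2 + v 3 ^ 2 ∨
      v 0 ^ 2 + v 3 ^ 2 = v 1 ^ 2 + v 2 ^ 2 := by
  obtain ⟨a, ha⟩ : ∃ a, a = K 0 1 := ⟨_, rfl⟩
  obtain ⟨b, hb⟩ : ∃ b, b = K 0 2 := ⟨_, rfl⟩
  obtain ⟨c, hc⟩ : ∃ c, c = K 0 3 := ⟨_, rfl⟩
  obtain ⟨d, hd'⟩ : ∃ d, d = K 1 2 := ⟨_, rfl⟩
  obtain ⟨e, he⟩ : ∃ e, e = K 1 3 := ⟨_, rfl⟩
  obtain ⟨f, hf⟩ : ∃ f, f = K 2 3 := ⟨_, rfl⟩
  have k00 := hK 0 0
  have k11 := hK 1 1
  have k22 := hK 2 2
  have k33 := hK 3 3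
  have k01 := hK 0 1
  have k02 := hK 0 2
  have k03 := hK 0 3
  have k12 := hK 1 2
  have k13 := hK 1 3
  have k23 := hK 2 3
  have v0 := hv 0
  have v1 := hv 1
  have v2 := hv 2
  have v3 := hv 3
  rw [Fin.sum_univ_four] at k00 k11 k22 k33 k01 k02 k03 k12 k13 k23 v0 v1 v2 v3
  rw [hs 1 0, hs 2 0, hs 3 0, hd, ← ha, ← hb, ← hc] at k00
  rw [hs 1 0, hs 2 1, hs 3 1, hd, ← ha, ← hd', ← he] at k11
  rw [hs 2 0, hs 2 1, hs 3 2, hd, ← hb, ← hd', ← hf] at k22
  rw [hs 3 0, hs 3 1, hs 3 2, hd, ← hc, ← he, ← hf] at k33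
  rw [hs 2 1, hs 3 1, hd, hd, ← ha, ← hb, ← hc, ← hd', ← he] at k01
  rw [hs 3 2, hd, hd, ← ha, ← hb, ← hc, ← hd', ← hf] at k02
  rw [hd, hd, ← ha, ← hb, ← hc, ← he, ← hf] at k03
  rw [hs 1 0, hs 3 2, hd, hd, ← ha, ← hb, ← hd', ← he, ← hf] at k12
  rw [hs 1 0, hd, hd, ← ha, ← hc, ← hd', ← he, ← hf] at k13
  rw [hs 2 0, hs 2 1, hd, hd, ← hb, ← hc, ← hd', ← he, ← hf] at k23
  rw [hd, ← ha, ← hb, ← hc] at v0
  rw [hs 1 0, hd, ← ha, ← hd', ← he] at v1
  rw [hs 2 0, hs 2 1, hd, ← hb, ← hd', ← hf] at v2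
  rw [hs 3 0, hs 3 1, hs 3 2, hd, ← hc, ← he, ← hf] at v3
  have e1 : a ^ 2 = f ^ 2 := by linarith
  have e2 : b ^ 2 = e ^ 2 := by linarith
  have e3 : c ^ 2 = d ^ 2 := by linarith
  have f1 : b * d + c * e = 0 := by linarith
  have f2 : a * d + c * f = 0 := by linarith
  have f3 : a * e + b * f = 0 := by linarith
  have f4 : a * b + e * f = 0 := by linarith
  have f5 : a * c + d * f = 0 := by linarith
  have f6 : b * c + d * e = 0 := by linarith
  have habd : a * b * d = 0 := by linear_combination (a / 2) * f1 + (b / 2) * f2 - (c / 2) * f3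
  rcases mul_eq_zero.1 habd with h | h
  · rcases mul_eq_zero.1 h with h | h
    · -- `a = f = 0`
      left
      have hf0 : f = 0 := by
        have : f ^ 2 = 0 := by rw [← e1, h]; ring
        exact pow_eq_zero_iff (two_ne_zero) |>.1 this
      have w0 : v 0 = 2 * (b * v 2 + c * v 3) := by rw [h] at v0; linarith
      have w1 : v 1 = 2 * (d * v 2 + e * v 3) := by rw [h] at v1; linarith
      rw [w0, w1]
      have g1 : b ^ 2 + d ^ 2 = 1 / 4 := by rw [hf0] at k22; linarith
      have g2 : c ^ 2 + e ^ 2 = 1 / 4 := by rw [hf0] at k33; linarith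
      linear_combination (4 * v 2 ^ 2) * g1 + (4 * v 3 ^ 2) * g2 + (8 * v 2 * v 3) * f6
    · right
      left
      have he0 : e = 0 := by
        have : e ^ 2 = 0 := by rw [← e2, h]; ring
        exact pow_eq_zero_iff (two_ne_zero) |>.1 this
      have w0 : v 0 = 2 * (a * v 1 + c * v 3) := by rw [h] at v0; linarith
      have w1 : v 2 = 2 * (d * v 1 + f * v 3) := by rw [h] at v2; linarith
      rw [w0, w1]
      have g1 : a ^ 2 + d ^ 2 = 1 / 4 := by rw [he0] at k11; linarith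
      have g2 : c ^ 2 + f ^ 2 = 1 / 4 := by rw [he0] at k33; linarith
      linear_combination (4 * v 1 ^ 2) * g1 + (4 * v 3 ^ 2) * g2 + (8 * v 1 * v 3) * f5
  · right
    right
    have hc0 : c = 0 := by
      have : c ^ 2 = 0 := by rw [e3, h]; ring
      exact pow_eq_zero_iff (two_ne_zero) |>.1 this
    have w0 : v 0 = 2 * (a * v 1 + b * v 2) := by rw [hc0] at v0; linarith
    have w1 : v 3 = 2 * (e * v 1 + f * v 2) := by rw [hc0] at v3; linarith
    rw [w0, w1]
    have g1 : a ^ 2 + e ^ 2 = 1 / 4 := by rw [h] at k11; linarith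
    have g2 : b ^ 2 + f ^ 2 = 1 / 4 := by rw [h] at k22; linarith
    linear_combination (4 * v 1 ^ 2) * g1 + (4 * v 2 ^ 2) * g2 + (8 * v 1 * v 2) * f4

variable {X : Type*} [Fintype X]

/-- A set of representatives of the pairs. -/
def IsTr (bar : X → X) (O : Finset X) : Prop := ∀ x, x ∈ O ↔ bar x ∉ O

theorem sum_tr {bar : X → X} (hbar : ∀ x, bar (bar x) = x) {O : Finset X} (hO : IsTr bar O)
    (F : X → ℚ) (hF : ∀ x, F (bar x) = F x) : ∑ x, F x = 2 * ∑ x ∈ O, F x := by
  classical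
  rw [← Finset.sum_add_sum_compl O F, two_mul]
  congr 1
  symm
  refine Finset.sum_nbij' bar bar ?_ ?_ (fun y _ => hbar y) (fun y _ => hbar y) (fun y _ => (hF y).symm)
  · intro y hy
    rw [Finset.mem_compl]
    exact (hO y).1 hy
  · intro y hy
    rw [Finset.mem_compl] at hy
    rw [hO, hbar]
    exact hy

theorem card_tr {bar : X → X} (hbar : ∀ x, bar (bar x) = x) {O : Finset X} (hO : IsTr bar O) :
    Fintype.card X = 2 * O.card := by
  have h1 := sum_tr hbar hO (fun _ => (1 : ℚ)) fun _ => rfl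
  simp only [Finset.sum_const, nsmul_eq_mul, mul_one, Finset.card_univ] at h1
  exact_mod_cast h1

theorem exists_tr {bar : X → X} (hbar : ∀ x, bar (bar x) = x) (hb : ∀ x, bar x ≠ x) :
    ∃ O : Finset X, IsTr bar O := by
  classical
  let e := Fintype.equivFin X
  refine ⟨Finset.univ.filter fun x => e x < e (bar x), fun x => ?_⟩
  simp only [Finset.mem_filter, Finset.mem_univ, true_and, hbar, not_lt]
  refine ⟨fun h => h.le, fun h => lt_of_le_of_ne h fun h1 => hb x (e.injective h1).symm⟩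

variable {P : Subgroup (Equiv.Perm X)} {bar : X → X} {w : X → ℚ}

section

variable (hbar : ∀ x, bar (bar x) = x) (hb : ∀ x, bar x ≠ x)
  (hcomm : ∀ σ ∈ P, ∀ x, σ (bar x) = bar (σ x)) (htr : ∀ x y : X, ∃ σ ∈ P, σ x = y)
  (hw : ∀ x, w (bar x) = - w x)

include hbar hb hcomm htr hw

/-- The sum of the dimensions. -/
theorem finrank_add : (finrank ℚ (SpanS P w) : ℚ) + finrank ℚ (RelS P bar w) =
    Fintype.card X / 2 := by
  classical
  obtain ⟨k, hk, hk1, -, hk2⟩ := exists_kernel (SpanS P w)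
  obtain ⟨l, hl, hl1, -, hl2⟩ := exists_kernel (RelS P bar w)
  rw [hk2, hl2, ← Finset.sum_add_distrib,
    Finset.sum_congr rfl fun x _ => kernel_sum hbar hb hcomm hw hk hk1 hl hl1 x]
  simp only [Finset.sum_const, Finset.card_univ, nsmul_eq_mul]
  ring

/-- Dimension one: only one pair. -/
theorem card_of_rank_one (hw0 : w ≠ 0)
    (hnc : ∀ x y, (∀ σ ∈ P, w (σ x) = w (σ y)) → x = y) (h : finrank ℚ (SpanS P w) = 1)
    (x y : X) : y = x ∨ y = bar x := by
  have h1 := line_of_finrank h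
  have key : ∀ σ ∈ P, (∀ z, w (σ z) = w z) ∨ (∀ z, w (σ z) = - w z) := fun σ hσ =>
    abs_const spanS_stable h1 mem_spanS hw0 hσ
  obtain ⟨σ, hσ, rfl⟩ := htr x y
  have h2 : ∀ z : X, w z = w x → z = x := by
    intro z hz
    apply hnc
    intro τ hτ
    rcases key τ hτ with h3 | h3
    · rw [h3, h3, hz]
    · rw [h3, h3, hz]
  rcases key σ hσ with h3 | h3
  · left
    exact h2 _ (h3 x)
  · right
    have h4 := h2 (bar (σ x)) (by rw [hw, h3, neg_neg])
    exact (hbar (σ x)).symm.trans (congrArg bar h4)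

/-- Codimension one: a signed sum vanishes. -/
theorem zero_sum_of_corank_one (h : finrank ℚ (RelS P bar w) = 1) :
    ∃ O : Finset X, IsTr bar O ∧ ∑ x ∈ O, w x = 0 := by
  classical
  have h1 := line_of_finrank h
  obtain ⟨⟨c, hc⟩, hc0, -⟩ := finrank_eq_one_iff'.1 h
  have hc0' : c ≠ 0 := fun h0 => hc0 (Subtype.ext h0)
  obtain ⟨x₀, hx₀⟩ : ∃ x, c x ≠ 0 := by
    by_contra hno
    push Not at hno
    exact hc0' (funext hno)
  have hpm : ∀ x, c x = c x₀ ∨ c x = - c x₀ := by
    intro x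
    obtain ⟨σ, hσ, rfl⟩ := htr x₀ x
    rcases abs_const (relS_stable hcomm) h1 hc hc0' hσ with h2 | h2
    · exact Or.inl (h2 _)
    · exact Or.inr (h2 _)
  have hodd : ∀ x, c (bar x) = - c x := hc.1
  have hne : c x₀ ≠ - c x₀ := by
    intro h2
    apply hx₀
    linarith
  refine ⟨Finset.univ.filter fun x => c x = c x₀, fun x => ?_, ?_⟩
  · simp only [Finset.mem_filter, Finset.mem_univ, true_and, hodd]
    constructor
    · intro h2 h3
      rw [h2] at h3
      exact hne h3.symm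
    · intro h2
      rcases hpm x with h3 | h3
      · exact h3
      · exfalso
        apply h2
        rw [h3, neg_neg]
  · have hO : IsTr bar (Finset.univ.filter fun x => c x = c x₀) := by
      intro x
      simp only [Finset.mem_filter, Finset.mem_univ, true_and, hodd]
      constructor
      · intro h2 h3
        rw [h2] at h3
        exact hne h3.symm
      · intro h2
        rcases hpm x with h3 | h3
        · exact h3
        · exfalso
          apply h2
          rw [h3, neg_neg]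
    have h2 := hc.2 1 (one_mem _)
    have h3 := sum_tr hbar hO (fun x => c x * w x) (fun x => by rw [hodd, hw]; ring)
    have h4 : ∑ x, c x * w x = 0 := h2
    rw [h4] at h3
    have h5 : ∑ x ∈ Finset.univ.filter (fun x => c x = c x₀), c x * w x =
        c x₀ * ∑ x ∈ Finset.univ.filter (fun x => c x = c x₀), w x := by
      rw [Finset.mul_sum]
      refine Finset.sum_congr rfl fun x hx => ?_
      rw [(Finset.mem_filter.1 hx).2]
    rw [h5] at h3
    have h6 : c x₀ * ∑ x ∈ Finset.univ.filter (fun x => c x = c x₀), w x = 0 := by linarith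
    exact (mul_eq_zero.1 h6).resolve_left hx₀

/-- Four pairs and dimension two. -/
theorem pyth_of_rank_two (hcard : Fintype.card X = 8) (h : finrank ℚ (SpanS P w) = 2) :
    ∃ (O : Finset X) (_ : IsTr bar O) (e : Fin 4 ≃ O),
      w (e 0) ^ 2 + w (e 1) ^ 2 = w (e 2) ^ 2 + w (e 3) ^ 2 := by
  classical
  obtain ⟨O, hO⟩ := exists_tr hbar hb
  have hOc : O.card = 4 := by
    have := card_tr hbar hO
    omega
  obtain ⟨k, hk, hk1, hks, hk2⟩ := exists_kernel (SpanS P w)
  have hko : ∀ x y, k x (bar y) = - k x y := fun x => spanS_odd hcomm hw (hk x)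
  have hdiag : ∀ x, k x x = 1 / 4 := by
    intro x
    have h1 : ∀ y, k y y = k x x := by
      intro y
      obtain ⟨σ, hσ, rfl⟩ := htr x y
      exact kernel_perm spanS_stable hk hk1 hσ x x
    rw [h, Finset.sum_congr rfl fun y _ => h1 y, Finset.sum_const, Finset.card_univ, hcard,
      nsmul_eq_mul] at hk2
    push_cast at hk2
    linarith
  let e : Fin 4 ≃ O := (O.equivFinOfCardEq hOc).symm
  have hsum : ∀ h ∈ SpanS P w, ∀ x, h x = ∑ j : Fin 4, (2 * k x (e j)) * h (e j) := by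
    intro h hh x
    have h1 := hk1 h hh x
    rw [sum_tr hbar hO (fun y => k x y * h y) (fun y => by
      rw [hko, spanS_odd hcomm hw hh y]; ring)] at h1
    rw [h1, ← Finset.sum_coe_sort O (fun y => k x y * h y), ← Equiv.sum_comp e, Finset.mul_sum]
    refine Finset.sum_congr rfl fun j _ => ?_
    ring
  have key := four_alg (fun i j => 2 * k (e i) (e j)) (fun i j => by rw [hks])
    (fun i => by rw [hdiag]; norm_num) (fun i j => by
      have h1 := hsum _ (hk (e j)) (e i)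
      rw [hks (e i) (e j), h1, Finset.mul_sum]
      refine Finset.sum_congr rfl fun l _ => ?_
      rw [hks (e l) (e j)]
      ring) (fun i => w (e i)) (fun i => hsum w mem_spanS (e i))
  rcases key with h1 | h1 | h1
  · exact ⟨O, hO, e, h1⟩
  · exact ⟨O, hO, (Equiv.swap 1 2).trans e, by
      simpa [Equiv.swap_apply_of_ne_of_ne] using h1⟩
  · exact ⟨O, hO, (Equiv.swap 1 3).trans e, by
      have h2 : (Equiv.swap (1 : Fin 4) 3) 0 = 0 := by decide
      have h3 : (Equiv.swap (1 : Fin 4) 3) 2 = 2 := by decide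
      simp only [Equiv.trans_apply, Equiv.swap_apply_left, Equiv.swap_apply_right, h2, h3]
      rw [h1]
      ring⟩

end

end Pool.Agent.H21.NP
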