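import Pool.Graph.R_pool_sql_team_seeded_63374d34.N90.FD.Surj

/-!
# CM fields with given Galois groups in which a given prime number splits completely
-/

set_option autoImplicit false
set_option linter.unusedSectionVars false

namespace Pool.Agent.H21.NP

open NumberField Module Pool.Agent.N90.FD

open IntermediateField in
/-- **Realization.** -/
theorem exists_field_ker {G : Type} [Group G] (P : (QQ ≃ₐ[ℚ] QQ) →* G) (hP : Function.Surjective P)
    (M : IntermediateField ℚ QQ) [FiniteDimensional ℚ M] (hM : M.fixingSubgroup ≤ P.ker)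
    (c : QQ ≃ₐ[ℚ] QQ) (hc : ∀ x, j0 (c x) = starRingEnd ℂ (j0 x))
    (hcent : ∀ g : G, g * P c = P c * g) (hc1 : P c ≠ 1) :
    ∃ (K : IntermediateField ℚ QQ) (_ : NumberField K) (_ : IsCMField K) (_ : IsGalois ℚ K)
      (e : (K ≃ₐ[ℚ] K) ≃* G), K.fixingSubgroup = P.ker ∧ ∀ g : K ≃ₐ[ℚ] K, (∀ x, g x = IsCMField.complexConj K x) →
        e g = P c := by
  have hopen : IsOpen (P.ker : Set (QQ ≃ₐ[ℚ] QQ)) :=
    Subgroup.isOpen_mono hM (IntermediateField.fixingSubgroup_isOpen M)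
  let H : ClosedSubgroup (QQ ≃ₐ[ℚ] QQ) := ⟨P.ker, Subgroup.isClosed_of_isOpen _ hopen⟩
  have hHn : H.1.Normal := MonoidHom.normal_ker P
  let K : IntermediateField ℚ QQ := fixedField H.1
  have hfix : K.fixingSubgroup = P.ker := InfiniteGalois.fixingSubgroup_fixedField H
  have hfd : FiniteDimensional ℚ K := by
    rw [← InfiniteGalois.isOpen_iff_finite]
    have h1 : K.fixingSubgroup.carrier = (P.ker : Set (QQ ≃ₐ[ℚ] QQ)) :=
      congrArg (fun S : Subgroup (QQ ≃ₐ[ℚ] QQ) => (S : Set (QQ ≃ₐ[ℚ] QQ))) hfix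
    rw [h1]
    exact hopen
  have hnor : K.fixingSubgroup.Normal := by
    rw [hfix]
    exact MonoidHom.normal_ker P
  have hgal : IsGalois ℚ K := (InfiniteGalois.normal_iff_isGalois K).1 hnor
  have hNF : NumberField K := NumberField.mk
  -- the restriction
  let R : (QQ ≃ₐ[ℚ] QQ) →* (K ≃ₐ[ℚ] K) := AlgEquiv.restrictNormalHom K
  have hR : Function.Surjective R := AlgEquiv.restrictNormalHom_surjective QQ
  have hker : R.ker = P.ker := by
    rw [← hfix]
    exact IntermediateField.restrictNormalHom_ker K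
  have hRx : ∀ (σ : QQ ≃ₐ[ℚ] QQ) (x : K), ((R σ x : K) : QQ) = σ x := fun σ x =>
    AlgEquiv.restrictNormal_commutes σ K x
  -- the isomorphism
  let e1 : (QQ ≃ₐ[ℚ] QQ) ⧸ R.ker ≃* (K ≃ₐ[ℚ] K) := QuotientGroup.quotientKerEquivOfSurjective R hR
  let e2 : (QQ ≃ₐ[ℚ] QQ) ⧸ P.ker ≃* G := QuotientGroup.quotientKerEquivOfSurjective P hP
  let e3 : (QQ ≃ₐ[ℚ] QQ) ⧸ R.ker ≃* (QQ ≃ₐ[ℚ] QQ) ⧸ P.ker := QuotientGroup.quotientMulEquivOfEq hker
  let e : (K ≃ₐ[ℚ] K) ≃* G := (e1.symm.trans e3).trans e2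
  have he : ∀ σ, e (R σ) = P σ := by
    intro σ
    have h1 : e1.symm (R σ) = QuotientGroup.mk σ := by
      rw [MulEquiv.symm_apply_eq]
      rfl
    change e2 (e3 (e1.symm (R σ))) = P σ
    rw [h1]
    rfl
  -- complex conjugation
  have hconj : ∀ φ : K →+* ℂ, ComplexEmbedding.IsConj φ (R c) := by
    intro φ
    -- extend
    let φ' : K →ₐ[ℚ] ℂ := φ.toRatAlgHom
    let _ : Algebra K ℂ := φ.toAlgebra
    have hst : IsScalarTower ℚ K ℂ := IsScalarTower.of_algebraMap_eq fun x => (φ'.commutes x).symm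
    let τ0 : QQ →ₐ[K] ℂ := IsAlgClosed.lift
    let τ : QQ →ₐ[ℚ] ℂ := τ0.restrictScalars ℚ
    have hτ : ∀ x : K, τ x = φ x := fun x => τ0.commutes x
    obtain ⟨σ, hσ⟩ := exists_lift τ
    have h1 : R (c * σ) = R (σ * c) := by
      apply e.injective
      rw [he, he, map_mul, map_mul, hcent]
    ext x
    change starRingEnd ℂ (φ x) = φ (R c x)
    rw [← hτ x, ← hτ (R c x), hσ, hσ, ← hc]
    congr 1
    have h2 := congrArg (fun g : K ≃ₐ[ℚ] K => ((g x : K) : QQ)) h1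
    simp only [hRx] at h2
    have h3 : ((R c x : K) : QQ) = c x := hRx c x
    rw [h3]
    exact h2
  have htc : IsTotallyComplex K := by
    refine ⟨fun w => ?_⟩
    rw [InfinitePlace.isComplex_iff]
    intro hreal
    apply hc1
    rw [← he]
    have h1 : R c = 1 := by
      ext x
      have h2 := RingHom.congr_fun (hconj w.embedding) x
      have h3 := RingHom.congr_fun hreal x
      have h4 : w.embedding x = w.embedding (R c x) := h3.symm.trans h2
      rw [← w.embedding.injective h4]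
      rfl
    rw [h1, map_one]
  have hCM : IsCMField K := IsCMField.of_forall_isConj K hconj
  refine ⟨K, hNF, hCM, hgal, e, hfix, fun g hg => ?_⟩
  rw [← he]
  congr 1
  ext x
  rw [hg x]
  obtain ⟨φ⟩ : Nonempty (K →+* ℂ) := inferInstance
  congr 1
  apply φ.injective
  have h1 := IsCMField.complexEmbedding_complexConj K φ x
  have h2 := RingHom.congr_fun (hconj φ) x
  rw [h1]
  exact h2


section padic

variable (p : ℕ) [Fact p.Prime]

/-- Automorphisms of the algebraic closure for each pair of embeddings. -/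
theorem exists_lift_aux {A : Type*} [Field A] [Algebra ℚ A] (e0 τ : QQ →ₐ[ℚ] A) :
    ∃ σ : QQ ≃ₐ[ℚ] QQ, ∀ x, τ x = e0 (σ x) := by
  have h1 : ∀ x : QQ, τ x ∈ (e0 : QQ →ₐ[ℚ] A).range := by
    intro x
    have hx : IsIntegral ℚ x := Algebra.IsIntegral.isIntegral x
    have hroot : Polynomial.aeval (τ x) (minpoly ℚ x) = 0 := by
      rw [Polynomial.aeval_algHom_apply, minpoly.aeval, map_zero]
    have hsp : ((minpoly ℚ x).map (algebraMap ℚ QQ)).Splits := IsAlgClosed.splits _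
    have h2 : τ x ∈ (minpoly ℚ x).rootSet A :=
      Polynomial.mem_rootSet.2 ⟨minpoly.ne_zero hx, hroot⟩
    rw [← hsp.image_rootSet e0] at h2
    obtain ⟨y, _, hy⟩ := h2
    exact ⟨y, hy⟩
  let e : QQ ≃ₐ[ℚ] (e0 : QQ →ₐ[ℚ] A).range := AlgEquiv.ofInjective e0 e0.injective
  let σ0 : QQ →ₐ[ℚ] QQ := (e.symm : _ →ₐ[ℚ] QQ).comp (τ.codRestrict _ h1)
  have hσ0 : ∀ x, e0 (σ0 x) = τ x := by
    intro x
    have h3 : e (σ0 x) = ⟨τ x, h1 x⟩ := e.apply_symm_apply _
    exact congrArg Subtype.val h3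
  refine ⟨AlgEquiv.ofBijective σ0 (AlgHom.normal_bijective ℚ QQ QQ σ0), fun x => ?_⟩
  exact (hσ0 x).symm

instance : Normal ℚ_[p] (PadicAlgCl p) := IsAlgClosure.normal ℚ_[p] (PadicAlgCl p)

instance : IsGalois ℚ_[p] (PadicAlgCl p) := ⟨⟩

theorem mem_padic_of_fixed (z : PadicAlgCl p)
    (h : ∀ σ : PadicAlgCl p ≃ₐ[ℚ_[p]] PadicAlgCl p, σ z = z) :
    ∃ y : ℚ_[p], algebraMap ℚ_[p] (PadicAlgCl p) y = z :=
  IntermediateField.mem_bot.1 ((InfiniteGalois.mem_bot_iff_fixed z).2 h)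

/-- Criterion for `p` to split completely. -/
theorem padic_values (K : IntermediateField ℚ QQ)
    (hK : ∀ (e0 : QQ →ₐ[ℚ] PadicAlgCl p) (σ : PadicAlgCl p ≃ₐ[ℚ_[p]] PadicAlgCl p)
      (σ' : QQ ≃ₐ[ℚ] QQ), (∀ x, e0 (σ' x) = σ (e0 x)) → ∀ x ∈ K, σ' x = x)
    (φ : K →+* PadicAlgCl p) (x : K) : ∃ y : ℚ_[p], algebraMap ℚ_[p] (PadicAlgCl p) y = φ x := by
  let φ' : K →ₐ[ℚ] PadicAlgCl p := φ.toRatAlgHom
  let _ : Algebra K (PadicAlgCl p) := φ.toAlgebra
  have hst : IsScalarTower ℚ K (PadicAlgCl p) :=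
    IsScalarTower.of_algebraMap_eq fun x => (φ'.commutes x).symm
  let e1 : QQ →ₐ[K] PadicAlgCl p := IsAlgClosed.lift
  let e0 : QQ →ₐ[ℚ] PadicAlgCl p := e1.restrictScalars ℚ
  have he : ∀ x : K, e0 x = φ x := fun x => e1.commutes x
  apply mem_padic_of_fixed
  intro σ
  obtain ⟨σ', hσ'⟩ := exists_lift_aux e0 (((σ : PadicAlgCl p ≃ₐ[ℚ_[p]] PadicAlgCl p) :
    PadicAlgCl p →+* PadicAlgCl p).toRatAlgHom.comp e0)
  have h1 := hK e0 σ σ' (fun x => (hσ' x).symm) x x.2
  rw [← he]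
  have h2 := hσ' x
  rw [h1] at h2
  exact h2

/-- All embeddings have values in the field of `p`-adic numbers. -/
theorem card_padic (F : Type*) [Field F] [NumberField F]
    (h : ∀ (φ : F →+* PadicAlgCl p) (x : F), ∃ y : ℚ_[p], algebraMap ℚ_[p] (PadicAlgCl p) y = φ x) :
    Nat.card (F →+* ℚ_[p]) = finrank ℚ F := by
  have hinj : Function.Injective
      (fun φ : F →+* ℚ_[p] => (algebraMap ℚ_[p] (PadicAlgCl p)).comp φ) := by
    intro φ φ' h
    exact RingHom.ext fun x => (algebraMap ℚ_[p] (PadicAlgCl p)).injective (RingHom.congr_fun h x)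
  have hsurj : Function.Surjective
      (fun φ : F →+* ℚ_[p] => (algebraMap ℚ_[p] (PadicAlgCl p)).comp φ) := by
    intro φ
    choose y hy using h φ
    have hi := (algebraMap ℚ_[p] (PadicAlgCl p)).injective
    refine ⟨{ toFun := y
              map_one' := hi ?_
              map_mul' := fun a b => hi ?_
              map_zero' := hi ?_
              map_add' := fun a b => hi ?_ }, RingHom.ext hy⟩
    · rw [hy, map_one, map_one]
    · rw [hy, map_mul, map_mul, hy, hy]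
    · rw [hy, map_zero, map_zero]
    · rw [hy, map_add, map_add, hy, hy]
  rw [Nat.card_congr (Equiv.ofBijective _ ⟨hinj, hsurj⟩), Nat.card_eq_fintype_card,
    Embeddings.card]

end padic

end Pool.Agent.H21.NP
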