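import Pool.Agent.H21.NP.Sq
import Pool.Agent.H21.NP.Fld

/-!
# A dihedral CM field of degree eight in which a given prime number splits completely
-/

set_option autoImplicit false
set_option linter.unusedSectionVars false

namespace Pool.Agent.H21.NP

open NumberField Module Pool.Agent.N90.FD Pool.Agent.N90.HE

theorem fix_of_sq (p : ℕ) [Fact p.Prime] (z : PadicAlgCl p) (y : ℚ_[p])
    (h : z ^ 2 = (algebraMap ℚ_[p] (PadicAlgCl p) y) ^ 2)
    (σ : PadicAlgCl p ≃ₐ[ℚ_[p]] PadicAlgCl p) : σ z = z := by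
  rcases sq_eq_sq_iff_eq_or_eq_neg.1 h with h1 | h1
  · rw [h1, AlgEquiv.commutes]
  · rw [h1, map_neg, AlgEquiv.commutes]

/-- The data with `p`-adic square roots. -/
theorem exists_dat_padic (p : ℕ) [hp : Fact p.Prime] : ∃ (D : Dat 1) (ρ t θ : ℚ_[p]),
    ρ ^ 2 = (D.d 0 : ℚ_[p]) ∧ t ^ 2 = (D.N 0 : ℚ_[p]) ∧ θ ^ 2 = -((D.x 0 : ℚ_[p]) + ρ) := by
  obtain ⟨d, N, x, k, l, hd, hN, hx, nd, nN, ndN, hk, hl⟩ := exists_numbers p hp.out
  obtain ⟨r, t, θ, hr, ht, hθ⟩ := exists_roots (p := p) (d : ℤ) (x : ℤ) k l hk hl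
  have h1 : ∀ z : QQ, ∃ y : QQ, y ^ 2 = z := fun z => by
    obtain ⟨y, hy⟩ := IsAlgClosed.exists_pow_nat_eq z (n := 2) (by norm_num)
    exact ⟨y, hy⟩
  choose sq hsq using h1
  have hS : ∀ S : Finset (Fin 1), S.Nonempty → S = {0} := by
    intro S hS
    obtain ⟨i, hi⟩ := hS
    ext j
    rw [Finset.mem_singleton, Subsingleton.elim j 0]
    rw [Subsingleton.elim i 0] at hi
    exact ⟨fun _ => rfl, fun _ => hi⟩
  refine ⟨⟨fun _ => d, fun _ => N, fun _ => x, fun _ => hd, fun _ => hN, fun _ => hx, ?_,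
    fun _ => sq d, fun _ => hsq _, fun _ => sq N, fun _ => hsq _,
    sq (-∏ _i : Fin 1, ((x : QQ) + sq d)), hsq _⟩, (r : ℚ_[p]), (t : ℚ_[p]), (θ : ℚ_[p]),
    ?_, ?_, ?_⟩
  · intro S T hST
    by_cases hS' : S.Nonempty <;> by_cases hT' : T.Nonempty
    · rw [hS S hS', hS T hT', Finset.prod_singleton, Finset.prod_singleton]
      exact ndN
    · rw [hS S hS', Finset.not_nonempty_iff_eq_empty.1 hT', Finset.prod_singleton,
        Finset.prod_empty, mul_one]
      exact nd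
    · rw [hS T hT', Finset.not_nonempty_iff_eq_empty.1 hS', Finset.prod_singleton,
        Finset.prod_empty, one_mul]
      exact nN
    · exact absurd hST (by rw [not_or]; exact ⟨hS', hT'⟩)
  · have h2 := congrArg (fun z : ℤ_[p] => (z : ℚ_[p])) hr
    simp only [PadicInt.coe_pow, Int.cast_natCast, PadicInt.coe_natCast] at h2
    exact h2
  · have h2 := congrArg (fun z : ℤ_[p] => (z : ℚ_[p])) ht
    simp only [PadicInt.coe_pow, PadicInt.coe_sub, Int.cast_natCast, PadicInt.coe_natCast] at h2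
    rw [h2]
    have h3 : (x : ℚ_[p]) ^ 2 = d + N := by exact_mod_cast hx
    rw [h3]
    ring
  · have h2 := congrArg (fun z : ℤ_[p] => (z : ℚ_[p])) hθ
    simp only [PadicInt.coe_pow, PadicInt.coe_neg, PadicInt.coe_add, Int.cast_natCast,
      PadicInt.coe_natCast] at h2
    exact h2

/-- The field. -/
theorem exists_dihedral (p : ℕ) [Fact p.Prime] :
    ∃ (K : Type) (_ : Field K) (_ : NumberField K) (_ : IsCMField K) (_ : IsGalois ℚ K)
      (e : (K ≃ₐ[ℚ] K) ≃* HG 1 (3 ^ 0)), (∀ g : K ≃ₐ[ℚ] K,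
        (∀ x, g x = IsCMField.complexConj K x) → e g = HG.c 1 (3 ^ 0)) ∧
        Nat.card (K →+* ℚ_[p]) = finrank ℚ K := by
  obtain ⟨D, ρ, t, θ, hρ, ht, hθ⟩ := exists_dat_padic p
  have hsub : Subsingleton (Multiplicative (ZMod (3 ^ 0))) := by
    rw [pow_zero]
    exact inferInstanceAs (Subsingleton (ZMod 1))
  let χ : (QQ ≃ₐ[ℚ] QQ) →* Multiplicative (ZMod (3 ^ 0)) := 1
  have hχ : Function.Surjective χ := fun y => ⟨1, Subsingleton.elim _ _⟩
  obtain ⟨cc, hcc⟩ := exists_conj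
  have hc := D.PP_conj χ cc hcc
  have hker : ∀ σ : QQ ≃ₐ[ℚ] QQ, σ (D.r 0) = D.r 0 → σ (D.t 0) = D.t 0 → σ D.θ = D.θ →
      σ ∈ (D.PP χ).ker := by
    intro σ h1 h2 h3
    have hsgn : ∀ x : QQ, sgn x x = 0 := fun x => if_pos rfl
    have hpa : D.pa σ = 0 := by
      funext i
      change sgn (D.r i) (σ (D.r i)) = 0
      rw [Subsingleton.elim i 0, h1, hsgn]
    have hpb : D.pb σ = 0 := by
      funext i
      change sgn (D.t i) (σ (D.t i)) = 0
      rw [Subsingleton.elim i 0, h2, hsgn]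
    have hps : D.ps σ = 0 := by
      unfold Dat.ps
      have h2 : ∏ i, D.fq i (D.pa σ i) = 1 := by
        refine Finset.prod_eq_one fun i _ => ?_
        rw [hpa]
        exact if_pos rfl
      rw [h2, mul_one, h3, hsgn]
    rw [MonoidHom.mem_ker]
    ext1
    · exact hpa
    · exact hpb
    · exact hps
    · exact @Subsingleton.elim (Multiplicative (ZMod (3 ^ 0))) hsub _ _
  let S : Set QQ := {D.r 0, D.t 0, D.θ}
  let M : IntermediateField ℚ QQ := IntermediateField.adjoin ℚ S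
  have hfd : FiniteDimensional ℚ M := by
    have : Finite S := (Set.toFinite S).to_subtype
    exact IntermediateField.finiteDimensional_adjoin fun x _ => Algebra.IsIntegral.isIntegral x
  have hM : M.fixingSubgroup ≤ (D.PP χ).ker := by
    intro σ hσ
    have h1 : ∀ x ∈ S, σ x = x := fun x hx =>
      (IntermediateField.mem_fixingSubgroup_iff M σ).1 hσ x (IntermediateField.subset_adjoin ℚ S hx)
    exact hker σ (h1 _ (Or.inl rfl)) (h1 _ (Or.inr (Or.inl rfl))) (h1 _ (Or.inr (Or.inr rfl)))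
  obtain ⟨K, hNF, hCM, hG, e, hfix, he⟩ := exists_field_ker (D.PP χ) (D.PP_surj χ hχ) M hM cc hcc
    (fun g => by rw [hc]; exact HG.c_central g) (by rw [hc]; exact HG.c_ne_one)
  rw [hc] at he
  refine ⟨K, inferInstance, hNF, hCM, hG, e, he, ?_⟩
  apply card_padic
  apply padic_values
  intro e0 σ σ' h x hx
  have hσ' : σ' ∈ K.fixingSubgroup := by
    rw [hfix]
    have key : ∀ (z : QQ) (y : ℚ_[p]), (e0 z) ^ 2 = (algebraMap ℚ_[p] (PadicAlgCl p) y) ^ 2 →
        σ' z = z := by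
      intro z y hz
      apply e0.injective
      change e0 (σ' z) = e0 z
      rw [h, fix_of_sq p _ y hz]
    have hr2 : (e0 (D.r 0)) ^ 2 = (algebraMap ℚ_[p] (PadicAlgCl p) ρ) ^ 2 := by
      rw [← map_pow, ← map_pow, D.hr, hρ, map_natCast, map_natCast]
    have ht2 : (e0 (D.t 0)) ^ 2 = (algebraMap ℚ_[p] (PadicAlgCl p) t) ^ 2 := by
      rw [← map_pow, ← map_pow, D.ht, ht, map_natCast, map_natCast]
    apply hker
    · exact key _ _ hr2
    · exact key _ _ ht2
    · have hθ2 : (e0 D.θ) ^ 2 = -((D.x 0 : PadicAlgCl p) + e0 (D.r 0)) := by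
        rw [← map_pow, D.hθ]
        simp
      rcases sq_eq_sq_iff_eq_or_eq_neg.1 hr2 with h1 | h1
      · apply key _ θ
        rw [hθ2, h1, ← map_pow, hθ]
        simp
      · apply key _ (t / θ)
        have hN : (D.N 0 : ℚ_[p]) ≠ 0 := by exact_mod_cast (D.hN 0).ne'
        have h2 : ((D.x 0 : ℚ_[p]) + ρ) * (D.x 0 - ρ) = D.N 0 := by
          have h3 : ((D.x 0 : ℕ) : ℚ_[p]) ^ 2 = D.d 0 + D.N 0 := by exact_mod_cast D.hx 0
          linear_combination h3 - hρ
        have h4 : (D.x 0 : ℚ_[p]) + ρ ≠ 0 := by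
          intro h0
          rw [h0, zero_mul] at h2
          exact hN h2.symm
        have h5 : θ ≠ 0 := by
          intro h0
          rw [h0] at hθ
          apply h4
          have : (0 : ℚ_[p]) ^ 2 = 0 := by norm_num
          rw [this] at hθ
          exact neg_eq_zero.1 hθ.symm
        have h6 : (t / θ) ^ 2 = -((D.x 0 : ℚ_[p]) - ρ) := by
          rw [div_pow, ht, hθ, ← h2]
          field_simp
        rw [hθ2, h1, ← map_pow, h6]
        simp
        ring
  exact (IntermediateField.mem_fixingSubgroup_iff K σ').1 hσ' x hx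

end Pool.Agent.H21.NP
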