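import Pool.Agent.H21.NP.Fld

/-!
# Doubly transitive Galois groups
-/

set_option autoImplicit false
set_option linter.unusedSectionVars false

namespace Pool.Agent.H21.NP

open Polynomial Pool.Agent.N90.FD

/-- Roots in a larger field come from `QQ`. -/
theorem exists_root_lift {A : Type*} [Field A] [Algebra ℚ A] (e : QQ →ₐ[ℚ] A) (f : ℤ[X])
    (hf : f.Monic) (z : A) (hz : aeval z f = 0) : ∃ y : QQ, e y = z ∧ aeval y f = 0 := by
  let fQ : ℚ[X] := f.map (algebraMap ℤ ℚ)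
  have hfQ : fQ ≠ 0 := (hf.map _).ne_zero
  have h1 : z ∈ fQ.rootSet A := by
    rw [mem_rootSet]
    refine ⟨hfQ, ?_⟩
    simp only [fQ, aeval_map_algebraMap]
    exact hz
  have hsp : (fQ.map (algebraMap ℚ QQ)).Splits := IsAlgClosed.splits _
  rw [← hsp.image_rootSet e] at h1
  obtain ⟨y, hy, hy'⟩ := h1
  refine ⟨y, hy', ?_⟩
  rw [mem_rootSet] at hy
  have h2 := hy.2
  simp only [fQ, aeval_map_algebraMap] at h2
  exact h2

theorem transitive_of_irreducible (f : ℤ[X]) (hf : f.Monic) (hirr : Irreducible f) (α α' : QQ)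
    (h : aeval α f = 0) (h' : aeval α' f = 0) : ∃ σ : QQ ≃ₐ[ℚ] QQ, σ α = α' := by
  have hirrQ : Irreducible (f.map (algebraMap ℤ ℚ)) :=
    (hf.irreducible_iff_irreducible_map_fraction_map).1 hirr
  have key : ∀ z : QQ, aeval z f = 0 → f.map (algebraMap ℤ ℚ) = minpoly ℚ z := by
    intro z hz
    refine minpoly.eq_of_irreducible_of_monic hirrQ ?_ (hf.map _)
    rw [aeval_map_algebraMap]
    exact hz
  have h1 : minpoly ℚ α' = minpoly ℚ α := (key _ h').symm.trans (key _ h)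
  obtain ⟨σ, hσ⟩ := (Normal.minpoly_eq_iff_mem_orbit QQ).mp h1
  exact ⟨σ, hσ⟩

section

variable (q : ℕ) [hq : Fact q.Prime]

theorem irreducible_factor (f : ℤ[X]) (hf : f.Monic) (h : ℤ[X]) (hd : 2 ≤ h.natDegree)
    (hh : h.Monic) (hhi : Irreducible (h.map (Int.castRingHom (ZMod q))))
    (hfh : f.map (Int.castRingHom (ZMod q)) = X * h.map (Int.castRingHom (ZMod q))) :
    ∃ (a : ℤ_[q]) (h1 : ℤ_[q][X]), f.map (Int.castRingHom ℤ_[q]) = (X - C a) * h1 ∧ h1.Monic ∧
      Irreducible h1 := by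
  have h0 : ((f.coeff 0 : ℤ) : ZMod q) = 0 := by
    have e1 := congrArg (fun P => coeff P 0) hfh
    simp only [coeff_map, mul_coeff_zero, coeff_X_zero, zero_mul] at e1
    exact e1
  have h1 : ((f.coeff 1 : ℤ) : ZMod q) ≠ 0 := by
    have e1 := congrArg (fun P => coeff P 1) hfh
    simp only [coeff_map] at e1
    have e2 : (X * h.map (Int.castRingHom (ZMod q))).coeff 1 =
        (h.map (Int.castRingHom (ZMod q))).coeff 0 := coeff_X_mul _ 0
    rw [e2] at e1
    intro h2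
    have h3 : (Int.castRingHom (ZMod q)) (f.coeff 1) = 0 := h2
    rw [h3] at e1
    have h4 : X ∣ h.map (Int.castRingHom (ZMod q)) := by
      rw [X_dvd_iff]
      exact e1.symm
    have h5 := (irreducible_X.dvd_irreducible_iff_associated hhi).1 h4
    have h6 := natDegree_eq_of_degree_eq (degree_eq_degree_of_associated h5)
    rw [natDegree_X, hh.natDegree_map] at h6
    omega
  have n0 : ‖((f.coeff 0 : ℤ) : ℤ_[q])‖ < 1 := by
    rw [PadicInt.norm_int_lt_one_iff_dvd]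
    exact (ZMod.intCast_zmod_eq_zero_iff_dvd _ _).1 h0
  have n1 : ‖((f.coeff 1 : ℤ) : ℤ_[q])‖ = 1 := by
    by_contra hne
    apply h1
    rw [ZMod.intCast_zmod_eq_zero_iff_dvd, ← PadicInt.norm_int_lt_one_iff_dvd]
    exact lt_of_le_of_ne (PadicInt.norm_le_one _) hne
  have a0 : aeval (0 : ℤ_[q]) f = ((f.coeff 0 : ℤ) : ℤ_[q]) := by
    rw [aeval_def, eval₂_at_zero]
    rfl
  have a1 : aeval (0 : ℤ_[q]) (derivative f) = ((f.coeff 1 : ℤ) : ℤ_[q]) := by
    rw [aeval_def, eval₂_at_zero, coeff_derivative]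
    simp
  obtain ⟨a, ha, ha', -, -⟩ := hensels_lemma (F := f) (a := (0 : ℤ_[q])) (by
    rw [a0, a1, n1, one_pow]
    exact n0)
  rw [a1, n1, sub_zero] at ha'
  have hroot : (f.map (Int.castRingHom ℤ_[q])).IsRoot a := by
    rw [IsRoot, eval_map, ← ha, aeval_def]
    congr 1
  obtain ⟨h1, hh1⟩ := dvd_iff_isRoot.2 hroot
  have hm1 : h1.Monic := (monic_X_sub_C a).of_mul_monic_left (by
    rw [← hh1]
    exact hf.map _)
  refine ⟨a, h1, hh1, hm1, ?_⟩
  apply hm1.irreducible_of_irreducible_map (PadicInt.toZMod (p := q))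
  have e1 := congrArg (Polynomial.map (PadicInt.toZMod (p := q))) hh1
  rw [Polynomial.map_map, Polynomial.map_mul, Polynomial.map_sub, map_X, map_C] at e1
  have e2 : (PadicInt.toZMod (p := q)).comp (Int.castRingHom ℤ_[q]) = Int.castRingHom (ZMod q) :=
    Subsingleton.elim _ _
  have e3 : (PadicInt.toZMod (p := q)) a = 0 := by
    rw [← RingHom.mem_ker, PadicInt.ker_toZMod, IsLocalRing.mem_maximalIdeal, mem_nonunits_iff,
      PadicInt.not_isUnit_iff]
    exact ha'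
  rw [e2, e3, hfh, C_0, sub_zero] at e1
  rw [← mul_left_cancel₀ X_ne_zero e1]
  exact hhi

/-- **Double transitivity.** -/
theorem doubly_transitive (f : ℤ[X]) (hf : f.Monic) (hirr : Irreducible f) (h : ℤ[X])
    (hd : 2 ≤ h.natDegree) (hh : h.Monic)
    (hhi : Irreducible (h.map (Int.castRingHom (ZMod q))))
    (hfh : f.map (Int.castRingHom (ZMod q)) = X * h.map (Int.castRingHom (ZMod q)))
    (α β α' β' : QQ) (hα : aeval α f = 0) (hβ : aeval β f = 0) (hα' : aeval α' f = 0)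
    (hβ' : aeval β' f = 0) (hne : α ≠ β) (hne' : α' ≠ β') :
    ∃ σ : QQ ≃ₐ[ℚ] QQ, σ α = α' ∧ σ β = β' := by
  obtain ⟨a, h1, hfa, hm1, hi1⟩ := irreducible_factor q f hf h hd hh hhi hfh
  let e : QQ →ₐ[ℚ] PadicAlgCl q := IsAlgClosed.lift
  let ι : ℤ_[q] →+* PadicAlgCl q := (algebraMap ℚ_[q] (PadicAlgCl q)).comp (algebraMap ℤ_[q] ℚ_[q])
  have hroots : ∀ z : PadicAlgCl q, aeval z f = 0 ↔ z = ι a ∨ eval₂ ι z h1 = 0 := by
    intro z
    have e1 : aeval z f = eval₂ ι z (f.map (Int.castRingHom ℤ_[q])) := by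
      rw [eval₂_map, aeval_def]
      congr 1
    rw [e1, hfa, eval₂_mul, mul_eq_zero, eval₂_sub, eval₂_X, eval₂_C, sub_eq_zero]
  obtain ⟨α0, hα0, hα0'⟩ := exists_root_lift e f hf (ι a) ((hroots _).2 (Or.inl rfl))
  have hirrq : Irreducible (h1.map (algebraMap ℤ_[q] ℚ_[q])) :=
    (hm1.irreducible_iff_irreducible_map_fraction_map).1 hi1
  -- the stabilizer
  have step : ∀ β β' : QQ, aeval β f = 0 → aeval β' f = 0 → β ≠ α0 → β' ≠ α0 →
      ∃ σ : QQ ≃ₐ[ℚ] QQ, σ α0 = α0 ∧ σ β = β' := by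
    intro β β' hβ hβ' h2 h3
    have key : ∀ z : QQ, aeval z f = 0 → z ≠ α0 →
        h1.map (algebraMap ℤ_[q] ℚ_[q]) = minpoly ℚ_[q] (e z) := by
      intro z hz hz'
      refine minpoly.eq_of_irreducible_of_monic hirrq ?_ (hm1.map _)
      have h4 : aeval (e z) f = 0 := by
        have h5 := congrArg e hz
        rw [map_zero] at h5
        rw [← h5]
        exact (aeval_algHom_apply (e.restrictScalars ℤ) z f)
      rcases (hroots _).1 h4 with h5 | h5
      · exfalso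
        apply hz'
        apply e.injective
        exact h5.trans hα0.symm
      · rw [aeval_def, eval₂_map]
        exact h5
    obtain ⟨τ, hτ⟩ := (Normal.minpoly_eq_iff_mem_orbit (PadicAlgCl q)).mp
      ((key β' hβ' h3).symm.trans (key β hβ h2))
    have hτ' : τ (e β) = e β' := hτ
    obtain ⟨σ, hσ⟩ := exists_lift_aux e (((τ : PadicAlgCl q ≃ₐ[ℚ_[q]] PadicAlgCl q) :
      PadicAlgCl q →+* PadicAlgCl q).toRatAlgHom.comp e)
    have hσ' : ∀ x, τ (e x) = e (σ x) := hσ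
    refine ⟨σ, ?_, ?_⟩
    · apply e.injective
      change e (σ α0) = e α0
      rw [← hσ', hα0]
      exact τ.commutes _
    · apply e.injective
      change e (σ β) = e β'
      rw [← hσ', hτ']
  obtain ⟨σ1, h1'⟩ := transitive_of_irreducible f hf hirr α α0 hα hα0'
  obtain ⟨σ2, h2'⟩ := transitive_of_irreducible f hf hirr α' α0 hα' hα0'
  have hr : ∀ (σ : QQ ≃ₐ[ℚ] QQ) (z : QQ), aeval z f = 0 → aeval (σ z) f = 0 := by
    intro σ z hz
    have h5 := congrArg σ hz
    rw [map_zero] at h5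
    rw [← h5]
    exact (aeval_algHom_apply ((σ : QQ →ₐ[ℚ] QQ).restrictScalars ℤ) z f)
  obtain ⟨σ3, h3, h4⟩ := step (σ1 β) (σ2 β') (hr _ _ hβ) (hr _ _ hβ')
    (fun h5 => hne (σ1.injective (h1'.trans h5.symm)))
    (fun h5 => hne' (σ2.injective (h2'.trans h5.symm)))
  refine ⟨σ2.symm.trans (AlgEquiv.refl) |> fun s => (σ1.trans σ3).trans s, ?_, ?_⟩
  · change σ2.symm (σ3 (σ1 α)) = α'
    rw [h1', h3, ← h2', AlgEquiv.symm_apply_apply]
  · change σ2.symm (σ3 (σ1 β)) = β'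
    rw [h4, AlgEquiv.symm_apply_apply]

end

end Pool.Agent.H21.NP
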