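import Pool.Agent.H21.TC.Defs

/-!
# Newton polygons: definitions
-/

set_option autoImplicit false

universe u

namespace Pool.Agent.H21.NP

open Pool.Agent.H21.TC NumberField

/-- Let `q = p ^ a`. The slopes of `π` are the numbers `s j` and `1 - s j`: the `p`-adic absolute
values of the conjugates of `π`, with multiplicities, are the numbers `q ^ (- s j)` and
`q ^ (- (1 - s j))`. (The number of the embeddings of `F` in the algebraic closure of the field of
`p`-adic numbers is the degree of `F`, so the degree of `F` is `2 g`.) -/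
def HasSlopes (p a : ℕ) [Fact p.Prime] {F : Type} [Field F] [NumberField F] (π : F) {g : ℕ}
    (s : Fin g → ℚ) : Prop :=
  (Finset.univ : Finset (F →+* PadicAlgCl p)).val.map (fun φ => ‖φ π‖) =
    ∑ j, {((p : ℝ) ^ a) ^ (-(s j : ℝ)), ((p : ℝ) ^ a) ^ (-(1 - s j : ℝ))}

/-- All Weil `p ^ a`-numbers with the slopes `s j` and `1 - s j` (for all `a`) that generate a CM
field together with each of their powers have only Lefschetz classes, on all powers. -/
def Rigid (Ω : Type u) [Field Ω] (p : ℕ) [Fact p.Prime] {g : ℕ} (s : Fin g → ℚ) : Prop :=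
  ∀ (F : Type) [Field F] [NumberField F] [IsCMField F] (a : ℕ) (π : F), 0 < a →
    IsWeilNumber (p ^ a) π → (∀ n : ℕ, 0 < n → IntermediateField.adjoin ℚ {π ^ n} = ⊤) →
    HasSlopes p a π s → OnlyLefschetzOnPowers Ω (p ^ a) π

/-- A signed sum of the differences `1 - 2 s j` of the two slopes in a pair is zero. -/
def ZeroSum {g : ℕ} (s : Fin g → ℚ) : Prop :=
  ∃ ε : Fin g → ℤˣ, ∑ j, ((ε j : ℤ) : ℚ) * (1 - 2 * s j) = 0

/-- There are four pairs of slopes, and the differences `m j = 1 - 2 s j` satisfy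
`m i ^ 2 + m j ^ 2 = m k ^ 2 + m l ^ 2`, where `i`, `j`, `k`, `l` are the four indices in some
order. -/
def SquareRel {g : ℕ} (s : Fin g → ℚ) : Prop :=
  ∃ e : Fin 4 ≃ Fin g, (1 - 2 * s (e 0)) ^ 2 + (1 - 2 * s (e 1)) ^ 2 =
    (1 - 2 * s (e 2)) ^ 2 + (1 - 2 * s (e 3)) ^ 2

end Pool.Agent.H21.NP
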