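import Pool.Agent.H21.NP.Low

/-!
# Multisets of absolute values
-/

set_option autoImplicit false
set_option linter.unusedSectionVars false

namespace Pool.Agent.H21.NP

variable {X : Type*} [Fintype X]

theorem map_tr {bar : X → X} (hbar : ∀ x, bar (bar x) = x) {O : Finset X} (hO : IsTr bar O)
    {A : Type*} (F : X → A) (hF : ∀ x, F (bar x) = F x) :
    (Finset.univ : Finset X).val.map F = 2 • O.val.map F := by
  classical
  have h1 : (Finset.univ : Finset X) = O.disjUnion (O.map ⟨bar, fun a b h => by
      rw [← hbar a, h, hbar]⟩) (by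
      rw [Finset.disjoint_left]
      intro x hx hx'
      obtain ⟨z, hz, rfl⟩ := Finset.mem_map.1 hx'
      exact (hO z).1 hz hx) := by
    ext x
    simp only [Finset.mem_univ, Finset.disjUnion_eq_union, Finset.mem_union, Finset.mem_map,
      Function.Embedding.coeFn_mk, true_iff]
    by_cases hx : x ∈ O
    · exact Or.inl hx
    · right
      refine ⟨bar x, ?_, hbar x⟩
      rw [hO, hbar]
      exact hx
  rw [h1, Finset.disjUnion_val, Multiset.map_add, Finset.map_val, Multiset.map_map, two_nsmul]
  congr 1
  refine Multiset.map_congr rfl fun x _ => ?_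
  exact hF x

theorem nsmul_inj {A : Type*} {s t : Multiset A} (h : 2 • s = 2 • t) : s = t := by
  classical
  ext x
  have h1 := congrArg (Multiset.count x) h
  rw [Multiset.count_nsmul, Multiset.count_nsmul] at h1
  omega

/-- Functions with the same multiset of values. -/
theorem exists_equiv {Y Z A : Type*} [Fintype Y] [Fintype Z] (f : Y → A) (h : Z → A)
    (hfh : (Finset.univ : Finset Y).val.map f = (Finset.univ : Finset Z).val.map h) :
    ∃ e : Y ≃ Z, ∀ y, h (e y) = f y := by
  classical
  have h1 : ∀ a : A, Fintype.card {y // f y = a} = Fintype.card {z // h z = a} := by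
    intro a
    have h2 := congrArg (Multiset.count a) hfh
    rw [Multiset.count_map, Multiset.count_map] at h2
    rw [Fintype.card_subtype, Fintype.card_subtype]
    have h3 : (Finset.univ.filter fun y => f y = a).card =
        Multiset.card ((Finset.univ : Finset Y).val.filter fun y => a = f y) := by
      rw [← Finset.filter_val, Finset.card_val]
      congr 1
      ext y
      simp only [Finset.mem_filter, eq_comm]
    have h4 : (Finset.univ.filter fun y => h y = a).card =
        Multiset.card ((Finset.univ : Finset Z).val.filter fun y => a = h y) := by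
      rw [← Finset.filter_val, Finset.card_val]
      congr 1
      ext y
      simp only [Finset.mem_filter, eq_comm]
    rw [h3, h4]
    exact h2
  let e : ∀ a : A, {y // f y = a} ≃ {z // h z = a} := fun a => (Fintype.card_eq.1 (h1 a)).some
  let E : Y ≃ Z := (Equiv.sigmaFiberEquiv f).symm.trans
    ((Equiv.sigmaCongrRight e).trans (Equiv.sigmaFiberEquiv h))
  refine ⟨E, fun y => ?_⟩
  exact (e (f y) ⟨y, rfl⟩).2

/-- From a set of representatives to an enumeration. -/
theorem exists_enum {bar : X → X} (hbar : ∀ x, bar (bar x) = x) {w : X → ℚ}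
    (hw : ∀ x, w (bar x) = - w x) {g : ℕ} (m : Fin g → ℚ)
    (hm : (Finset.univ : Finset X).val.map (fun x => |w x|) =
      2 • (Finset.univ : Finset (Fin g)).val.map (fun j => |m j|))
    {O : Finset X} (hO : IsTr bar O) :
    ∃ e : Fin g ≃ O, ∀ j, w (e j) = m j ∨ w (e j) = - m j := by
  classical
  rw [map_tr hbar hO (fun x => |w x|) (fun x => by rw [hw, abs_neg])] at hm
  have h1 := nsmul_inj hm
  obtain ⟨e, he⟩ := exists_equiv (Y := Fin g) (Z := O) (fun j => |m j|) (fun x => |w x|) (by
    rw [← h1]
    have h2 : (Finset.univ : Finset O).val.map (fun x : O => |w x|) =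
        ((Finset.univ : Finset O).val.map (fun x : O => (x : X))).map (fun x => |w x|) := by
      rw [Multiset.map_map]
      rfl
    rw [h2]
    congr 1
    have h3 := Finset.attach_map_val (s := O)
    have h4 : (Finset.univ : Finset O) = O.attach := rfl
    rw [h4]
    conv_lhs => rw [← h3]
    rfl)
  exact ⟨e, fun j => abs_eq_abs.1 (he j)⟩

end Pool.Agent.H21.NP
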