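import Pool.Agent.H21.NP.Defs
import Pool.Agent.H21.NP.Mul
import Pool.Agent.H21.NP.Prime
import Pool.Agent.H21.TC.GMain

/-!
# Newton polygons for which all Tate classes are Lefschetz classes
-/

set_option autoImplicit false
set_option linter.unusedSectionVars false

universe u

namespace Pool.Agent.H21.NP

open NumberField Module Pool.Agent.H925R2 Pool.Agent.H485R3 Pool.Agent.H204R3.CM
  Pool.Agent.H868R3.TwoOdd Pool.Agent.H194R3.CM Pool.Agent.H194R3.Tate Pool.Agent.Helper33Dom
  Pool.Agent.H21.TC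

section

variable {F : Type} [Field F] [NumberField F] [IsCMField F]
  {L : Type*} [Field L] [NumberField L] [IsGalois ℚ L] (p : ℕ) [Fact p.Prime]

theorem log_p (a : ℕ) : Real.log ‖(p : PadicAlgCl p) ^ a‖ = - (a * Real.log p) := by
  have h1 : ‖(p : PadicAlgCl p)‖ = (p : ℝ)⁻¹ := by
    have h2 : ((p : ℚ_[p]) : PadicAlgCl p) = (p : PadicAlgCl p) := by push_cast; rfl
    rw [← h2, PadicAlgCl.norm_extends, Padic.norm_p]
  rw [norm_pow, Real.log_pow, h1, Real.log_inv]
  ring

/-- Coincidences of the slopes. -/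
theorem eq_of_sameClass (e : L →ₐ[ℚ] PadicAlgCl p) (a : ℕ) (π : F) (hW : IsWeilNumber (p ^ a) π)
    (hgen : ∀ n : ℕ, 0 < n → IntermediateField.adjoin ℚ {π ^ n} = ⊤) (x y : F →+* L)
    (h : SameClass (uvec p e a π) x y) : x = y := by
  classical
  have hweil : ∀ φ : F →+* ℂ, ‖φ π‖ ^ 2 = (((p : ℚ) ^ a : ℚ) : ℝ) := by
    intro φ
    rw [hW.2 φ]
    push_cast
    rfl
  have hp : p.Prime := Fact.out
  have hq : (0 : ℚ) < (p : ℚ) ^ a := pow_pos (by exact_mod_cast hp.pos) _
  have hub := uvec_cbar (L := L) p e a π hweil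
  have hf : ∀ g : L ≃ₐ[ℚ] L, ∑ z : F →+* L,
      (((if z = x then 1 else 0) + (if z = cbar y then 1 else 0) : ℕ) : ℝ) *
      uvec p e a π (g • z) = 0 := by
    intro g
    have h1 : ∀ z : F →+* L, (((if z = x then 1 else 0) + (if z = cbar y then 1 else 0) : ℕ) : ℝ) *
        uvec p e a π (g • z) = (if z = x then uvec p e a π (g • z) else 0) +
          (if z = cbar y then uvec p e a π (g • z) else 0) := by
      intro z
      push_cast
      split_ifs <;> ring
    rw [Finset.sum_congr rfl fun z _ => h1 z, Finset.sum_add_distrib, Finset.sum_ite_eq',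
      Finset.sum_ite_eq', if_pos (Finset.mem_univ _), if_pos (Finset.mem_univ _), h g,
      smul_cbar', hub]
    ring
  obtain ⟨t, ht, hrel⟩ := prod_pow_eq p e a π hW.1 hweil _ hf
  have h2 : ∏ z : F →+* L, z π ^ ((if z = x then 1 else 0) + (if z = cbar y then 1 else 0)) =
      x π * cbar y π := by
    have h3 : ∀ z : F →+* L, z π ^ ((if z = x then 1 else 0) + (if z = cbar y then 1 else 0)) =
        (if z = x then z π else 1) * (if z = cbar y then z π else 1) := by
      intro z
      rw [pow_add]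
      split_ifs <;> simp
    rw [Finset.prod_congr rfl fun z _ => h3 z, Finset.prod_mul_distrib, Finset.prod_ite_eq',
      Finset.prod_ite_eq', if_pos (Finset.mem_univ _), if_pos (Finset.mem_univ _)]
  have h3 : ∑ z : F →+* L, ((if z = x then 1 else 0) + (if z = cbar y then 1 else 0)) = 2 := by
    rw [Finset.sum_add_distrib, Finset.sum_ite_eq', Finset.sum_ite_eq',
      if_pos (Finset.mem_univ _), if_pos (Finset.mem_univ _)]
  rw [h2, h3] at hrel
  have hπ0 : π ≠ 0 := weil_ne hq hweil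
  have hy0 : y π ≠ 0 := (map_ne_zero y).2 hπ0
  have hp0 : (p : L) ≠ 0 := by exact_mod_cast hp.ne_zero
  have h4 : cbar y π = (p : L) ^ a / y π := by
    rw [weil_cbar hq hweil]
    push_cast
    rfl
  rw [h4] at hrel
  have h5 : (x π) ^ (2 * t) = (y π) ^ (2 * t) := by
    have h6 : (x π * ((p : L) ^ a / y π)) ^ (2 * t) * (y π) ^ (2 * t) =
        ((p : L) ^ a) ^ (2 * t) * (x π) ^ (2 * t) := by
      rw [← mul_pow, ← mul_pow]
      congr 1
      field_simp
    rw [hrel] at h6
    exact (mul_left_cancel₀ (pow_ne_zero _ (pow_ne_zero _ hp0)) h6).symm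
  have h6 := hgen (2 * t) (by omega)
  have h7 : x.toRatAlgHom.comp (IntermediateField.adjoin ℚ {π ^ (2 * t)}).val =
      y.toRatAlgHom.comp (IntermediateField.adjoin ℚ {π ^ (2 * t)}).val := by
    refine IntermediateField.adjoin_algHom_ext ℚ ?_
    rintro _ rfl
    change x (π ^ (2 * t)) = y (π ^ (2 * t))
    rw [map_pow, map_pow, h5]
  ext b
  have h8 : b ∈ IntermediateField.adjoin ℚ {π ^ (2 * t)} := by
    rw [h6]
    trivial
  exact AlgHom.congr_fun h7 ⟨b, h8⟩

/-- The rational weights. -/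
theorem exists_weights (j : L →+* ℂ) (h : ∀ ψ : F →+* ℂ, ∃ φ : F →+* L, j.comp φ = ψ)
    (e : L →ₐ[ℚ] PadicAlgCl p) (a : ℕ) (ha : 0 < a) (π : F) {g : ℕ} (s : Fin g → ℚ)
    (hs : HasSlopes p a π s) :
    ∃ w : (F →+* L) → ℚ, (∀ x, uvec p e a π x = (w x : ℝ) * (a * Real.log p)) ∧
      (Finset.univ : Finset (F →+* L)).val.map (fun x => |w x|) =
        2 • (Finset.univ : Finset (Fin g)).val.map (fun j => |1 - 2 * s j|) ∧
      Fintype.card (F →+* L) = 2 * g := by
  classical
  have hp : p.Prime := Fact.out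
  have hp1 : (1 : ℝ) < p := by exact_mod_cast hp.one_lt
  have hlog : 0 < Real.log p := Real.log_pos hp1
  have ha' : (0 : ℝ) < a := by exact_mod_cast ha
  have hk : (0 : ℝ) < a * Real.log p := mul_pos ha' hlog
  have hqpos : (0 : ℝ) < (p : ℝ) ^ a := by positivity
  -- embeddings
  have hinj : Function.Injective (fun x : F →+* L => (e : L →+* PadicAlgCl p).comp x) := by
    intro x y hxy
    ext b
    exact (e : L →+* PadicAlgCl p).injective (RingHom.congr_fun hxy b)
  let E : (F →+* L) ≃ (F →+* PadicAlgCl p) := Equiv.ofBijective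
    (fun x : F →+* L => (e : L →+* PadicAlgCl p).comp x)
    ⟨hinj, fun τ => exists_lift j h e τ⟩
  have hEmap : (Finset.univ : Finset (F →+* L)).val.map (fun x => ‖e (x π)‖) =
      ∑ j, {((p : ℝ) ^ a) ^ (-(s j : ℝ)), ((p : ℝ) ^ a) ^ (-(1 - s j : ℝ))} := by
    rw [← hs]
    have h1 : (Finset.univ : Finset (F →+* PadicAlgCl p)) = Finset.univ.map E.toEmbedding :=
      (Finset.map_univ_equiv E).symm
    rw [h1, Finset.map_val, Multiset.map_map]
    rfl
  have hval : ∀ x : F →+* L, ∃ i : Fin g, ‖e (x π)‖ = ((p : ℝ) ^ a) ^ (-(s i : ℝ)) ∨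
      ‖e (x π)‖ = ((p : ℝ) ^ a) ^ (-(1 - s i : ℝ)) := by
    intro x
    have h1 : ‖e (x π)‖ ∈ (Finset.univ : Finset (F →+* L)).val.map (fun x => ‖e (x π)‖) :=
      Multiset.mem_map_of_mem _ (Finset.mem_univ x)
    rw [hEmap, Multiset.mem_sum] at h1
    obtain ⟨i, -, hi⟩ := h1
    rw [Multiset.insert_eq_cons, Multiset.mem_cons, Multiset.mem_singleton] at hi
    exact ⟨i, hi⟩
  have hu : ∀ x : F →+* L, uvec p e a π x = 2 * Real.log ‖e (x π)‖ + a * Real.log p := by
    intro x
    rw [uvec_eq, log_p]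
    ring
  have hlq : Real.log ((p : ℝ) ^ a) = a * Real.log p := Real.log_pow _ _
  have hw : ∀ x : F →+* L, ∃ r : ℚ, uvec p e a π x = (r : ℝ) * (a * Real.log p) := by
    intro x
    obtain ⟨i, hi | hi⟩ := hval x
    · refine ⟨1 - 2 * s i, ?_⟩
      rw [hu, hi, Real.log_rpow hqpos, hlq]
      push_cast
      ring
    · refine ⟨-(1 - 2 * s i), ?_⟩
      rw [hu, hi, Real.log_rpow hqpos, hlq]
      push_cast
      ring
  choose w hw using hw
  refine ⟨w, hw, ?_, ?_⟩
  · -- the multiset of absolute values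
    let Ψ : ℝ → ℝ := fun v => |2 * Real.log v + a * Real.log p| / (a * Real.log p)
    have h1 : ∀ x, ((|w x| : ℚ) : ℝ) = Ψ ‖e (x π)‖ := by
      intro x
      simp only [Ψ]
      rw [← hu, hw, abs_mul, abs_of_pos hk, mul_div_cancel_right₀ _ hk.ne', Rat.cast_abs]
    have h2 : ∀ i : Fin g, Ψ (((p : ℝ) ^ a) ^ (-(s i : ℝ))) = ((|1 - 2 * s i| : ℚ) : ℝ) := by
      intro i
      simp only [Ψ]
      rw [Real.log_rpow hqpos, hlq]
      have h3 : 2 * (-(s i : ℝ) * (a * Real.log p)) + a * Real.log p =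
          ((1 - 2 * s i : ℚ) : ℝ) * (a * Real.log p) := by
        push_cast
        ring
      rw [h3, abs_mul, abs_of_pos hk, mul_div_cancel_right₀ _ hk.ne', Rat.cast_abs]
    have h2' : ∀ i : Fin g, Ψ (((p : ℝ) ^ a) ^ (-(1 - s i : ℝ))) = ((|1 - 2 * s i| : ℚ) : ℝ) := by
      intro i
      simp only [Ψ]
      rw [Real.log_rpow hqpos, hlq]
      have h3 : 2 * (-(1 - s i : ℝ) * (a * Real.log p)) + a * Real.log p =
          -(((1 - 2 * s i : ℚ) : ℝ) * (a * Real.log p)) := by
        push_cast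
        ring
      rw [h3, abs_neg, abs_mul, abs_of_pos hk, mul_div_cancel_right₀ _ hk.ne', Rat.cast_abs]
    have hinjc : Function.Injective (fun r : ℚ => (r : ℝ)) := Rat.cast_injective
    apply Multiset.map_injective hinjc
    rw [Multiset.map_map]
    have h3 : (Finset.univ : Finset (F →+* L)).val.map ((fun r : ℚ => (r : ℝ)) ∘ fun x => |w x|) =
        ((Finset.univ : Finset (F →+* L)).val.map (fun x => ‖e (x π)‖)).map Ψ := by
      rw [Multiset.map_map]
      exact Multiset.map_congr rfl fun x _ => h1 x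
    rw [h3, hEmap, Multiset.map_nsmul, Multiset.map_map]
    have h4 : ∀ S : Finset (Fin g), (∑ j ∈ S, ({((p : ℝ) ^ a) ^ (-(s j : ℝ)),
        ((p : ℝ) ^ a) ^ (-(1 - s j : ℝ))} : Multiset ℝ)).map Ψ =
        2 • S.val.map ((fun r : ℚ => (r : ℝ)) ∘ fun j => |1 - 2 * s j|) := by
      intro S
      induction S using Finset.induction_on with
      | empty => simp
      | insert i S hi ih =>
        rw [Finset.sum_insert hi, Multiset.map_add, ih, Finset.insert_val_of_notMem hi,
          Multiset.map_cons, Multiset.insert_eq_cons, Multiset.map_cons, Multiset.map_singleton,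
          h2, h2']
        simp only [two_nsmul, Function.comp_apply, Multiset.cons_add, Multiset.singleton_add,
          Multiset.add_cons]
    exact h4 Finset.univ
  · have h1 := congrArg Multiset.card hEmap
    rw [Multiset.card_map, Multiset.card_sum, Finset.card_val, Finset.card_univ] at h1
    rw [h1]
    simp [mul_comm]

/-- Sufficiency. -/
theorem onlyLefschetz_of_cond (Ω : Type u) [Field Ω] [IsAlgClosed Ω] [CharZero Ω] (a : ℕ)
    (ha : 0 < a) (π : F) (hW : IsWeilNumber (p ^ a) π)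
    (hgen : ∀ n : ℕ, 0 < n → IntermediateField.adjoin ℚ {π ^ n} = ⊤) {g : ℕ} (s : Fin g → ℚ)
    (hs : HasSlopes p a π s) (hg : g.Prime ∨ g ≤ 4)
    (hcond : (∀ j, s j = 1 / 2) ∨ g ≤ 2 ∨ (¬ ZeroSum s ∧ ¬ SquareRel s)) :
    OnlyLefschetz Ω (p ^ a) π := by
  classical
  obtain ⟨L, _, _, j, h⟩ := exists_galois (fun _ : Unit => F)
  replace h := h ()
  let e : L →ₐ[ℚ] PadicAlgCl p := IsAlgClosed.lift
  refine (criterion p j h e a π hW Ω).1 ?_
  have hp : p.Prime := Fact.out
  have hp1 : (1 : ℝ) < p := by exact_mod_cast hp.one_lt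
  have hlog : 0 < Real.log p := Real.log_pos hp1
  have ha' : (0 : ℝ) < a := by exact_mod_cast ha
  have hk : (a : ℝ) * Real.log p ≠ 0 := (mul_pos ha' hlog).ne'
  have hweil : ∀ φ : F →+* ℂ, ‖φ π‖ ^ 2 = (((p : ℚ) ^ a : ℚ) : ℝ) := by
    intro φ
    rw [hW.2 φ]
    push_cast
    rfl
  obtain ⟨w, hw, hm, hcard⟩ := exists_weights p j h e a ha π s hs
  let X := F →+* L
  have hwodd : ∀ x : X, w (cbar x) = - w x := by
    intro x
    have h1 := uvec_cbar p e a π hweil x
    rw [hw, hw, ← neg_mul] at h1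
    exact_mod_cast mul_right_cancel₀ hk h1
  let P : Subgroup (Equiv.Perm X) := (MulAction.toPermHom (L ≃ₐ[ℚ] L) X).range
  have hcomm : ∀ σ ∈ P, ∀ x : X, σ (cbar x) = cbar (σ x) := by
    rintro _ ⟨g, rfl⟩ x
    exact smul_cbar' g x
  have htr : ∀ x y : X, ∃ σ ∈ P, σ x = y := by
    intro x y
    obtain ⟨g, rfl⟩ := MulAction.exists_smul_eq (L ≃ₐ[ℚ] L) x y
    exact ⟨_, ⟨g, rfl⟩, rfl⟩
  have hnc : ∀ x y : X, (∀ σ ∈ P, w (σ x) = w (σ y)) → x = y := by
    intro x y hxy
    refine eq_of_sameClass p e a π hW hgen x y fun g => ?_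
    rw [hw, hw]
    have h1 := hxy _ ⟨g, rfl⟩
    have h2 : w (g • x) = w (g • y) := h1
    rw [h2]
  have hcb : ∀ x : X, cbar x ≠ x := by
    intro x hx
    have h1 : ∀ y : X, cbar y = y := by
      intro y
      obtain ⟨g, rfl⟩ := MulAction.exists_smul_eq (L ≃ₐ[ℚ] L) x y
      rw [← smul_cbar', hx]
    obtain ⟨b, hb⟩ : ∃ b, IsCMField.complexConj F b ≠ b := by
      by_contra hno
      push Not at hno
      apply IsCMField.complexConj_ne_one F
      ext a
      exact hno a
    exact hb (x.injective (RingHom.congr_fun (h1 x) b))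
  have hw0 : w ≠ 0 := by
    intro h0
    obtain ⟨φ₀⟩ : Nonempty (F →+* ℂ) := inferInstance
    obtain ⟨x, -⟩ := h φ₀
    apply hcb x
    apply hnc
    intro σ _
    rw [h0]
    rfl
  intro c hc hrel x₀
  have hcls : Finset.univ.filter (fun y => SameClass (uvec p e a π) y x₀) = {x₀} := by
    ext y
    rw [Finset.mem_filter, Finset.mem_singleton]
    constructor
    · rintro ⟨-, h2⟩
      exact eq_of_sameClass p e a π hW hgen y x₀ h2
    · rintro rfl
      exact ⟨Finset.mem_univ _, fun g => rfl⟩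
  rw [hcls, Finset.sum_singleton]
  by_contra hcx
  have hcr : (fun x => (c x : ℚ)) ∈ RelS P (cbar : X → X) w := by
    refine ⟨fun x => ?_, ?_⟩
    · simp only [hc]
      push_cast
      rfl
    · rintro _ ⟨g, rfl⟩
      have h1 := hrel g
      have h2 : ∑ x : X, (c x : ℝ) * uvec p e a π (g • x) =
          ((∑ x : X, (c x : ℚ) * w (g • x) : ℚ) : ℝ) * (a * Real.log p) := by
        push_cast
        rw [Finset.sum_mul]
        refine Finset.sum_congr rfl fun x _ => ?_
        rw [hw]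
        ring
      rw [h2] at h1
      exact_mod_cast (mul_eq_zero.1 h1).resolve_right hk
  have hc0 : (fun x => (c x : ℚ)) ≠ 0 := by
    intro h0
    apply hcx
    have h1 : (c x₀ : ℚ) = 0 := congrFun h0 x₀
    exact_mod_cast h1
  obtain ⟨h3, hcase⟩ := dichotomy cbar_cbar hcb hcomm htr hwodd hw0 hg hcard hnc hcr hc0
  rcases hcond with hcond | hcond | hcond
  · -- supersingular
    apply hw0
    have h4 : ∀ r ∈ (Finset.univ : Finset X).val.map (fun x => |w x|), r = 0 := by
      intro r hr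
      rw [hm, Multiset.mem_nsmul, Multiset.mem_map] at hr
      obtain ⟨-, i, -, rfl⟩ := hr
      rw [hcond]
      norm_num
    funext x
    exact abs_eq_zero.1 (h4 _ (Multiset.mem_map_of_mem _ (Finset.mem_univ x)))
  · omega
  · rcases hcase with ⟨O, hO, hsum⟩ | ⟨O, hO, e', he'⟩
    · apply hcond.1
      obtain ⟨b, hb⟩ := exists_enum cbar_cbar hwodd (fun j => 1 - 2 * s j) hm hO
      refine ⟨fun i => if w (b i) = 1 - 2 * s i then 1 else -1, ?_⟩
      rw [← hsum, ← Finset.sum_coe_sort O w, ← Equiv.sum_comp b]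
      refine Finset.sum_congr rfl fun i _ => ?_
      by_cases h4 : w (b i) = 1 - 2 * s i
      · simp only [if_pos h4]
        rw [h4]
        simp
      · simp only [if_neg h4]
        rw [(hb i).resolve_left h4]
        simp
    · apply hcond.2
      obtain ⟨b, hb⟩ := exists_enum cbar_cbar hwodd (fun j => 1 - 2 * s j) hm hO
      refine ⟨e'.trans b.symm, ?_⟩
      have h4 : ∀ i : Fin 4, (1 - 2 * s ((e'.trans b.symm) i)) ^ 2 = w (e' i) ^ 2 := by
        intro i
        have h5 := hb ((e'.trans b.symm) i)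
        rw [Equiv.trans_apply, Equiv.apply_symm_apply] at h5
        rw [Equiv.trans_apply]
        rcases h5 with h5 | h5
        · rw [h5]
        · rw [h5, neg_sq]
      rw [h4, h4, h4, h4, he']

end

end Pool.Agent.H21.NP
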