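import Pool.Agent.H21.NP.Ex

/-!
# Weil numbers with given slopes and exotic classes: the statement with complex embeddings
-/

set_option autoImplicit false
set_option linter.unusedSectionVars false

universe u

namespace Pool.Agent.H21.NP

open NumberField Module Pool.Agent.H925R2 Pool.Agent.H485R3 Pool.Agent.H204R3.CM
  Pool.Agent.H868R3.TwoOdd Pool.Agent.H194R3.CM Pool.Agent.H194R3.Tate Pool.Agent.Helper33Dom
  Pool.Agent.H21.TC

theorem norm_p_pow (p : ℕ) [Fact p.Prime] (a : ℕ) :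
    Real.log ‖(p : PadicAlgCl p) ^ a‖ = - (a * Real.log p) := by
  have h1 : ‖(p : PadicAlgCl p)‖ = (p : ℝ)⁻¹ := by
    have h2 : ((p : ℚ_[p]) : PadicAlgCl p) = (p : PadicAlgCl p) := by push_cast; rfl
    rw [← h2, PadicAlgCl.norm_extends, Padic.norm_p]
  rw [norm_pow, Real.log_pow, h1, Real.log_inv]
  ring

theorem exotic (Ω : Type u) [Field Ω] [IsAlgClosed Ω] [CharZero Ω] (p : ℕ) [Fact p.Prime]
    (F : Type) [Field F] [NumberField F] [IsCMField F]
    (hs : Nat.card (F →+* ℚ_[p]) = finrank ℚ F) (w : (F →+* ℂ) → ℤ)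
    (hw : ∀ x, w (ComplexEmbedding.conjugate x) = - w x) (M : ℕ) (hM : 0 < M)
    (hwM : ∀ x, |w x| ≤ M) (htriv : ∀ x y, (∀ σ ∈ PC F, w (σ x) = w (σ y)) → x = y)
    (c : (F →+* ℂ) → ℤ) (hc : ∀ x, c (ComplexEmbedding.conjugate x) = - c x)
    (hrel : ∀ σ ∈ PC F, ∑ x, c x * w (σ x) = 0) (x₀ : F →+* ℂ) (hx₀ : c x₀ ≠ 0) :
    ∃ (a : ℕ) (π : F), 0 < a ∧ IsWeilNumber (p ^ a) π ∧
      (∀ n : ℕ, 0 < n → IntermediateField.adjoin ℚ {π ^ n} = ⊤) ∧
      (Finset.univ : Finset (F →+* PadicAlgCl p)).val.map (fun φ => ‖φ π‖) =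
        (Finset.univ : Finset (F →+* ℂ)).val.map
          (fun x => ((p : ℝ) ^ a) ^ (-((1 + w x / M) / 2 : ℝ))) ∧
      ¬ OnlyLefschetzOnPowers Ω (p ^ a) π := by
  classical
  obtain ⟨L, _, _, j, h, ⟨y₀⟩⟩ := exists_galois_split F p hs
  let e : L →ₐ[ℚ] PadicAlgCl p := IsAlgClosed.lift
  obtain ⟨a, π, ha, hπ, hu⟩ := exists_weil_exact p j h e y₀
    (fun x => w (embE j h x)) (fun x => by
      change w (embE j h (cbar x)) = _
      rw [embE_cbar, hw]) M hM (fun x => hwM _)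
  have hp : p.Prime := Fact.out
  have hp1 : (1 : ℝ) < p := by exact_mod_cast hp.one_lt
  have hlog : 0 < Real.log p := Real.log_pos hp1
  have ha' : (0 : ℝ) < a := by exact_mod_cast ha
  have hM' : (M : ℝ) ≠ 0 := by exact_mod_cast hM.ne'
  have hlq : Real.log ‖(p : PadicAlgCl p) ^ a‖ = - (a * Real.log p) := norm_p_pow p a
  have hκ : Real.log ‖(p : PadicAlgCl p) ^ a‖ / M ≠ 0 := by
    apply div_ne_zero _ hM'
    rw [hlq]
    exact neg_ne_zero.2 (mul_pos ha' hlog).ne'
  have hu' : ∀ x, uvec p e a π x = (Real.log ‖(p : PadicAlgCl p) ^ a‖ / M) * w (embE j h x) := by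
    intro x
    rw [hu]
    ring
  have hgen : ∀ n : ℕ, 0 < n → IntermediateField.adjoin ℚ {π ^ n} = ⊤ := by
    intro n hn
    have hsp : ∀ x : F, ((minpoly ℚ x).map (algebraMap ℚ ℂ)).Splits := fun x =>
      IsAlgClosed.splits _
    rw [Field.primitive_element_iff_algHom_eq_of_eval' ℚ ℂ hsp]
    intro φ ψ hφψ
    obtain ⟨x, hx⟩ := h (φ : F →+* ℂ)
    obtain ⟨y, hy⟩ := h (ψ : F →+* ℂ)
    have h1 : x (π ^ n) = y (π ^ n) := by
      apply j.injective
      have e1 := RingHom.congr_fun hx (π ^ n)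
      have e2 := RingHom.congr_fun hy (π ^ n)
      exact e1.trans (hφψ.trans e2.symm)
    have h2 : ∀ g : L ≃ₐ[ℚ] L, w (embE j h (g • x)) = w (embE j h (g • y)) := by
      intro g
      have h4 : ‖e (g (x π))‖ ^ n = ‖e (g (y π))‖ ^ n := by
        rw [← norm_pow, ← norm_pow, ← map_pow, ← map_pow, ← map_pow, ← map_pow, ← map_pow,
          ← map_pow, h1]
      have h5 : ‖e (g (x π))‖ = ‖e (g (y π))‖ :=
        (pow_left_inj₀ (norm_nonneg _) (norm_nonneg _) hn.ne').1 h4
      have h6 : uvec p e a π (g • x) = uvec p e a π (g • y) := by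
        rw [uvec_eq, uvec_eq]
        change 2 * Real.log ‖e (g (x π))‖ - _ = 2 * Real.log ‖e (g (y π))‖ - _
        rw [h5]
      rw [hu', hu'] at h6
      exact_mod_cast mul_left_cancel₀ hκ h6
    have h3 : embE j h x = embE j h y := by
      apply htriv
      rintro _ ⟨τ, rfl⟩
      obtain ⟨g, hg⟩ := Pool.Agent.H977R3.CM.exists_gal j τ
      rw [embE_smul j h hg, embE_smul j h hg]
      exact h2 g
    have h4 : x = y := (embE j h).injective h3
    ext b
    have e1 := RingHom.congr_fun hx b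
    have e2 := RingHom.congr_fun hy b
    rw [h4] at e1
    exact e1.symm.trans e2
  refine ⟨a, π, ha, hπ, hgen, ?_, ?_⟩
  · -- slopes
    have hinj : Function.Injective (fun x : F →+* L => (e : L →+* PadicAlgCl p).comp x) := by
      intro x y hxy
      exact RingHom.ext fun b => (e : L →+* PadicAlgCl p).injective (RingHom.congr_fun hxy b)
    let E : (F →+* L) ≃ (F →+* PadicAlgCl p) := Equiv.ofBijective
      (fun x : F →+* L => (e : L →+* PadicAlgCl p).comp x)
      ⟨hinj, fun τ => exists_lift j h e τ⟩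
    have h1 : (Finset.univ : Finset (F →+* PadicAlgCl p)) = Finset.univ.map E.toEmbedding :=
      (Finset.map_univ_equiv E).symm
    have h2 : (Finset.univ : Finset (F →+* ℂ)) = Finset.univ.map (embE j h).toEmbedding :=
      (Finset.map_univ_equiv (embE j h)).symm
    rw [h1, h2, Finset.map_val, Finset.map_val, Multiset.map_map, Multiset.map_map]
    refine Multiset.map_congr rfl fun x _ => ?_
    change ‖e (x π)‖ = ((p : ℝ) ^ a) ^ (-((1 + w (embE j h x) / M) / 2 : ℝ))
    have hq : (0 : ℝ) < p ^ a := by positivity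
    have hx0 : 0 < ‖e (x π)‖ := by
      rw [norm_pos_iff]
      refine (map_ne_zero _).2 ((map_ne_zero _).2 ?_)
      rintro rfl
      obtain ⟨φ⟩ : Nonempty (F →+* ℂ) := inferInstance
      have h3 := hπ.2 φ
      rw [map_zero, norm_zero, zero_pow two_ne_zero] at h3
      have h4 : ((p ^ a : ℕ) : ℝ) ≠ 0 := by
        push_cast
        exact hq.ne'
      exact h4 h3.symm
    apply Real.log_injOn_pos (Set.mem_Ioi.2 hx0) (Set.mem_Ioi.2 (Real.rpow_pos_of_pos hq _))
    rw [Real.log_rpow hq, Real.log_pow]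
    have h3 := hu x
    rw [uvec_eq, hlq] at h3
    linear_combination h3 / 2
  · intro hO
    have hgood := goodW_of_goodSlopes j h w _ _ hκ hu' ((criterion p j h e a π hπ Ω).2 hO)
    have h1 := hgood c hc hrel x₀
    have h2 : Finset.univ.filter (fun y : F →+* ℂ => ∀ σ ∈ PC F, w (σ y) = w (σ x₀)) = {x₀} := by
      ext y
      rw [Finset.mem_filter, Finset.mem_singleton]
      constructor
      · rintro ⟨-, h2⟩
        exact htriv y x₀ h2
      · rintro rfl
        exact ⟨Finset.mem_univ _, fun σ _ => rfl⟩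
    apply hx₀
    rw [← Finset.sum_singleton c x₀, ← h1]
    refine Finset.sum_congr ?_ fun _ _ => rfl
    rw [← h2]

/-- An exotic Weil number with given slopes. -/
theorem not_rigid (Ω : Type u) [Field Ω] [IsAlgClosed Ω] [CharZero Ω] (p : ℕ) [Fact p.Prime]
    (F : Type) [Field F] [NumberField F] [IsCMField F]
    (hs : Nat.card (F →+* ℚ_[p]) = finrank ℚ F) {g : ℕ} (s : Fin g → ℚ)
    (hs01 : ∀ j, 0 ≤ s j ∧ s j ≤ 1) (T : Fin g ⊕ Fin g ≃ (F →+* ℂ))
    (hT : ∀ i, T (Sum.inr i) = ComplexEmbedding.conjugate (T (Sum.inl i))) (ε : Fin g → ℤˣ)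
    (v : (F →+* ℂ) → ℚ) (hv : ∀ i, v (T (Sum.inl i)) = (ε i : ℤ) * (1 - 2 * s i))
    (hvodd : ∀ x, v (ComplexEmbedding.conjugate x) = - v x)
    (htriv : ∀ x y, (∀ σ ∈ PC F, v (σ x) = v (σ y)) → x = y)
    (c : (F →+* ℂ) → ℚ) (hc : ∀ x, c (ComplexEmbedding.conjugate x) = - c x)
    (hrel : ∀ σ ∈ PC F, ∑ x, c x * v (σ x) = 0) (hc0 : c ≠ 0) : ¬ Rigid Ω p s := by
  classical
  -- clear denominators
  obtain ⟨N, w, hN, hw⟩ := clear_denom v
  obtain ⟨M, k, hM, hk⟩ := clear_denom c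
  have hN' : (N : ℚ) ≠ 0 := by exact_mod_cast hN
  have hM' : (M : ℚ) ≠ 0 := by exact_mod_cast hM
  -- make `N` positive
  obtain ⟨N, w, hN0, hw⟩ : ∃ (N : ℕ) (w : (F →+* ℂ) → ℤ), 0 < N ∧ ∀ x, (w x : ℚ) = N * v x := by
    refine ⟨N.natAbs, fun x => N.sign * w x, Int.natAbs_pos.2 hN, fun x => ?_⟩
    push_cast
    rw [hw, ← mul_assoc]
    congr 1
    rw [← Int.cast_mul, Int.sign_mul_self_eq_abs]
    simp
  have hN' : (N : ℚ) ≠ 0 := by exact_mod_cast hN0.ne'
  have hvw : ∀ x y, w x = w y ↔ v x = v y := by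
    intro x y
    constructor
    · intro h
      have h1 : (w x : ℚ) = w y := by rw [h]
      rw [hw, hw] at h1
      exact mul_left_cancel₀ hN' h1
    · intro h
      have h1 : (w x : ℚ) = w y := by rw [hw, hw, h]
      exact_mod_cast h1
  have hwodd : ∀ x, w (ComplexEmbedding.conjugate x) = - w x := by
    intro x
    have h1 : (w (ComplexEmbedding.conjugate x) : ℚ) = - w x := by rw [hw, hw, hvodd]; ring
    exact_mod_cast h1
  have hεs : ∀ i, |((ε i : ℤ) : ℚ) * (1 - 2 * s i)| ≤ 1 := by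
    intro i
    obtain ⟨h1, h2⟩ := hs01 i
    rcases Int.units_eq_one_or (ε i) with h | h
    · rw [h, Units.val_one, Int.cast_one, one_mul, abs_le]
      constructor <;> linarith
    · rw [h, Units.val_neg, Units.val_one, Int.cast_neg, Int.cast_one, neg_one_mul, abs_neg, abs_le]
      constructor <;> linarith
  have hv1 : ∀ x, |v x| ≤ 1 := by
    intro x
    obtain ⟨y, rfl⟩ := T.surjective x
    rcases y with i | i
    · rw [hv]
      exact hεs i
    · rw [hT, hvodd, abs_neg, hv]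
      exact hεs i
  have hwN : ∀ x, |w x| ≤ N := by
    intro x
    have h1 : |(w x : ℚ)| ≤ N := by
      rw [hw, abs_mul, Nat.abs_cast]
      exact mul_le_of_le_one_right (Nat.cast_nonneg _) (hv1 x)
    exact_mod_cast h1
  obtain ⟨x₀, hx₀⟩ : ∃ x, c x ≠ 0 := by
    by_contra hno
    push Not at hno
    exact hc0 (funext hno)
  obtain ⟨a, π, ha, hπ, hgen, hsl, hnot⟩ := exotic Ω p F hs w hwodd N hN0 hwN
    (fun x y hxy => htriv x y fun σ hσ => (hvw _ _).1 (hxy σ hσ)) k (fun x => by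
      have h1 : (k (ComplexEmbedding.conjugate x) : ℚ) = - k x := by rw [hk, hk, hc]; ring
      exact_mod_cast h1) (fun σ hσ => by
      have h1 : ((∑ x, k x * w (σ x) : ℤ) : ℚ) = 0 := by
        push_cast
        have h2 : ∀ x, (k x : ℚ) * w (σ x) = (M * N) * (c x * v (σ x)) := by
          intro x
          rw [hk, hw]
          ring
        rw [Finset.sum_congr rfl fun x _ => h2 x, ← Finset.mul_sum, hrel σ hσ, mul_zero]
      exact_mod_cast h1) x₀ (by
      intro h0
      have h1 : (k x₀ : ℚ) = 0 := by rw [h0, Int.cast_zero]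
      rw [hk] at h1
      exact hx₀ ((mul_eq_zero.1 h1).resolve_left hM'))
  intro hR
  apply hnot
  refine hR F a π ha hπ hgen ?_
  unfold HasSlopes
  rw [hsl]
  -- the multiset
  have h1 : (Finset.univ : Finset (F →+* ℂ)) = Finset.univ.map T.toEmbedding :=
    (Finset.map_univ_equiv T).symm
  have hNR : (N : ℝ) ≠ 0 := by exact_mod_cast hN0.ne'
  let Ψ : (F →+* ℂ) → ℝ := fun x => ((p : ℝ) ^ a) ^ (-((1 + w x / N) / 2 : ℝ))
  have hΨ : ∀ x, Ψ x = ((p : ℝ) ^ a) ^ (-((1 + (v x : ℝ)) / 2)) := by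
    intro x
    have h2 : (w x : ℝ) / N = v x := by
      have h3 : ((w x : ℚ) : ℝ) = ((N * v x : ℚ) : ℝ) := by rw [hw]
      push_cast at h3
      rw [h3]
      field_simp
    simp only [Ψ, h2]
  have h2 : (Finset.univ : Finset (F →+* ℂ)).val.map Ψ =
      ∑ i : Fin g, {Ψ (T (Sum.inl i)), Ψ (T (Sum.inr i))} := by
    rw [h1, Finset.map_val, Multiset.map_map]
    have h3 : (Finset.univ : Finset (Fin g ⊕ Fin g)).val.map (Ψ ∘ T.toEmbedding) =
        ∑ y : Fin g ⊕ Fin g, {Ψ (T y)} := by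
      rw [← Multiset.sum_map_singleton ((Finset.univ : Finset (Fin g ⊕ Fin g)).val.map
        (Ψ ∘ T.toEmbedding)), Multiset.map_map]
      rfl
    rw [h3, Fintype.sum_sum_type, ← Finset.sum_add_distrib]
    rfl
  change (Finset.univ : Finset (F →+* ℂ)).val.map Ψ = _
  rw [h2]
  refine Finset.sum_congr rfl fun i _ => ?_
  rw [hΨ, hΨ, hT, hvodd, hv]
  rcases Int.units_eq_one_or (ε i) with h | h
  · rw [h, Multiset.pair_comm]
    congr 2
    · push_cast
      ring
    · push_cast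
      ring
  · rw [h]
    congr 2
    · push_cast
      ring
    · push_cast
      ring

end Pool.Agent.H21.NP
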