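import Pool.Agent.H21.TC.Rep

/-!
# The reproducing kernel of a stable space of functions
-/

set_option autoImplicit false
set_option linter.unusedSectionVars false

namespace Pool.Agent.H21.NP

open Module Pool.Agent.H21.TC

variable {X : Type*} [Fintype X]

open Classical in
/-- The kernel of the orthogonal projection to a subspace. -/
theorem exists_kernel (W : Submodule ℚ (X → ℚ)) :
    ∃ k : X → X → ℚ, (∀ x, k x ∈ W) ∧ (∀ h ∈ W, ∀ x, h x = ∑ y, k x y * h y) ∧
      (∀ x y, k x y = k y x) ∧ (finrank ℚ W : ℚ) = ∑ x, k x x := by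
  choose k hk hk' using fun x : X => exists_decomp W (fun y => if y = x then 1 else 0)
  have h1 : ∀ h ∈ W, ∀ x, h x = ∑ y, k x y * h y := by
    intro h hh x
    have h2 := hk' x h hh
    simp only [sub_mul, Finset.sum_sub_distrib, ite_mul, one_mul, zero_mul] at h2
    rw [Finset.sum_ite_eq', if_pos (Finset.mem_univ _)] at h2
    linarith
  have hsymm : ∀ x y, k x y = k y x := by
    intro x y
    rw [h1 (k x) (hk x) y, h1 (k y) (hk y) x]
    exact Finset.sum_congr rfl fun z _ => mul_comm _ _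
  refine ⟨k, hk, h1, hsymm, ?_⟩
  let p : (X → ℚ) →ₗ[ℚ] (X → ℚ) := Matrix.toLin' (Matrix.of k)
  have hp : ∀ f x, p f x = ∑ y, k x y * f y := by
    intro f x
    simp only [p, Matrix.toLin'_apply]
    rfl
  have hproj : LinearMap.IsProj W p := by
    refine ⟨fun f => ?_, fun f hf => ?_⟩
    · have h2 : p f = ∑ y, f y • k y := by
        funext x
        rw [hp, Finset.sum_apply]
        refine Finset.sum_congr rfl fun y _ => ?_
        rw [Pi.smul_apply, smul_eq_mul, hsymm x y, mul_comm]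
      rw [h2]
      exact Submodule.sum_mem _ fun y _ => Submodule.smul_mem _ _ (hk y)
    · funext x
      rw [hp]
      exact (h1 f hf x).symm
  rw [← hproj.trace]
  simp only [p]
  rw [Matrix.trace_toLin'_eq]
  rfl

/-- The kernel of a stable subspace is invariant. -/
theorem kernel_perm {P : Subgroup (Equiv.Perm X)} {W : Submodule ℚ (X → ℚ)} (hW : StableS P W)
    {k : X → X → ℚ} (hk : ∀ x, k x ∈ W) (h1 : ∀ h ∈ W, ∀ x, h x = ∑ y, k x y * h y)
    {σ : Equiv.Perm X} (hσ : σ ∈ P) (x y : X) : k (σ x) (σ y) = k x y := by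
  let f : X → ℚ := fun y => k (σ x) (σ y) - k x y
  have hf : f ∈ W := Submodule.sub_mem _ (hW σ hσ _ (hk (σ x))) (hk x)
  have h2 : ∑ y, f y * f y = 0 := by
    have e1 : ∑ y, k (σ x) (σ y) * f y = f x := by
      have h3 := h1 _ (hW σ⁻¹ (inv_mem hσ) f hf) (σ x)
      have h4 : σ⁻¹ (σ x) = x := σ.symm_apply_apply x
      rw [h4] at h3
      rw [h3, ← Equiv.sum_comp σ (fun y => k (σ x) y * f (σ⁻¹ y))]
      refine Finset.sum_congr rfl fun y _ => ?_
      have h5 : σ⁻¹ (σ y) = y := σ.symm_apply_apply y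
      rw [h5]
    have e2 := h1 f hf x
    have e3 : ∀ y, f y * f y = k (σ x) (σ y) * f y - k x y * f y := by
      intro y
      simp only [f]
      ring
    rw [Finset.sum_congr rfl fun y _ => e3 y, Finset.sum_sub_distrib, e1, ← e2, sub_self]
  have h3 := (Finset.sum_eq_zero_iff_of_nonneg fun y _ => mul_self_nonneg (f y)).1 h2 y
    (Finset.mem_univ _)
  have h4 : f y = 0 := mul_self_eq_zero.1 h3
  simp only [f] at h4
  linarith

/-- The relations of a function. -/
def RelS (P : Subgroup (Equiv.Perm X)) (bar : X → X) (w : X → ℚ) : Submodule ℚ (X → ℚ) where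
  carrier := {c | (∀ x, c (bar x) = - c x) ∧ ∀ σ ∈ P, ∑ x, c x * w (σ x) = 0}
  zero_mem' := ⟨fun x => by simp, fun σ _ => by simp⟩
  add_mem' := fun {f g} hf hg => ⟨fun x => by
      simp only [Pi.add_apply, hf.1 x, hg.1 x]
      ring, fun σ hσ => by
      simp only [Pi.add_apply, add_mul, Finset.sum_add_distrib, hf.2 σ hσ, hg.2 σ hσ, add_zero]⟩
  smul_mem' := fun c f hf => ⟨fun x => by
      simp only [Pi.smul_apply, hf.1 x, smul_eq_mul]
      ring, fun σ hσ => by
      simp only [Pi.smul_apply, smul_eq_mul, mul_assoc, ← Finset.mul_sum, hf.2 σ hσ, mul_zero]⟩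

/-- The span of the translates of a function. -/
def SpanS (P : Subgroup (Equiv.Perm X)) (w : X → ℚ) : Submodule ℚ (X → ℚ) :=
  Submodule.span ℚ {f | ∃ σ ∈ P, f = fun x => w (σ x)}

variable {P : Subgroup (Equiv.Perm X)} {bar : X → X} {w : X → ℚ}

theorem relS_stable (hcomm : ∀ σ ∈ P, ∀ x, σ (bar x) = bar (σ x)) : StableS P (RelS P bar w) := by
  intro τ hτ f hf
  refine ⟨fun x => ?_, fun σ hσ => ?_⟩
  · change f (τ (bar x)) = - f (τ x)
    rw [hcomm τ hτ]
    exact hf.1 _
  · have h1 := hf.2 (σ * τ⁻¹) (mul_mem hσ (inv_mem hτ))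
    rw [← h1, ← Equiv.sum_comp τ (fun x => f x * w ((σ * τ⁻¹) x))]
    refine Finset.sum_congr rfl fun x _ => ?_
    have h2 : τ⁻¹ (τ x) = x := τ.symm_apply_apply x
    rw [Equiv.Perm.mul_apply, h2]

theorem spanS_stable : StableS P (SpanS P w) := by
  intro τ hτ f hf
  induction hf using Submodule.span_induction with
  | mem f hf =>
    obtain ⟨σ, hσ, rfl⟩ := hf
    exact Submodule.subset_span ⟨σ * τ, mul_mem hσ hτ, rfl⟩
  | zero => exact Submodule.zero_mem _
  | add f g _ _ hf hg => exact Submodule.add_mem _ hf hg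
  | smul c f _ hf => exact Submodule.smul_mem _ c hf

theorem mem_spanS : w ∈ SpanS P w := Submodule.subset_span ⟨1, one_mem _, rfl⟩

theorem spanS_odd (hcomm : ∀ σ ∈ P, ∀ x, σ (bar x) = bar (σ x)) (hw : ∀ x, w (bar x) = - w x) :
    SpanS P w ≤ OddS bar := by
  unfold SpanS
  rw [Submodule.span_le]
  rintro _ ⟨σ, hσ, rfl⟩ x
  simp only [hcomm σ hσ, hw]

theorem orth {f c : X → ℚ} (hf : f ∈ SpanS P w) (hc : c ∈ RelS P bar w) : ∑ x, c x * f x = 0 := by
  induction hf using Submodule.span_induction with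
  | mem f hf =>
    obtain ⟨σ, hσ, rfl⟩ := hf
    exact hc.2 σ hσ
  | zero => simp
  | add f g _ _ hf hg =>
    simp only [Pi.add_apply, mul_add, Finset.sum_add_distrib, hf, hg, add_zero]
  | smul a f _ hf =>
    simp only [Pi.smul_apply, smul_eq_mul, mul_left_comm _ a, ← Finset.mul_sum, hf, mul_zero]

theorem mem_relS_iff {c : X → ℚ} (hc : ∀ x, c (bar x) = - c x)
    (h : ∀ f ∈ SpanS P w, ∑ x, c x * f x = 0) : c ∈ RelS P bar w :=
  ⟨hc, fun σ hσ => h _ (Submodule.subset_span ⟨σ, hσ, rfl⟩)⟩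

/-- The kernel of the space of relations. -/
theorem kernel_sum [DecidableEq X] (hbar : ∀ x, bar (bar x) = x) (hb : ∀ x, bar x ≠ x)
    (hcomm : ∀ σ ∈ P, ∀ x, σ (bar x) = bar (σ x)) (hw : ∀ x, w (bar x) = - w x)
    {k l : X → X → ℚ} (hk : ∀ x, k x ∈ SpanS P w)
    (hk1 : ∀ h ∈ SpanS P w, ∀ x, h x = ∑ y, k x y * h y)
    (hl : ∀ x, l x ∈ RelS P bar w) (hl1 : ∀ h ∈ RelS P bar w, ∀ x, h x = ∑ y, l x y * h y)
    (x : X) : k x x + l x x = 1 / 2 := by
  -- the function `e` is `(δ_x - δ_{bar x}) / 2`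
  let e : X → ℚ := fun y => ((if y = x then 1 else 0) - (if y = bar x then 1 else 0)) / 2
  have heo : ∀ y, e (bar y) = - e y := by
    intro y
    have e1 : bar y = x ↔ y = bar x := ⟨fun h => by rw [← h, hbar], fun h => by rw [h, hbar]⟩
    have e2 : bar y = bar x ↔ y = x := by
      constructor
      · intro h
        rw [← hbar y, h, hbar]
      · intro h
        rw [h]
    simp only [e, e1, e2]
    ring
  have hee : ∀ h : X → ℚ, (∀ y, h (bar y) = - h y) → ∑ y, e y * h y = h x := by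
    intro h hh
    have e1 : ∀ y, e y * h y = ((if y = x then h y else 0) - (if y = bar x then h y else 0)) / 2 := by
      intro y
      simp only [e]
      split_ifs <;> ring
    rw [Finset.sum_congr rfl fun y _ => e1 y, ← Finset.sum_div, Finset.sum_sub_distrib,
      Finset.sum_ite_eq', Finset.sum_ite_eq', if_pos (Finset.mem_univ _), if_pos (Finset.mem_univ _),
      hh]
    ring
  have hko : ∀ y, k x (bar y) = - k x y := spanS_odd hcomm hw (hk x)
  have hlo : ∀ y, l x (bar y) = - l x y := (hl x).1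
  let r : X → ℚ := fun y => e y - k x y
  have hro : ∀ y, r (bar y) = - r y := by
    intro y
    simp only [r, heo, hko]
    ring
  have hr : r ∈ RelS P bar w := by
    refine mem_relS_iff hro fun f hf => ?_
    have e1 : ∀ y, r y * f y = e y * f y - k x y * f y := by
      intro y
      simp only [r]
      ring
    rw [Finset.sum_congr rfl fun y _ => e1 y, Finset.sum_sub_distrib,
      hee f (spanS_odd hcomm hw hf), ← hk1 f hf x, sub_self]
  have h1 := hl1 r hr x
  have h2 : ∑ y, l x y * r y = l x x := by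
    have e1 : ∀ y, l x y * r y = e y * l x y - l x y * k x y := by
      intro y
      simp only [r]
      ring
    rw [Finset.sum_congr rfl fun y _ => e1 y, Finset.sum_sub_distrib, hee _ hlo,
      orth (hk x) (hl x), sub_zero]
  rw [h2] at h1
  have h3 : r x = 1 / 2 - k x x := by
    simp only [r, e, if_true, if_neg (hb x).symm]
    ring
  rw [h3] at h1
  linarith

/-- A stable space of dimension one. -/
theorem abs_const {N : Submodule ℚ (X → ℚ)} (hN : StableS P N)
    (h1 : ∀ c ∈ N, c ≠ 0 → ∀ c' ∈ N, ∃ t : ℚ, c' = t • c) {c : X → ℚ} (hc : c ∈ N) (hc0 : c ≠ 0)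
    {σ : Equiv.Perm X} (hσ : σ ∈ P) :
    (∀ x, c (σ x) = c x) ∨ (∀ x, c (σ x) = - c x) := by
  obtain ⟨t, ht⟩ := h1 c hc hc0 _ (hN σ hσ c hc)
  have ht' : ∀ x, c (σ x) = t * c x := fun x => congrFun ht x
  have h2 : ∑ x, c x * c x = t ^ 2 * ∑ x, c x * c x := by
    conv_lhs => rw [← Equiv.sum_comp σ]
    rw [Finset.mul_sum]
    refine Finset.sum_congr rfl fun x _ => ?_
    rw [ht']
    ring
  have h3 : ∑ x, c x * c x ≠ 0 := by
    intro h0
    apply hc0
    funext x
    have h4 := (Finset.sum_eq_zero_iff_of_nonneg fun y _ => mul_self_nonneg (c y)).1 h0 x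
      (Finset.mem_univ _)
    exact mul_self_eq_zero.1 h4
  have h4 : t ^ 2 = 1 := by
    have h5 : (t ^ 2 - 1) * ∑ x, c x * c x = 0 := by linarith
    have h6 := (mul_eq_zero.1 h5).resolve_right h3
    linarith
  rcases sq_eq_one_iff.1 h4 with h5 | h5
  · left
    intro x
    rw [ht', h5, one_mul]
  · right
    intro x
    rw [ht', h5, neg_one_mul]

theorem line_of_finrank {N : Submodule ℚ (X → ℚ)} (h : finrank ℚ N = 1) :
    ∀ c ∈ N, c ≠ 0 → ∀ c' ∈ N, ∃ t : ℚ, c' = t • c := by
  intro c hc hc0 c' hc'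
  obtain ⟨v, hv, hv'⟩ := finrank_eq_one_iff'.1 h
  obtain ⟨a, ha⟩ := hv' ⟨c, hc⟩
  obtain ⟨b, hb⟩ := hv' ⟨c', hc'⟩
  have ha' : a • (v : X → ℚ) = c := congrArg Subtype.val ha
  have hb' : b • (v : X → ℚ) = c' := congrArg Subtype.val hb
  have ha0 : a ≠ 0 := by
    rintro rfl
    apply hc0
    rw [← ha', zero_smul]
  refine ⟨b / a, ?_⟩
  rw [← ha', ← hb', smul_smul, div_mul_cancel₀ _ ha0]

end Pool.Agent.H21.NP
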