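import Mathlib

/-!
# A polynomial with real and `p`-adic roots and a doubly transitive Galois group
-/

set_option autoImplicit false
set_option linter.unusedSectionVars false

namespace Pool.Agent.H21.NP

open Polynomial Finset

theorem exists_irred_zmod (q : ℕ) [Fact q.Prime] (n : ℕ) (hn : 0 < n) :
    ∃ h : ℤ[X], h.Monic ∧ h.natDegree = n ∧ Irreducible (h.map (Int.castRingHom (ZMod q))) := by
  obtain ⟨α, hα⟩ := Field.exists_primitive_element (ZMod q) (GaloisField q n)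
  have hint : IsIntegral (ZMod q) α := Algebra.IsIntegral.isIntegral α
  have hdeg : (minpoly (ZMod q) α).natDegree = n := by
    rw [← IntermediateField.adjoin.finrank hint, hα, IntermediateField.finrank_top',
      GaloisField.finrank q hn.ne']
  obtain ⟨h0, hh0⟩ := Polynomial.map_surjective (Int.castRingHom (ZMod q))
    (ZMod.intCast_surjective) (minpoly (ZMod q) α)
  obtain ⟨h, hm, hd, hmon⟩ := lifts_and_natDegree_eq_and_monic (f := Int.castRingHom (ZMod q))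
    (p := minpoly (ZMod q) α) ((mem_lifts _).2 ⟨h0, hh0⟩) (minpoly.monic hint)
  refine ⟨h, hmon, by rw [hd, hdeg], ?_⟩
  rw [hm]
  exact minpoly.irreducible hint

theorem exists_crt (a b : ℕ) (h : a.Coprime b) : ∃ A B C : ℤ, A = 1 + a * B ∧ A = b * C := by
  obtain ⟨k, hk1, hk2⟩ := Nat.chineseRemainder h 1 0
  have h1 := (Int.natCast_modEq_iff).2 hk1
  have h2 := (Int.natCast_modEq_iff).2 hk2
  obtain ⟨B, hB⟩ := (Int.modEq_iff_dvd).1 h1.symm
  obtain ⟨C, hC⟩ := (Int.modEq_iff_dvd).1 h2.symm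
  refine ⟨k, B, C, ?_, ?_⟩
  · push_cast at hB
    linarith
  · push_cast at hC
    linarith

theorem prod_mod (N : ℤ) (t : ℕ → ℤ) (g : ℕ) :
    ∃ u : ℤ[X], ∏ i ∈ range g, (X - C (N * t i)) = X ^ g + C N * u := by
  induction g with
  | zero => exact ⟨0, by simp⟩
  | succ g ih =>
    obtain ⟨u, hu⟩ := ih
    refine ⟨-C (t g) * X ^ g + u * (X - C (N * t g)), ?_⟩
    rw [prod_range_succ, hu, C_mul]
    ring

theorem abs_prod_ge (g : ℕ) (j : ℕ) : ((1 : ℝ) / 2) ^ g ≤ |∏ i ∈ range g, ((j : ℝ) - 1 / 2 - i)| := by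
  rw [abs_prod, ← card_range g, ← prod_const, card_range]
  refine prod_le_prod (fun _ _ => by norm_num) fun i _ => ?_
  rcases lt_or_ge i j with h | h
  · have h1 : (i : ℝ) + 1 ≤ j := by exact_mod_cast h
    rw [abs_of_nonneg (by linarith)]
    linarith
  · have h1 : (j : ℝ) ≤ i := by exact_mod_cast h
    rw [abs_of_nonpos (by linarith)]
    linarith

theorem prod_neg (g : ℕ) (j : ℕ) (hj : j < g) :
    (∏ i ∈ range g, ((j : ℝ) - 1 / 2 - i)) * (∏ i ∈ range g, ((j : ℝ) + 1 / 2 - i)) < 0 := by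
  rw [← prod_mul_distrib, ← mul_prod_erase _ _ (mem_range.2 hj)]
  apply mul_neg_of_neg_of_pos
  · have : ((j : ℝ) - 1 / 2 - j) * (j + 1 / 2 - j) = - (1 / 4) := by ring
    rw [this]
    norm_num
  · refine prod_pos fun i hi => ?_
    have hij : i ≠ j := ne_of_mem_erase hi
    rcases lt_or_gt_of_ne hij with h | h
    · have h1 : (i : ℝ) + 1 ≤ j := by exact_mod_cast h
      exact mul_pos (by linarith) (by linarith)
    · have h1 : (j : ℝ) + 1 ≤ i := by exact_mod_cast h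
      exact mul_pos_of_neg_of_neg (by linarith) (by linarith)

theorem aeval_le (g : ℕ) (r : ℤ[X]) (hr : r.natDegree < g) (T : ℕ) (hT : 0 < T) (y : ℝ)
    (hy : |y| ≤ g) : |aeval (T * y) r| * T ≤
      T ^ g * ((∑ k ∈ range g, (r.coeff k).natAbs * g ^ k : ℕ) : ℝ) := by
  have hT1 : (1 : ℝ) ≤ T := by exact_mod_cast hT
  have h1 : aeval (T * y) r = ∑ k ∈ range g, (r.coeff k : ℝ) * (T * y) ^ k := by
    rw [aeval_eq_sum_range' hr]
    refine sum_congr rfl fun k _ => ?_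
    rw [zsmul_eq_mul]
  rw [h1]
  push_cast
  rw [mul_sum]
  calc |∑ k ∈ range g, (r.coeff k : ℝ) * (T * y) ^ k| * T
      ≤ (∑ k ∈ range g, |(r.coeff k : ℝ) * (T * y) ^ k|) * T :=
        mul_le_mul_of_nonneg_right (abs_sum_le_sum_abs _ _) (by positivity)
    _ = ∑ k ∈ range g, |(r.coeff k : ℝ) * (T * y) ^ k| * T := by rw [sum_mul]
    _ ≤ ∑ k ∈ range g, (T : ℝ) ^ g * (|(r.coeff k : ℝ)| * (g : ℝ) ^ k) := by
        refine sum_le_sum fun k hk => ?_
        have hk' : k + 1 ≤ g := mem_range.1 hk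
        rw [abs_mul, abs_pow, abs_mul, Nat.abs_cast, mul_pow]
        have h2 : |y| ^ k ≤ (g : ℝ) ^ k := pow_le_pow_left₀ (abs_nonneg _) hy k
        have h3 : (T : ℝ) ^ (k + 1) ≤ (T : ℝ) ^ g := pow_le_pow_right₀ hT1 hk'
        calc |(r.coeff k : ℝ)| * ((T : ℝ) ^ k * |y| ^ k) * T
            = (T : ℝ) ^ (k + 1) * (|(r.coeff k : ℝ)| * |y| ^ k) := by ring
          _ ≤ (T : ℝ) ^ g * (|(r.coeff k : ℝ)| * (g : ℝ) ^ k) := by
            apply mul_le_mul h3 _ (by positivity) (by positivity)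
            exact mul_le_mul_of_nonneg_left h2 (abs_nonneg _)
    _ = ∑ k ∈ range g, (T : ℝ) ^ g * ((((r.coeff k).natAbs : ℕ) : ℝ) * (g : ℝ) ^ k) := by
        refine sum_congr rfl fun k _ => ?_
        rw [Nat.cast_natAbs, Int.cast_abs]

/-- Real roots. -/
theorem real_roots (g : ℕ) (r : ℤ[X]) (hr : r.natDegree < g) (T : ℕ)
    (hT : 2 ^ g * ∑ k ∈ range g, (r.coeff k).natAbs * g ^ k < T) :
    ∃ ρ : Fin g → ℝ, Function.Injective ρ ∧
      ∀ i, aeval (ρ i) (∏ i ∈ range g, (X - C ((T : ℤ) * i)) + r) = 0 := by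
  have hT0 : 0 < T := by omega
  have hTR : (0 : ℝ) < T := by exact_mod_cast hT0
  have hg : 1 ≤ g := by omega
  have hgR : (1 : ℝ) ≤ g := by exact_mod_cast hg
  let f : ℤ[X] := ∏ i ∈ range g, (X - C ((T : ℤ) * i)) + r
  let A : ℝ → ℝ := fun y => ∏ i ∈ range g, (y - i)
  let F : ℝ → ℝ := fun y => aeval (T * y) f
  have hF : ∀ y, F y = T ^ g * A y + aeval (T * y) r := by
    intro y
    simp only [F, f, A, map_add, map_prod, map_sub, aeval_X, aeval_C]
    congr 1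
    have h1 : ((T : ℝ)) ^ g = ∏ _i ∈ range g, (T : ℝ) := by rw [prod_const, card_range]
    rw [h1, ← prod_mul_distrib]
    refine prod_congr rfl fun i _ => ?_
    simp
    ring
  have hcont : Continuous F := by
    have h1 : Continuous fun z : ℝ => aeval z f := f.continuous_aeval
    exact h1.comp (continuous_const.mul continuous_id)
  have hsign : ∀ j : ℕ, j ≤ g → 0 < F ((j : ℝ) - 1 / 2) * A ((j : ℝ) - 1 / 2) := by
    intro j hj
    have hjR : (j : ℝ) ≤ g := by exact_mod_cast hj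
    have hj0 : (0 : ℝ) ≤ j := Nat.cast_nonneg j
    have hy : |(j : ℝ) - 1 / 2| ≤ g := by
      rw [abs_le]
      constructor <;> linarith
    have h1 := aeval_le g r hr T hT0 _ hy
    have h2 := abs_prod_ge g j
    change ((1 : ℝ) / 2) ^ g ≤ |A ((j : ℝ) - 1 / 2)| at h2
    set a := A ((j : ℝ) - 1 / 2)
    set S : ℝ := ((∑ k ∈ range g, (r.coeff k).natAbs * g ^ k : ℕ) : ℝ)
    set R := aeval ((T : ℝ) * (j - 1 / 2)) r
    have hTS : (2 : ℝ) ^ g * S < T := by
      simp only [S]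
      exact_mod_cast hT
    have h3 : |R| < T ^ g * |a| := by
      have h4 : |R| * T < (T ^ g * |a|) * T := by
        refine h1.trans_lt ?_
        rw [mul_assoc]
        apply mul_lt_mul_of_pos_left _ (by positivity)
        have h5 : S < ((1 : ℝ) / 2) ^ g * T := by
          rw [one_div, inv_pow, inv_mul_eq_div, lt_div_iff₀ (by positivity), mul_comm]
          exact hTS
        exact h5.trans_le (mul_le_mul_of_nonneg_right h2 hTR.le)
      exact lt_of_mul_lt_mul_right h4 hTR.le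
    have ha : 0 < |a| := lt_of_lt_of_le (by positivity) h2
    rw [hF]
    change 0 < (T ^ g * a + R) * a
    have h5 : (T ^ g * a + R) * a = T ^ g * |a| * |a| + R * a := by
      have : |a| * |a| = a * a := abs_mul_abs_self a
      rw [mul_assoc, this]
      ring
    rw [h5]
    have h6 : -(|R| * |a|) ≤ R * a := by
      rw [← abs_mul]
      exact neg_abs_le _
    have h7 : |R| * |a| < T ^ g * |a| * |a| := mul_lt_mul_of_pos_right h3 ha
    linarith
  have hroot : ∀ j : Fin g, ∃ y : ℝ, (j : ℝ) - 1 / 2 < y ∧ y < (j : ℝ) + 1 / 2 ∧ F y = 0 := by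
    intro j
    have h1 := hsign j j.2.le
    have h2 := hsign (j + 1) j.2
    have h3 := prod_neg g j j.2
    have h4 : (((j : ℕ) + 1 : ℕ) : ℝ) - 1 / 2 = (j : ℝ) + 1 / 2 := by push_cast; ring
    rw [h4] at h2
    have h5 : F ((j : ℝ) - 1 / 2) * F ((j : ℝ) + 1 / 2) < 0 := by
      by_contra hno
      push Not at hno
      have h6 : 0 < (F ((j : ℝ) - 1 / 2) * A ((j : ℝ) - 1 / 2)) *
          (F ((j : ℝ) + 1 / 2) * A ((j : ℝ) + 1 / 2)) := mul_pos h1 h2
      have h7 : (F ((j : ℝ) - 1 / 2) * A ((j : ℝ) - 1 / 2)) *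
          (F ((j : ℝ) + 1 / 2) * A ((j : ℝ) + 1 / 2)) =
          (F ((j : ℝ) - 1 / 2) * F ((j : ℝ) + 1 / 2)) *
          (A ((j : ℝ) - 1 / 2) * A ((j : ℝ) + 1 / 2)) := by ring
      rw [h7] at h6
      have h8 : A ((j : ℝ) - 1 / 2) * A ((j : ℝ) + 1 / 2) < 0 := h3
      exact absurd h6 (not_lt.2 (mul_nonpos_of_nonneg_of_nonpos hno h8.le))
    have hab : (j : ℝ) - 1 / 2 ≤ (j : ℝ) + 1 / 2 := by linarith
    rcases mul_neg_iff.1 h5 with ⟨h6, h7⟩ | ⟨h6, h7⟩
    · obtain ⟨y, hy, hy'⟩ := intermediate_value_Ioo' hab hcont.continuousOn (Set.mem_Ioo.2 ⟨h7, h6⟩)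
      exact ⟨y, hy.1, hy.2, hy'⟩
    · obtain ⟨y, hy, hy'⟩ := intermediate_value_Ioo hab hcont.continuousOn (Set.mem_Ioo.2 ⟨h6, h7⟩)
      exact ⟨y, hy.1, hy.2, hy'⟩
  choose y hy1 hy2 hy3 using hroot
  refine ⟨fun j => T * y j, fun i j hij => ?_, hy3⟩
  have h1 : y i = y j := mul_left_cancel₀ hTR.ne' hij
  have h2 := hy1 i
  have h3 := hy2 i
  have h4 := hy1 j
  have h5 := hy2 j
  rw [h1] at h2 h3
  have h6 : ((i : ℕ) : ℝ) < (j : ℕ) + 1 := by linarith
  have h7 : ((j : ℕ) : ℝ) < (i : ℕ) + 1 := by linarith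
  have h8 : (i : ℕ) < (j : ℕ) + 1 := by exact_mod_cast h6
  have h9 : (j : ℕ) < (i : ℕ) + 1 := by exact_mod_cast h7
  exact Fin.ext (by omega)

/-- The `p`-adic roots. -/
theorem padic_roots (p : ℕ) [hp : Fact p.Prime] (g k : ℕ) (f u : ℤ[X])
    (hf : f = ∏ i ∈ range g, (X - C (i : ℤ)) + C ((p : ℤ) ^ k) * u)
    (hk : ∀ i < g, ‖(p : ℤ_[p])‖ ^ k < ‖∏ j ∈ (range g).erase i, ((i : ℤ_[p]) - j)‖ ^ 2) :
    ∃ z : Fin g → ℤ_[p], Function.Injective z ∧ ∀ i, aeval (z i) f = 0 := by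
  have hroot : ∀ i : Fin g, ∃ z : ℤ_[p], aeval z f = 0 ∧
      ∀ j : Fin g, j ≠ i → ‖z - (i : ℕ)‖ < ‖((i : ℕ) : ℤ_[p]) - (j : ℕ)‖ := by
    intro i
    let Q : ℤ[X] := ∏ j ∈ (range g).erase i, (X - C (j : ℤ))
    have hQ : f = (X - C ((i : ℕ) : ℤ)) * Q + C ((p : ℤ) ^ k) * u := by
      rw [hf, ← mul_prod_erase _ _ (mem_range.2 i.2)]
    have hQi : aeval ((i : ℕ) : ℤ_[p]) Q = ∏ j ∈ (range g).erase i, (((i : ℕ) : ℤ_[p]) - j) := by
      simp only [Q, map_prod, map_sub, aeval_X, aeval_C]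
      refine prod_congr rfl fun j _ => ?_
      simp
    have h1 : aeval ((i : ℕ) : ℤ_[p]) f = (p : ℤ_[p]) ^ k * aeval ((i : ℕ) : ℤ_[p]) u := by
      rw [hQ]
      simp
    have h2 : aeval ((i : ℕ) : ℤ_[p]) (derivative f) =
        aeval ((i : ℕ) : ℤ_[p]) Q + (p : ℤ_[p]) ^ k * aeval ((i : ℕ) : ℤ_[p]) (derivative u) := by
      rw [hQ, derivative_add, derivative_mul, derivative_mul, derivative_sub, derivative_X,
        derivative_C, derivative_C]
      simp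
    have h3 := hk i i.2
    rw [← hQi] at h3
    have hQ1 : ‖aeval ((i : ℕ) : ℤ_[p]) Q‖ ≤ 1 := PadicInt.norm_le_one _
    have h4 : ‖(p : ℤ_[p]) ^ k * aeval ((i : ℕ) : ℤ_[p]) (derivative u)‖ <
        ‖aeval ((i : ℕ) : ℤ_[p]) Q‖ := by
      rw [norm_mul, norm_pow]
      calc ‖(p : ℤ_[p])‖ ^ k * ‖aeval ((i : ℕ) : ℤ_[p]) (derivative u)‖
          ≤ ‖(p : ℤ_[p])‖ ^ k := mul_le_of_le_one_right (by positivity) (PadicInt.norm_le_one _)
        _ < ‖aeval ((i : ℕ) : ℤ_[p]) Q‖ ^ 2 := h3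
        _ ≤ ‖aeval ((i : ℕ) : ℤ_[p]) Q‖ := by
          rw [sq]
          exact mul_le_of_le_one_left (norm_nonneg _) hQ1
    have h5 : ‖aeval ((i : ℕ) : ℤ_[p]) (derivative f)‖ = ‖aeval ((i : ℕ) : ℤ_[p]) Q‖ := by
      rw [h2, PadicInt.norm_add_eq_max_of_ne h4.ne', max_eq_left h4.le]
    obtain ⟨z, hz, hz', -, -⟩ := hensels_lemma (F := f) (a := ((i : ℕ) : ℤ_[p])) (by
      rw [h1, h5, norm_mul, norm_pow]
      exact (mul_le_of_le_one_right (by positivity) (PadicInt.norm_le_one _)).trans_lt h3)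
    refine ⟨z, hz, fun j hj => ?_⟩
    rw [h5, hQi] at hz'
    refine hz'.trans_le ?_
    have hj' : (j : ℕ) ∈ (range g).erase i := mem_erase.2 ⟨fun h => hj (Fin.ext h), mem_range.2 j.2⟩
    rw [← mul_prod_erase _ _ hj', norm_mul]
    exact mul_le_of_le_one_right (norm_nonneg _) (PadicInt.norm_le_one _)
  choose z hz hz' using hroot
  refine ⟨z, fun i j hij => ?_, hz⟩
  by_contra hne
  have h1 := hz' i j (Ne.symm hne)
  have h2 := hz' j i hne
  rw [hij] at h1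
  rw [norm_sub_rev ((j : ℕ) : ℤ_[p])] at h2
  have h3 : ((i : ℕ) : ℤ_[p]) - (j : ℕ) = -(z j - (i : ℕ)) + (z j - (j : ℕ)) := by ring
  have h4 : ‖((i : ℕ) : ℤ_[p]) - (j : ℕ)‖ ≤ max ‖-(z j - ((i : ℕ) : ℤ_[p]))‖
      ‖z j - ((j : ℕ) : ℤ_[p])‖ := by
    rw [h3]
    exact PadicInt.nonarchimedean _ _
  rw [norm_neg] at h4
  exact absurd (h4.trans_lt (max_lt h1 h2)) (lt_irrefl _)

/-- The polynomial. -/
theorem exists_poly (p : ℕ) [hp : Fact p.Prime] (g : ℕ) (hg : 2 ≤ g) :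
    ∃ f : ℤ[X], f.Monic ∧ f.natDegree = g ∧ Irreducible f ∧
      (∃ ρ : Fin g → ℝ, Function.Injective ρ ∧ ∀ i, aeval (ρ i) f = 0) ∧
      (∃ z : Fin g → ℤ_[p], Function.Injective z ∧ ∀ i, aeval (z i) f = 0) ∧
      ∃ (q : ℕ) (_ : Fact q.Prime) (h : ℤ[X]), h.Monic ∧ h.natDegree = g - 1 ∧
        Irreducible (h.map (Int.castRingHom (ZMod q))) ∧
        f.map (Int.castRingHom (ZMod q)) = X * h.map (Int.castRingHom (ZMod q)) := by
  -- the power of `p`
  obtain ⟨k, hk⟩ : ∃ k : ℕ, ∀ i ∈ range g, ‖(p : ℤ_[p])‖ ^ k <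
      ‖∏ j ∈ (range g).erase i, ((i : ℤ_[p]) - j)‖ ^ 2 := by
    have h1 : ∀ i ∈ range g, ∀ᶠ k : ℕ in Filter.atTop, ‖(p : ℤ_[p])‖ ^ k <
        ‖∏ j ∈ (range g).erase i, ((i : ℤ_[p]) - j)‖ ^ 2 := by
      intro i _
      have hlt : ‖(p : ℤ_[p])‖ < 1 := by
        rw [PadicInt.norm_p]
        exact inv_lt_one_of_one_lt₀ (by exact_mod_cast hp.out.one_lt)
      refine (tendsto_pow_atTop_nhds_zero_of_lt_one (norm_nonneg _) hlt).eventually_lt_const ?_
      apply pow_pos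
      rw [norm_pos_iff, prod_ne_zero_iff]
      intro j hj
      have hij : j ≠ i := ne_of_mem_erase hj
      rw [sub_ne_zero]
      exact_mod_cast hij.symm
    exact ((Filter.eventually_all_finset _).2 h1).exists
  obtain ⟨q1, hq1, hq1p⟩ := Nat.exists_infinite_primes (p + 1)
  obtain ⟨q2, hq2, hq2p⟩ := Nat.exists_infinite_primes (q1 + 1)
  have hq2F : Fact q2.Prime := ⟨hq2p⟩
  obtain ⟨H, hHm, hHd, hHi⟩ := exists_irred_zmod q2 (g - 1) (by omega)
  have cpr : ∀ a b : ℕ, a.Prime → b.Prime → a < b → a.Coprime b := fun a b ha hb h =>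
    (Nat.coprime_primes ha hb).2 h.ne
  have c12 := cpr q1 q2 hq1p hq2p (by omega)
  have cp1 := cpr p q1 hp.out hq1p (by omega)
  have cp2 := cpr p q2 hp.out hq2p (by omega)
  have n1 : Nat.Coprime (q1 ^ 2) (q2 * p ^ k) :=
    Nat.Coprime.pow_left 2 (Nat.Coprime.mul_right c12 (cp1.symm.pow_right k))
  have n2 : Nat.Coprime q2 (q1 ^ 2 * p ^ k) :=
    Nat.Coprime.mul_right (c12.symm.pow_right 2) (cp2.symm.pow_right k)
  have n3 : Nat.Coprime (p ^ k) (q1 ^ 2 * q2) :=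
    Nat.Coprime.pow_left k (Nat.Coprime.mul_right (cp1.pow_right 2) cp2)
  obtain ⟨A1, B1, C1, hA1, hA1'⟩ := exists_crt _ _ n1
  obtain ⟨A2, B2, C2, hA2, hA2'⟩ := exists_crt _ _ n2
  obtain ⟨A3, B3, C3, hA3, hA3'⟩ := exists_crt _ _ n3
  push_cast at hA1 hA1' hA2 hA2' hA3 hA3'
  let P0 : ℤ[X] := ∏ i ∈ range g, (X - C (i : ℤ))
  have hP0m : P0.Monic := monic_prod_of_monic _ _ fun i _ => monic_X_sub_C _
  have hP0d : P0.natDegree = g := by
    simp only [P0]
    rw [natDegree_prod_of_monic _ _ fun i _ => monic_X_sub_C _,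
      sum_congr rfl fun i _ => natDegree_X_sub_C _, sum_const, card_range, smul_eq_mul, mul_one]
  have hXHm : (X * H).Monic := monic_X.mul hHm
  have hXHd : (X * H).natDegree = g := by
    rw [monic_X.natDegree_mul hHm, natDegree_X, hHd]
    omega
  have hsub : ∀ P : ℤ[X], P.Monic → P.natDegree = g → (P - X ^ g).natDegree < g := by
    intro P hPm hPd
    have h1 : (P - X ^ g).degree < P.degree := by
      refine degree_sub_lt_left ?_ hPm.ne_zero ?_
      · rw [degree_X_pow, degree_eq_natDegree hPm.ne_zero, hPd]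
      · rw [hPm.leadingCoeff, (monic_X_pow g).leadingCoeff]
    by_cases h0 : P - X ^ g = 0
    · rw [h0, natDegree_zero]
      omega
    · have h2 := natDegree_lt_natDegree h0 h1
      rwa [hPd] at h2
  let r : ℤ[X] := C (A1 * q1) + C A2 * (X * H - X ^ g) + C A3 * (P0 - X ^ g)
  have hr : r.natDegree < g := by
    have e1 : (C (A1 * q1) : ℤ[X]).natDegree < g := by
      rw [natDegree_C]
      omega
    have e2 : (C A2 * (X * H - X ^ g)).natDegree < g :=
      (natDegree_C_mul_le _ _).trans_lt (hsub _ hXHm hXHd)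
    have e3 : (C A3 * (P0 - X ^ g)).natDegree < g :=
      (natDegree_C_mul_le _ _).trans_lt (hsub _ hP0m hP0d)
    exact (natDegree_add_le _ _).trans_lt (max_lt ((natDegree_add_le _ _).trans_lt (max_lt e1 e2)) e3)
  let N : ℕ := q1 ^ 2 * q2 * p ^ k
  have hN : 0 < N := by
    have := hq1p.pos
    have := hq2p.pos
    have := hp.out.pos
    positivity
  let t : ℕ := 2 ^ g * ∑ k ∈ range g, (r.coeff k).natAbs * g ^ k + 1
  let T : ℕ := N * t
  have hT : 2 ^ g * ∑ k ∈ range g, (r.coeff k).natAbs * g ^ k < T := by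
    have h1 : t ≤ T := Nat.le_mul_of_pos_left _ hN
    omega
  let f : ℤ[X] := ∏ i ∈ range g, (X - C ((T : ℤ) * i)) + r
  obtain ⟨u0, hu0⟩ := prod_mod (N : ℤ) (fun i => (t : ℤ) * i) g
  have hf0 : f = X ^ g + C (N : ℤ) * u0 + r := by
    simp only [f]
    rw [← hu0]
    congr 1
    refine prod_congr rfl fun i _ => ?_
    simp only [T]
    push_cast
    ring_nf
  have hNZ : (N : ℤ) = (q1 : ℤ) ^ 2 * q2 * p ^ k := by
    simp only [N]
    push_cast
    ring
  have hfm : f.Monic := by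
    have h1 : (∏ i ∈ range g, (X - C ((T : ℤ) * i)) : ℤ[X]).Monic :=
      monic_prod_of_monic _ _ fun i _ => monic_X_sub_C _
    refine h1.add_of_left ?_
    have h2 : (∏ i ∈ range g, (X - C ((T : ℤ) * i)) : ℤ[X]).natDegree = g := by
      rw [natDegree_prod_of_monic _ _ fun i _ => monic_X_sub_C _,
        sum_congr rfl fun i _ => natDegree_X_sub_C _, sum_const, card_range, smul_eq_mul, mul_one]
    rw [degree_eq_natDegree h1.ne_zero, h2]
    exact (degree_le_natDegree).trans_lt (by exact_mod_cast hr)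
  have hfd : f.natDegree = g := by
    have h1 : (∏ i ∈ range g, (X - C ((T : ℤ) * i)) : ℤ[X]).natDegree = g := by
      rw [natDegree_prod_of_monic _ _ fun i _ => monic_X_sub_C _,
        sum_congr rfl fun i _ => natDegree_X_sub_C _, sum_const, card_range, smul_eq_mul, mul_one]
    simp only [f]
    rw [natDegree_add_eq_left_of_natDegree_lt (by rw [h1]; exact hr), h1]
  -- the first congruence
  have e1 : ∃ v : ℤ[X], f = X ^ g + C (q1 : ℤ) + C ((q1 : ℤ) ^ 2) * v := by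
    refine ⟨C ((q2 : ℤ) * p ^ k) * u0 + C (B1 * q1) + C ((p : ℤ) ^ k * C2) * (X * H - X ^ g) +
      C ((q2 : ℤ) * C3) * (P0 - X ^ g), ?_⟩
    rw [hf0, hNZ]
    simp only [r]
    have g1 : A1 * q1 = q1 + (q1 : ℤ) ^ 2 * (B1 * q1) := by rw [hA1]; ring
    have g2 : A2 = (q1 : ℤ) ^ 2 * (p ^ k * C2) := by rw [hA2']; ring
    have g3 : A3 = (q1 : ℤ) ^ 2 * (q2 * C3) := by rw [hA3']; ring
    rw [g1, g2, g3]
    simp only [C_add, C_mul]
    ring
  have e2 : ∃ v : ℤ[X], f = X * H + C (q2 : ℤ) * v := by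
    refine ⟨C ((q1 : ℤ) ^ 2 * p ^ k) * u0 + C ((p : ℤ) ^ k * C1 * q1) + C B2 * (X * H - X ^ g) +
      C ((q1 : ℤ) ^ 2 * C3) * (P0 - X ^ g), ?_⟩
    rw [hf0, hNZ]
    simp only [r]
    have g1 : A1 * q1 = (q2 : ℤ) * (p ^ k * C1 * q1) := by rw [hA1']; ring
    have g2 : A2 = 1 + (q2 : ℤ) * B2 := by rw [hA2]
    have g3 : A3 = (q2 : ℤ) * (q1 ^ 2 * C3) := by rw [hA3']; ring
    rw [g1, g2, g3]
    simp only [C_add, C_mul, C_1]
    ring
  have e3 : ∃ v : ℤ[X], f = P0 + C ((p : ℤ) ^ k) * v := by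
    refine ⟨C ((q1 : ℤ) ^ 2 * q2) * u0 + C ((q2 : ℤ) * C1 * q1) + C ((q1 : ℤ) ^ 2 * C2) *
      (X * H - X ^ g) + C B3 * (P0 - X ^ g), ?_⟩
    rw [hf0, hNZ]
    simp only [r]
    have g1 : A1 * q1 = (p : ℤ) ^ k * (q2 * C1 * q1) := by rw [hA1']; ring
    have g2 : A2 = (p : ℤ) ^ k * (q1 ^ 2 * C2) := by rw [hA2']; ring
    have g3 : A3 = 1 + (p : ℤ) ^ k * B3 := by rw [hA3]
    rw [g1, g2, g3]
    simp only [C_add, C_mul, C_1]
    ring
  obtain ⟨v1, hv1⟩ := e1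
  obtain ⟨v2, hv2⟩ := e2
  obtain ⟨v3, hv3⟩ := e3
  refine ⟨f, hfm, hfd, ?_, real_roots g r hr T hT,
    padic_roots p g k f v3 hv3 (fun i hi => hk i (mem_range.2 hi)),
    q2, hq2F, H, hHm, hHd, hHi, ?_⟩
  · -- Eisenstein
    have hq1Z : Prime (q1 : ℤ) := Nat.prime_iff_prime_int.1 hq1p
    have hP : (Ideal.span {(q1 : ℤ)}).IsPrime := (Ideal.span_singleton_prime hq1Z.ne_zero).2 hq1Z
    have hdeg : f.degree = g := by rw [degree_eq_natDegree hfm.ne_zero, hfd]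
    apply irreducible_of_eisenstein_criterion hP
    · rw [hfm.leadingCoeff, Ideal.mem_span_singleton]
      exact hq1Z.not_dvd_one
    · intro n hn
      rw [hdeg] at hn
      have hn' : n < g := by exact_mod_cast hn
      rw [Ideal.mem_span_singleton, hv1]
      simp only [coeff_add, coeff_X_pow, coeff_C, coeff_C_mul, if_neg hn'.ne, zero_add]
      refine dvd_add ?_ (Dvd.dvd.mul_right (dvd_pow_self _ two_ne_zero) _)
      split_ifs
      · exact dvd_rfl
      · exact dvd_zero _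
    · rw [hdeg]
      exact_mod_cast (by omega : 0 < g)
    · rw [Ideal.span_singleton_pow, Ideal.mem_span_singleton, hv1]
      simp only [coeff_add, coeff_X_pow, coeff_C, coeff_C_mul, if_true,
        if_neg (by omega : (0 : ℕ) ≠ g), zero_add]
      intro h
      have h1 : (q1 : ℤ) ^ 2 ∣ q1 := (dvd_add_left (Dvd.intro _ rfl)).1 h
      have h2 : q1 ^ 2 ∣ q1 := by exact_mod_cast h1
      have h3 := Nat.le_of_dvd hq1p.pos h2
      have := hq1p.one_lt
      nlinarith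
    · exact hfm.isPrimitive
  · rw [hv2]
    simp

end Pool.Agent.H21.NP
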