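import Pool.Agent.H21.NP.D4
import Pool.Agent.H21.NP.Exot

/-!
# The sum of two squares relation
-/

set_option autoImplicit false
set_option linter.unusedSectionVars false

universe u

namespace Pool.Agent.H21.NP

open NumberField Module Pool.Agent.N90.FD Pool.Agent.N90.HE Pool.Agent.H21.TC
  Pool.Agent.H204R3.CM Pool.Agent.H485R3

/-- four values -/
def U4 (m : Fin 4 → ℚ) (a b : ZMod 2) : ℚ :=
  if a = 0 then (if b = 0 then m 0 else m 3) else (if b = 0 then m 2 else m 1)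

/-- the weights -/
def V4 (m : Fin 4 → ℚ) (x : ZMod 2 × ZMod 2 × ZMod 2) : ℚ := eps x.2.2 * U4 m x.1 x.2.1

/-- the relation -/
def C4 (m : Fin 4 → ℚ) (x : ZMod 2 × ZMod 2 × ZMod 2) : ℚ :=
  eps x.2.2 * (eps (x.1 + x.2.1) * U4 m x.1 x.2.1)

/-- the group law -/
def mul4 (g x : ZMod 2 × ZMod 2 × ZMod 2) : ZMod 2 × ZMod 2 × ZMod 2 :=
  (g.1 + x.1, g.2.1 + x.2.1, g.2.2 + x.2.2 + g.2.1 * x.1)

theorem zmod2 (x : ZMod 2) : x = 0 ∨ x = 1 := by
  revert x
  decide

theorem rel4 (m : Fin 4 → ℚ) (hm : m 0 ^ 2 + m 1 ^ 2 = m 2 ^ 2 + m 3 ^ 2)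
    (g : ZMod 2 × ZMod 2 × ZMod 2) : ∑ x, C4 m x * V4 m (mul4 g x) = 0 := by
  obtain ⟨α, β, γ⟩ := g
  have h2 : ∀ f : ZMod 2 → ℚ, ∑ x, f x = f 0 + f 1 := fun f => Fin.sum_univ_two f
  have e0 : (eps 0 : ℚ) = 1 := if_pos rfl
  have e1 : (eps 1 : ℚ) = -1 := if_neg one_ne_zero
  have h11 : (1 : ZMod 2) + 1 = 0 := rfl
  have h10 : (1 : ZMod 2) ≠ 0 := one_ne_zero
  rw [Fintype.sum_prod_type, h2]
  simp only [Fintype.sum_prod_type, h2]
  rcases zmod2 α with rfl | rfl <;> rcases zmod2 β with rfl | rfl <;>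
    rcases zmod2 γ with rfl | rfl <;>
    simp only [C4, V4, U4, mul4, zero_add, add_zero, zero_mul, mul_zero, one_mul, mul_one, h11, e0,
      e1, if_true, if_neg h10] <;> linarith

theorem triv4 (m : Fin 4 → ℚ) (h1 : ¬ ((m 0 = m 2 ∨ m 0 = - m 2) ∧ (m 1 = m 3 ∨ m 1 = - m 3)))
    (h2 : ¬ ((m 0 = m 3 ∨ m 0 = - m 3) ∧ (m 1 = m 2 ∨ m 1 = - m 2)))
    (x y : ZMod 2 × ZMod 2 × ZMod 2) (h : ∀ g, V4 m (mul4 g x) = V4 m (mul4 g y)) : x = y := by
  obtain ⟨a, b, s⟩ := x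
  obtain ⟨a', b', s'⟩ := y
  have e0 : (eps 0 : ℚ) = 1 := if_pos rfl
  have e1 : (eps 1 : ℚ) = -1 := if_neg one_ne_zero
  have h11 : (1 : ZMod 2) + 1 = 0 := rfl
  have h10 : (1 : ZMod 2) ≠ 0 := one_ne_zero
  have key : ∀ A B : ZMod 2, U4 m A B =
      eps ((s + s') + (B + b) * (a + a')) * U4 m (A + (a + a')) (B + (b + b')) := by
    intro A B
    have h3 := h (A + a, B + b, s + (B + b) * a)
    simp only [V4, mul4] at h3
    have j1 : ∀ A a : ZMod 2, A + a + a = A := by decide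
    have j3 : ∀ s z : ZMod 2, s + z + s + z = 0 := by decide
    have i1 : A + a + a = A := j1 _ _
    have i2 : B + b + b = B := j1 _ _
    have i3 : s + (B + b) * a + s + (B + b) * a = 0 := j3 _ _
    have i4 : s + (B + b) * a + s' + (B + b) * a' = (s + s') + (B + b) * (a + a') := by ring
    have i5 : A + a + a' = A + (a + a') := by ring
    have i6 : B + b + b' = B + (b + b') := by ring
    rw [i1, i2, i3, i4, i5, i6, e0, one_mul] at h3
    exact h3
  have k00 := key 0 0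
  have k01 := key 0 1
  have k10 := key 1 0
  have k11 := key 1 1
  have hab : ∀ x y : ZMod 2, x + y = 0 → x = y := by decide
  have heps : ∀ z : ZMod 2, (eps z : ℚ) = 1 ∨ (eps z : ℚ) = -1 := by
    intro z
    rcases zmod2 z with rfl | rfl
    · exact Or.inl e0
    · exact Or.inr e1
  have hpm : ∀ (z : ZMod 2) (u v : ℚ), u = eps z * v → u = v ∨ u = - v := by
    intro z u v huv
    rcases heps z with h3 | h3
    · left
      rw [huv, h3, one_mul]
    · right
      rw [huv, h3, neg_one_mul]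
  rcases zmod2 (a + a') with ha | ha <;> rcases zmod2 (b + b') with hb | hb
  · rcases zmod2 (s + s') with hs | hs
    · rw [hab _ _ ha, hab _ _ hb, hab _ _ hs]
    · exfalso
      simp only [ha, hb, hs, mul_zero, add_zero, e1, U4, if_true, if_neg h10] at k00 k01 k10 k11
      apply h1
      refine ⟨Or.inl ?_, Or.inl ?_⟩ <;> linarith
  · exfalso
    simp only [ha, hb, mul_zero, add_zero, zero_add, h11, U4, if_true, if_neg h10] at k00 k01 k10 k11
    exact h2 ⟨hpm _ _ _ k00, hpm _ _ _ k11⟩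
  · exfalso
    simp only [ha, hb, mul_one, add_zero, zero_add, h11, U4, if_true, if_neg h10] at k00 k01 k10 k11
    exact h1 ⟨hpm _ _ _ k00, hpm _ _ _ k11⟩
  · exfalso
    simp only [ha, hb, mul_one, add_zero, zero_add, h11, U4, if_true, if_neg h10] at k00 k01 k10 k11
    have hz : ∀ z : ZMod 2, (eps (z + (1 + b)) : ℚ) = - eps (z + b) := by
      intro z
      have : z + (1 + b) = (z + b) + 1 := by ring
      rw [this, eps_add, e1]
      ring
    rw [hz] at k01 k11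
    rcases heps (s + s' + b) with h3 | h3
    · rw [h3] at k00 k01 k10 k11
      apply h1
      refine ⟨Or.inl ?_, Or.inl ?_⟩ <;> linarith
    · rw [h3] at k00 k01 k10 k11
      apply h1
      refine ⟨Or.inl ?_, Or.inl ?_⟩ <;> linarith

/-- the group -/
def Z4 : (ZMod 2 × ZMod 2 × ZMod 2) ≃ HG 1 (3 ^ 0) where
  toFun x := ⟨fun _ => x.1, fun _ => x.2.1, x.2.2, 0⟩
  invFun x := (x.a 0, x.b 0, x.s)
  left_inv _ := rfl
  right_inv x := by
    ext1
    · funext i
      rw [Subsingleton.elim i 0]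
    · funext i
      rw [Subsingleton.elim i 0]
    · rfl
    · have hsub : Subsingleton (ZMod (3 ^ 0)) := by
        rw [pow_zero]
        exact inferInstanceAs (Subsingleton (ZMod 1))
      exact Subsingleton.elim _ _

theorem Z4_mul (x y : HG 1 (3 ^ 0)) : Z4.symm (x * y) = mul4 (Z4.symm x) (Z4.symm y) := by
  have h1 : x.b ⬝ᵥ y.a = x.b 0 * y.a 0 := by simp [dotProduct]
  simp only [Z4, mul4, Equiv.coe_fn_symm_mk, HG.mul_a, HG.mul_b, HG.mul_s, h1, Pi.add_apply]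

/-- the enumeration of the group -/
def E4 : Fin 4 ⊕ Fin 4 → ZMod 2 × ZMod 2 × ZMod 2
  | Sum.inl i => (![0, 1, 1, 0] i, ![0, 1, 0, 1] i, 0)
  | Sum.inr i => (![0, 1, 1, 0] i, ![0, 1, 0, 1] i, 1)

theorem E4_bij : Function.Bijective E4 := by
  constructor
  · decide
  · decide

theorem not_rigid_of_square (Ω : Type u) [Field Ω] [IsAlgClosed Ω] [CharZero Ω] (p : ℕ)
    [Fact p.Prime] {g : ℕ} (s : Fin g → ℚ) (hs01 : ∀ j, 0 ≤ s j ∧ s j ≤ 1) (hsq : SquareRel s)
    (hz : ¬ ZeroSum s) : ¬ Rigid Ω p s := by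
  classical
  obtain ⟨e, he⟩ := hsq
  obtain ⟨K, _, _, _, _, ι, hι, hsplit⟩ := exists_dihedral p
  let m : Fin 4 → ℚ := fun i => 1 - 2 * s (e i)
  -- a signed sum
  have hzero : ∀ (i j k l : Fin 4), (∀ x : Fin 4, x = i ∨ x = j ∨ x = k ∨ x = l) → [i, j, k, l].Nodup →
      (m i = m j ∨ m i = - m j) → (m k = m l ∨ m k = - m l) → ZeroSum s := by
    intro i j k l hall hnd hij hkl
    obtain ⟨a, ha⟩ : ∃ a : ℤˣ, m i + (a : ℤ) * m j = 0 := by
      rcases hij with h | h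
      · exact ⟨-1, by rw [h]; simp⟩
      · exact ⟨1, by rw [h]; simp⟩
    obtain ⟨b, hb⟩ : ∃ b : ℤˣ, m k + (b : ℤ) * m l = 0 := by
      rcases hkl with h | h
      · exact ⟨-1, by rw [h]; simp⟩
      · exact ⟨1, by rw [h]; simp⟩
    let δ : Fin 4 → ℤˣ := fun x => if x = j then a else if x = l then b else 1
    refine ⟨fun x => δ (e.symm x), ?_⟩
    rw [← Equiv.sum_comp e]
    simp only [Equiv.symm_apply_apply]
    simp only [List.nodup_cons, List.mem_cons, not_or, List.not_mem_nil, not_false_eq_true,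
      and_true, List.nodup_nil] at hnd
    obtain ⟨⟨h1, h2, h3⟩, ⟨h4, h5⟩, h6⟩ := hnd
    have huniv : (Finset.univ : Finset (Fin 4)) = {i, j, k, l} := by
      ext x
      simp only [Finset.mem_univ, Finset.mem_insert, Finset.mem_singleton, true_iff]
      exact hall x
    have hi : δ i = 1 := by simp only [δ, if_neg h1, if_neg h3]
    have hj : δ j = a := by simp only [δ, if_true]
    have hk : δ k = 1 := by simp only [δ, if_neg (Ne.symm h4), if_neg h6]
    have hl : δ l = b := by simp only [δ, if_neg (Ne.symm h5), if_true]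
    rw [huniv, Finset.sum_insert (by simp [h1, h2, h3]), Finset.sum_insert (by simp [h4, h5]),
      Finset.sum_insert (by simp [h6]), Finset.sum_singleton, hi, hj, hk, hl]
    simp only [m] at ha hb
    push_cast at ha hb ⊢
    linarith
  have hm1 : ¬ ((m 0 = m 2 ∨ m 0 = - m 2) ∧ (m 1 = m 3 ∨ m 1 = - m 3)) := fun h =>
    hz (hzero 0 2 1 3 (by decide) (by decide) h.1 h.2)
  have hm2 : ¬ ((m 0 = m 3 ∨ m 0 = - m 3) ∧ (m 1 = m 2 ∨ m 1 = - m 2)) := fun h =>
    hz (hzero 0 3 1 2 (by decide) (by decide) h.1 h.2)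
  obtain ⟨j, h⟩ := exists_self_emb K
  -- the embeddings and the group
  let ψ : (K →+* ℂ) ≃ (ZMod 2 × ZMod 2 × ZMod 2) :=
    ((embE j h).symm.trans (galE K).symm).trans (ι.toEquiv.trans Z4.symm)
  have hψ : ∀ k : K ≃ₐ[ℚ] K, ψ (embE j h (galE K k)) = Z4.symm (ι k) := by
    intro k
    simp only [ψ, Equiv.trans_apply, Equiv.symm_apply_apply]
    rfl
  have hconj : ∀ x, ψ (ComplexEmbedding.conjugate x) = ((ψ x).1, (ψ x).2.1, (ψ x).2.2 + 1) := by
    intro x
    obtain ⟨y, rfl⟩ := (embE j h).surjective x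
    obtain ⟨k, rfl⟩ := (galE K).surjective y
    rw [← embE_cbar, ← galE_conj, hψ, hψ, map_mul, Z4_mul]
    have h1 : ι (conjAut K) = HG.c 1 (3 ^ 0) := hι _ fun x => rfl
    rw [h1]
    simp only [mul4, Z4, HG.c, Equiv.coe_fn_symm_mk, Pi.zero_apply, add_zero, mul_zero]
  have hperm : ∀ σ ∈ PC K, ∃ g, ∀ x, ψ (σ x) = mul4 g (ψ x) := by
    rintro _ ⟨τ, rfl⟩
    obtain ⟨k, hk⟩ := Pool.Agent.H977R3.CM.exists_gal j τ
    refine ⟨Z4.symm (ι k), fun x => ?_⟩
    obtain ⟨y, rfl⟩ := (embE j h).surjective x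
    obtain ⟨l, rfl⟩ := (galE K).surjective y
    rw [embE_smul j h hk, ← galE_smul, hψ, hψ, map_mul, Z4_mul]
  have hperm' : ∀ g, ∃ σ ∈ PC K, ∀ x, ψ (σ x) = mul4 g (ψ x) := by
    intro g
    obtain ⟨k, hk⟩ : ∃ k : K ≃ₐ[ℚ] K, Z4.symm (ι k) = g := by
      refine ⟨ι.symm (Z4 g), ?_⟩
      rw [MulEquiv.apply_symm_apply, Equiv.symm_apply_apply]
    obtain ⟨τ, hτ⟩ := Pool.Agent.H977R3.CM.exists_aut j (k : K ≃+* K)
    refine ⟨permOf K τ, permOf_mem τ, fun x => ?_⟩
    obtain ⟨y, rfl⟩ := (embE j h).surjective x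
    obtain ⟨l, rfl⟩ := (galE K).surjective y
    rw [embE_smul j h hτ, ← galE_smul, hψ, hψ, map_mul, Z4_mul, hk]
  let T0 : Fin 4 ⊕ Fin 4 ≃ (K →+* ℂ) := (Equiv.ofBijective E4 E4_bij).trans ψ.symm
  have hT0 : ∀ y, ψ (T0 y) = E4 y := by
    intro y
    simp only [T0, Equiv.trans_apply, Equiv.apply_symm_apply]
    rfl
  let T : Fin g ⊕ Fin g ≃ (K →+* ℂ) := (Equiv.sumCongr e.symm e.symm).trans T0
  have he1 : (eps 1 : ℚ) = -1 := if_neg one_ne_zero
  refine not_rigid Ω p K hsplit s hs01 T ?_ (fun _ => 1) (fun x => V4 m (ψ x)) ?_ ?_ ?_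
    (fun x => C4 m (ψ x)) ?_ ?_ ?_
  · intro i
    apply ψ.injective
    rw [hconj]
    simp only [T, Equiv.trans_apply, Equiv.sumCongr_apply, Sum.map_inl, Sum.map_inr, hT0, E4]
    rw [zero_add]
  · intro i
    simp only [T, Equiv.trans_apply, Equiv.sumCongr_apply, Sum.map_inl, hT0]
    have h1 : ∀ k : Fin 4, V4 m (E4 (Sum.inl k)) = m k := by
      intro k
      have e0 : (eps 0 : ℚ) = 1 := if_pos rfl
      fin_cases k <;> simp [V4, E4, U4, e0]
    rw [h1]
    simp only [m, Equiv.apply_symm_apply]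
    simp
  · intro x
    rw [hconj]
    simp only [V4, eps_add, he1]
    ring
  · intro x y hxy
    apply ψ.injective
    refine triv4 m hm1 hm2 _ _ fun g => ?_
    obtain ⟨σ, hσ, hσ'⟩ := hperm' g
    rw [← hσ', ← hσ']
    exact hxy σ hσ
  · intro x
    rw [hconj]
    simp only [C4, eps_add, he1]
    ring
  · intro σ hσ
    obtain ⟨g, hg⟩ := hperm σ hσ
    rw [← rel4 m he g]
    refine Fintype.sum_equiv ψ _ _ fun x => ?_
    rw [hg]
  · intro h0
    have h1 : ∀ x, C4 m x = 0 := by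
      intro x
      have := congrFun h0 (ψ.symm x)
      simp only [Equiv.apply_symm_apply, Pi.zero_apply] at this
      exact this
    have e0 : (eps 0 : ℚ) = 1 := if_pos rfl
    have h11 : (1 : ZMod 2) + 1 = 0 := rfl
    have h00 := h1 (0, 0, 0)
    have h01 := h1 (0, 1, 0)
    have h10 := h1 (1, 0, 0)
    have h11' := h1 (1, 1, 0)
    simp [C4, U4, e0, h11, he1] at h00 h01 h10 h11'
    apply hm1
    rw [h00, h01, h10, h11']
    simp

end Pool.Agent.H21.NP
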