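import Mathlib

/-!
# Squares of `p`-adic integers and numbers with given residues
-/

set_option autoImplicit false

namespace Pool.Agent.H21.NP

open Polynomial

section padic

variable {p : ℕ} [hpf : Fact p.Prime]

theorem exists_sqrt (a u : ℤ_[p]) (h : ‖u ^ 2 - a‖ < ‖2 * u‖ ^ 2) :
    ∃ z : ℤ_[p], z ^ 2 = a ∧ ‖z - u‖ < ‖2 * u‖ := by
  have h1 : (X ^ 2 - C a : ℤ_[p][X]).aeval u = u ^ 2 - a := by simp
  have h2 : (X ^ 2 - C a : ℤ_[p][X]).derivative.aeval u = 2 * u := by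
    simp
    left
    norm_num
  obtain ⟨z, hz, hz', -, -⟩ := hensels_lemma (F := (X ^ 2 - C a : ℤ_[p][X])) (a := u)
    (by rw [h1, h2]; exact h)
  rw [h2] at hz'
  refine ⟨z, ?_, hz'⟩
  have h3 : (X ^ 2 - C a : ℤ_[p][X]).aeval z = z ^ 2 - a := by simp
  rw [h3] at hz
  exact sub_eq_zero.1 hz

theorem norm_p_lt : ‖(p : ℤ_[p])‖ < 1 := by
  rw [PadicInt.norm_p]
  exact inv_lt_one_of_one_lt₀ (by exact_mod_cast hpf.out.one_lt)

theorem norm_mul_lt {a b c : ℤ_[p]} (hb : b ≠ 0) (h : a = b * c) (hc : ‖c‖ < 1) : ‖a‖ < ‖b‖ := by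
  rw [h, norm_mul]
  exact mul_lt_of_lt_one_right (norm_pos_iff.2 hb) hc

theorem norm_mul_p_lt (c : ℤ_[p]) : ‖c * p‖ < 1 := by
  rw [norm_mul]
  exact (mul_le_of_le_one_left (norm_nonneg _) (PadicInt.norm_le_one c)).trans_lt norm_p_lt

/-- `1 - 8 p` is a square. -/
theorem sqrt_one_sub : ∃ z : ℤ_[p], z ^ 2 = 1 - 8 * p := by
  obtain ⟨z, hz, -⟩ := exists_sqrt (p := p) (1 - 8 * p) 1 (by
    rw [← norm_pow]
    refine norm_mul_lt (b := (2 * 1) ^ 2) (c := 2 * p) (by norm_num) (by ring) (norm_mul_p_lt _))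
  exact ⟨z, hz⟩

/-- The square roots in the dihedral case. -/
theorem exists_roots (d x k l : ℤ) (hd : d = 16 + 1728 * p * k) (hx : x = -5 + 1728 * p * l) :
    ∃ r t θ : ℤ_[p], r ^ 2 = d ∧ t ^ 2 = x ^ 2 - d ∧ θ ^ 2 = -(x + r) := by
  have h20 : (2 : ℤ_[p]) ≠ 0 := two_ne_zero
  obtain ⟨r, hr, hr'⟩ := exists_sqrt (p := p) d 4 (by
    rw [← norm_pow]
    refine norm_mul_lt (b := (2 * 4) ^ 2) (c := -(27 * k) * p) (by norm_num) ?_ (norm_mul_p_lt _)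
    rw [hd]
    push_cast
    ring)
  obtain ⟨t, ht, -⟩ := exists_sqrt (p := p) (x ^ 2 - d) 3 (by
    rw [← norm_pow]
    refine norm_mul_lt (b := (2 * 3) ^ 2)
      (c := (48 * k - 48 * l * (1728 * p * l - 10)) * p) (by norm_num) ?_ (norm_mul_p_lt _)
    rw [hd, hx]
    push_cast
    ring)
  -- the distance of `r` from `4`
  have h8 : (8 : ℤ_[p]) ≠ 0 := by norm_num
  have h1 : ‖r + 4‖ = ‖(8 : ℤ_[p])‖ := by
    have h2 : r + 4 = 8 + (r - 4) := by ring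
    rw [h2]
    apply PadicInt.norm_add_eq_max_of_ne ?_ |>.trans
    · rw [max_eq_left]
      have : (2 * 4 : ℤ_[p]) = 8 := by norm_num
      rw [this] at hr'
      exact hr'.le
    · have : (2 * 4 : ℤ_[p]) = 8 := by norm_num
      rw [this] at hr'
      exact hr'.ne'
  have h3 : ‖r - 4‖ ≤ ‖(216 * p : ℤ_[p])‖ := by
    have h5 : (r - 4) * (r + 4) = (216 * p * 8) * k := by
      have h6 : (r - 4) * (r + 4) = r ^ 2 - 16 := by ring
      rw [h6, hr, hd]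
      push_cast
      ring
    have h4 : ‖r - 4‖ * ‖(8 : ℤ_[p])‖ ≤ ‖(216 * p : ℤ_[p])‖ * ‖(8 : ℤ_[p])‖ := by
      have h6 : ‖r - 4‖ * ‖(8 : ℤ_[p])‖ = ‖(216 * p * 8 : ℤ_[p]) * (k : ℤ_[p])‖ := by
        rw [← h1, ← norm_mul, h5]
      rw [h6, ← norm_mul, norm_mul (216 * p * 8 : ℤ_[p]) (k : ℤ_[p])]
      exact mul_le_of_le_one_right (norm_nonneg _) (PadicInt.norm_le_one _)
    exact le_of_mul_le_mul_right h4 (norm_pos_iff.2 h8)
  obtain ⟨θ, hθ, -⟩ := exists_sqrt (p := p) (-(x + r)) 1 (by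
    have h5 : (1 : ℤ_[p]) ^ 2 - -(x + r) = (r - 4) + (1728 * p * l) := by
      rw [hx]
      push_cast
      ring
    rw [h5]
    have h6 : ‖(216 * p : ℤ_[p])‖ < ‖(2 * 1 : ℤ_[p])‖ ^ 2 := by
      rw [← norm_pow]
      exact norm_mul_lt (b := (2 * 1) ^ 2) (c := 54 * p) (by norm_num) (by ring) (norm_mul_p_lt _)
    have h7 : ‖(1728 * p * l : ℤ_[p])‖ < ‖(2 * 1 : ℤ_[p])‖ ^ 2 := by
      rw [← norm_pow]
      exact norm_mul_lt (b := (2 * 1) ^ 2) (c := (432 * l) * p) (by norm_num) (by ring)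
        (norm_mul_p_lt _)
    exact (PadicInt.nonarchimedean _ _).trans_lt (max_lt (h3.trans_lt h6) h7))
  exact ⟨r, t, θ, hr, ht, hθ⟩

end padic

/-- The numbers in the dihedral case. -/
theorem exists_numbers (p : ℕ) (hp : p.Prime) : ∃ (d N x : ℕ) (k l : ℤ), 0 < d ∧ 0 < N ∧
    x ^ 2 = d + N ∧ ¬ IsSquare d ∧ ¬ IsSquare N ∧ ¬ IsSquare (d * N) ∧
    (d : ℤ) = 16 + 1728 * p * k ∧ (x : ℤ) = -5 + 1728 * p * l := by
  obtain ⟨l1, hl1, hl1p⟩ := Nat.exists_infinite_primes (1728 * p + 1)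
  obtain ⟨l2, hl2, hl2p⟩ := Nat.exists_infinite_primes (l1 + 1)
  have hp0 := hp.pos
  have c1 : Nat.Coprime (1728 * p) (l1 ^ 2) := by
    apply Nat.Coprime.pow_right
    rw [Nat.coprime_comm, hl1p.coprime_iff_not_dvd]
    intro h
    exact absurd (Nat.le_of_dvd (by positivity) h) (by omega)
  have c2 : Nat.Coprime (1728 * p * l1 ^ 2) (l2 ^ 2) := by
    apply Nat.Coprime.pow_right
    rw [Nat.coprime_comm, hl2p.coprime_iff_not_dvd]
    intro h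
    rcases (Nat.Prime.dvd_mul hl2p).1 h with h | h
    · exact absurd (Nat.le_of_dvd (by positivity) h) (by omega)
    · have h3 := hl2p.dvd_of_dvd_pow h
      exact absurd (Nat.le_of_dvd hl1p.pos h3) (by omega)
  have hl12 : 1 < l1 := hl1p.one_lt
  have hl22 : 1 < l2 := hl2p.one_lt
  -- the first number
  obtain ⟨d1, hd1, hd1'⟩ := Nat.chineseRemainder c1 16 l1
  obtain ⟨d2, hd2, hd2'⟩ := Nat.chineseRemainder c2 d1 (l2 ^ 2 + 1 - l2)
  obtain ⟨x1, hx1, hx1'⟩ := Nat.chineseRemainder c1 (1728 * p - 5) 1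
  obtain ⟨x2, hx2, hx2'⟩ := Nat.chineseRemainder c2 x1 1
  let Q := 1728 * p * l1 ^ 2 * l2 ^ 2
  have hQ : 0 < Q := by positivity
  let d := d2 + Q
  let x := x2 + Q * (d + 1)
  have hxd : d < x ^ 2 := by
    have h1 : d + 1 ≤ x := by
      have : d + 1 ≤ Q * (d + 1) := Nat.le_mul_of_pos_left _ hQ
      omega
    nlinarith
  have md1 : (d : ℤ) ≡ 16 [ZMOD (1728 * p : ℕ)] := by
    have h1 : d ≡ 16 [MOD 1728 * p] := by
      have h2 : d2 ≡ 16 [MOD 1728 * p] := (hd2.of_dvd (Dvd.intro _ rfl)).trans hd1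
      exact (Nat.ModEq.add h2 ((Nat.modEq_zero_iff_dvd).2 ⟨l1 ^ 2 * l2 ^ 2, by
        simp only [Q]; ring⟩)).trans (by rfl)
    exact_mod_cast (Int.natCast_modEq_iff).2 h1
  have md2 : (d : ℤ) ≡ l1 [ZMOD (l1 ^ 2 : ℕ)] := by
    have h1 : d ≡ l1 [MOD l1 ^ 2] := by
      have h2 : d2 ≡ l1 [MOD l1 ^ 2] := (hd2.of_dvd (Dvd.intro_left _ rfl)).trans hd1'
      exact (Nat.ModEq.add h2 ((Nat.modEq_zero_iff_dvd).2 ⟨1728 * p * l2 ^ 2, by
        simp only [Q]; ring⟩)).trans (by rfl)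
    exact (Int.natCast_modEq_iff).2 h1
  have md3 : (d : ℤ) ≡ 1 - l2 [ZMOD (l2 ^ 2 : ℕ)] := by
    have h1 : d ≡ l2 ^ 2 + 1 - l2 [MOD l2 ^ 2] := by
      exact (Nat.ModEq.add hd2' ((Nat.modEq_zero_iff_dvd).2 ⟨1728 * p * l1 ^ 2, by
        simp only [Q]; ring⟩)).trans (by rfl)
    have h2 := (Int.natCast_modEq_iff).2 h1
    have h3 : l2 ≤ l2 ^ 2 + 1 := by nlinarith
    rw [Nat.cast_sub h3] at h2
    refine h2.trans ?_
    rw [Int.modEq_iff_dvd]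
    refine ⟨-1, ?_⟩
    push_cast
    ring
  have mx1 : (x : ℤ) ≡ -5 [ZMOD (1728 * p : ℕ)] := by
    have h1 : x ≡ 1728 * p - 5 [MOD 1728 * p] := by
      have h2 : x2 ≡ 1728 * p - 5 [MOD 1728 * p] := (hx2.of_dvd (Dvd.intro _ rfl)).trans hx1
      exact (Nat.ModEq.add h2 ((Nat.modEq_zero_iff_dvd).2 ⟨l1 ^ 2 * l2 ^ 2 * (d + 1), by
        simp only [Q]; ring⟩)).trans (by rfl)
    have h2 := (Int.natCast_modEq_iff).2 h1
    rw [Nat.cast_sub (by omega)] at h2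
    refine h2.trans ?_
    rw [Int.modEq_iff_dvd]
    refine ⟨-1, ?_⟩
    push_cast
    ring
  have mx2 : (x : ℤ) ≡ 1 [ZMOD (l1 ^ 2 : ℕ)] := by
    have h1 : x ≡ 1 [MOD l1 ^ 2] := by
      have h2 : x2 ≡ 1 [MOD l1 ^ 2] := (hx2.of_dvd (Dvd.intro_left _ rfl)).trans hx1'
      exact (Nat.ModEq.add h2 ((Nat.modEq_zero_iff_dvd).2 ⟨1728 * p * l2 ^ 2 * (d + 1), by
        simp only [Q]; ring⟩)).trans (by rfl)
    exact_mod_cast (Int.natCast_modEq_iff).2 h1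
  have mx3 : (x : ℤ) ≡ 1 [ZMOD (l2 ^ 2 : ℕ)] := by
    have h1 : x ≡ 1 [MOD l2 ^ 2] := by
      exact (Nat.ModEq.add hx2' ((Nat.modEq_zero_iff_dvd).2 ⟨1728 * p * l1 ^ 2 * (d + 1), by
        simp only [Q]; ring⟩)).trans (by rfl)
    exact_mod_cast (Int.natCast_modEq_iff).2 h1
  obtain ⟨k, hk⟩ := (Int.modEq_iff_dvd).1 md1.symm
  obtain ⟨l, hl⟩ := (Int.modEq_iff_dvd).1 mx1.symm
  let N := x ^ 2 - d
  have hN : (N : ℤ) = x ^ 2 - d := by
    simp only [N]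
    rw [Nat.cast_sub hxd.le]
    push_cast
    rfl
  have mN2 : (N : ℤ) ≡ 1 - l1 [ZMOD (l1 ^ 2 : ℕ)] := by
    rw [hN]
    have h1 := (mx2.pow 2).sub md2
    rw [one_pow] at h1
    exact h1
  have mN3 : (N : ℤ) ≡ l2 [ZMOD (l2 ^ 2 : ℕ)] := by
    rw [hN]
    have h1 := (mx3.pow 2).sub md3
    rw [one_pow] at h1
    have h2 : (1 : ℤ) - (1 - l2) = l2 := by ring
    rwa [h2] at h1
  have hd0 : 0 < d := Nat.add_pos_right _ hQ
  -- divisibility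
  have key : ∀ (q : ℕ), q.Prime → ∀ n : ℕ, (n : ℤ) ≡ q [ZMOD (q ^ 2 : ℕ)] →
      q ∣ n ∧ ¬ q ^ 2 ∣ n := by
    intro q hq n hn
    have h1 : n ≡ q [MOD q ^ 2] := (Int.natCast_modEq_iff).1 hn
    constructor
    · exact (Nat.ModEq.dvd_iff h1 (Dvd.intro _ (by ring : q * q = q ^ 2))).2 dvd_rfl
    · intro h
      have h2 := (Nat.ModEq.dvd_iff h1 dvd_rfl).1 h
      have h3 := Nat.le_of_dvd hq.pos h2
      have := hq.one_lt
      nlinarith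
  obtain ⟨dd, dd'⟩ := key l1 hl1p d md2
  obtain ⟨dN, dN'⟩ := key l2 hl2p N mN3
  have nN : ¬ l1 ∣ N := by
    intro h
    have h1 : (l1 : ℤ) ∣ N := Int.natCast_dvd_natCast.2 h
    have h2 : (l1 : ℤ) ∣ ((l1 ^ 2 : ℕ) : ℤ) := by
      refine ⟨l1, ?_⟩
      push_cast
      ring
    have h3 := (Int.modEq_iff_dvd).1 mN2
    have h4 := h2.trans h3
    have h5 : (l1 : ℤ) ∣ 1 := by
      have h6 : (1 : ℤ) = (1 - l1 - N) + N + l1 := by ring
      rw [h6]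
      exact (h4.add h1).add dvd_rfl
    have h6 : l1 ∣ 1 := by exact_mod_cast h5
    exact hl1p.one_lt.ne' (Nat.dvd_one.1 h6)
  have sq : ∀ (q : ℕ), q.Prime → ∀ n : ℕ, q ∣ n → ¬ q ^ 2 ∣ n → ¬ IsSquare n := by
    rintro q hq n h1 h2 ⟨y, rfl⟩
    rcases (Nat.Prime.dvd_mul hq).1 h1 with h | h
    · apply h2
      rw [sq]
      exact mul_dvd_mul h h
    · apply h2
      rw [sq]
      exact mul_dvd_mul h h
  refine ⟨d, N, x, k, l, hd0, Nat.sub_pos_of_lt hxd, ?_, sq l1 hl1p d dd dd', sq l2 hl2p N dN dN',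
    sq l1 hl1p _ (dvd_mul_of_dvd_left dd _) ?_, ?_, ?_⟩
  · simp only [N]
    omega
  · intro h
    apply dd'
    exact (Nat.Coprime.dvd_of_dvd_mul_right
      (Nat.Coprime.pow_left 2 ((Nat.Prime.coprime_iff_not_dvd hl1p).2 nN)) h)
  · push_cast at hk
    linarith
  · push_cast at hl
    linarith

end Pool.Agent.H21.NP
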