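import Pool.Agent.H21.NP.Dbl
import Pool.Agent.H21.NP.Poly
import Pool.Agent.H21.NP.D4
import Pool.Agent.H21.TC.GMain

/-!
# CM fields of the form `K₀(√-D)` with a doubly transitive group
-/

set_option autoImplicit false
set_option linter.unusedSectionVars false

namespace Pool.Agent.H21.NP

open NumberField Module Pool.Agent.N90.FD Pool.Agent.H21.TC

/-- CM fields. -/
theorem isCM_of_conj (F : Type) [Field F] [NumberField F] (c : F ≃ₐ[ℚ] F)
    (hc : ∀ (φ : F →+* ℂ) (x : F), φ (c x) = starRingEnd ℂ (φ x)) (hc1 : c ≠ 1) :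
    IsCMField F := by
  have hcc : c * c = 1 := by
    obtain ⟨φ⟩ : Nonempty (F →+* ℂ) := inferInstance
    ext x
    apply φ.injective
    change φ (c (c x)) = φ x
    rw [hc, hc, Complex.conj_conj]
  have hcard : Nat.card (Subgroup.zpowers c) = 2 := by
    rw [Nat.card_zpowers]
    exact orderOf_eq_prime (by rw [pow_two, hcc]) hc1
  let E : IntermediateField ℚ F := IntermediateField.fixedField (Subgroup.zpowers c)
  have hreal : IsTotallyReal E := by
    refine ⟨fun w => ?_⟩
    rw [InfinitePlace.isReal_iff]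
    let ψ : E →+* ℂ := w.embedding
    let _ : Algebra E ℂ := ψ.toAlgebra
    let φ : F →ₐ[E] ℂ := IsAlgClosed.lift
    have hφ : ∀ x : E, φ x = ψ x := fun x => φ.commutes x
    refine RingHom.ext fun x => ?_
    change starRingEnd ℂ (ψ x) = ψ x
    rw [← hφ]
    have h1 := hc (φ : F →+* ℂ) (x : F)
    have h2 : c (x : F) = x := (IntermediateField.mem_fixedField_iff _ _).1 x.2 c
      (Subgroup.mem_zpowers c)
    rw [h2] at h1
    exact h1.symm
  have hcx : IsTotallyComplex F := by
    refine ⟨fun w => ?_⟩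
    rw [InfinitePlace.isComplex_iff]
    intro hr
    apply hc1
    ext x
    apply w.embedding.injective
    change w.embedding (c x) = w.embedding x
    rw [hc]
    exact RingHom.congr_fun hr x
  have hq : Algebra.IsQuadraticExtension E F := by
    refine ⟨?_⟩
    rw [IntermediateField.finrank_fixedField_eq_card, hcard]
  exact IsCMField.ofCMExtension E F

theorem mem_of_root {K : Type*} [Field K] {g : ℕ} (f : Polynomial ℤ) (hf : f.Monic)
    (hd : f.natDegree = g) (α : Fin g → K) (hα : Function.Injective α)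
    (hr : ∀ i, Polynomial.aeval (α i) f = 0) (y : K) (hy : Polynomial.aeval y f = 0) :
    ∃ i, y = α i := by
  classical
  by_contra hno
  push Not at hno
  let P : Polynomial K := f.map (Int.castRingHom K)
  have hP : P ≠ 0 := (hf.map _).ne_zero
  have hroot : ∀ z : K, Polynomial.aeval z f = 0 → z ∈ P.roots := by
    intro z hz
    rw [Polynomial.mem_roots hP, Polynomial.IsRoot, Polynomial.eval_map, ← hz,
      Polynomial.aeval_def]
    congr 1
  have h1 : insert y (Finset.univ.image α) ⊆ P.roots.toFinset := by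
    intro z hz
    rw [Multiset.mem_toFinset]
    rcases Finset.mem_insert.1 hz with rfl | hz
    · exact hroot _ hy
    · obtain ⟨i, -, rfl⟩ := Finset.mem_image.1 hz
      exact hroot _ (hr i)
  have h2 := Finset.card_le_card h1
  have h3 : y ∉ Finset.univ.image α := by
    intro h
    obtain ⟨i, -, hi⟩ := Finset.mem_image.1 h
    exact hno i hi.symm
  rw [Finset.card_insert_of_notMem h3, Finset.card_image_of_injective _ hα, Finset.card_univ,
    Fintype.card_fin] at h2
  have h4 := Multiset.toFinset_card_le P.roots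
  have h5 := P.card_roots'
  have h6 : P.natDegree = g := by
    simp only [P]
    rw [hf.natDegree_map, hd]
  omega

theorem adjoin_hom_ext {A : Type*} [Field A] [Algebra ℚ A] {S : Set QQ}
    (φ ψ : (IntermediateField.adjoin ℚ S) →+* A)
    (h : ∀ x (hx : x ∈ S), φ ⟨x, IntermediateField.subset_adjoin ℚ S hx⟩ =
      ψ ⟨x, IntermediateField.subset_adjoin ℚ S hx⟩) : φ = ψ := by
  have h1 : φ.toRatAlgHom = ψ.toRatAlgHom :=
    IntermediateField.adjoin_algHom_ext ℚ fun x hx => h x hx
  exact RingHom.ext fun x => AlgHom.congr_fun h1 x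

open IntermediateField in
/-- **The field.** -/
theorem exists_total (p : ℕ) [Fact p.Prime] (g : ℕ) (hg : 3 ≤ g) :
    ∃ (F : Type) (_ : Field F) (_ : NumberField F) (_ : IsCMField F)
      (T : Fin g ⊕ Fin g ≃ (F →+* ℂ)),
      (∀ i, T (Sum.inr i) = ComplexEmbedding.conjugate (T (Sum.inl i))) ∧
      Nat.card (F →+* ℚ_[p]) = finrank ℚ F ∧
      (∀ σ ∈ PC F, ∃ π : Equiv.Perm (Fin g), (∀ i, σ (T (Sum.inl i)) = T (Sum.inl (π i))) ∨
        (∀ i, σ (T (Sum.inl i)) = T (Sum.inr (π i)))) ∧
      ∀ i j k l, i ≠ j → k ≠ l → ∃ σ ∈ PC F, σ (T (Sum.inl i)) = T (Sum.inl k) ∧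
        σ (T (Sum.inl j)) = T (Sum.inl l) := by
  classical
  have hp : p.Prime := Fact.out
  obtain ⟨f, hfm, hfd, hirr, ⟨ρ, hρi, hρ⟩, ⟨z, hzi, hz⟩, q, hqF, h, hhm, hhd, hhi, hfh⟩ :=
    exists_poly p g (by omega)
  -- the roots
  have hρC : ∀ i, Polynomial.aeval ((ρ i : ℝ) : ℂ) f = 0 := by
    intro i
    have h1 := Polynomial.aeval_algHom_apply (Complex.ofRealHom.toIntAlgHom) (ρ i) f
    rw [hρ, map_zero] at h1
    exact h1
  choose α hα hαr using fun i => exists_root_lift j0 f hfm ((ρ i : ℝ) : ℂ) (hρC i)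
  have hαi : Function.Injective α := by
    intro i j hij
    apply hρi
    have h1 := congrArg j0 hij
    rw [hα, hα] at h1
    exact_mod_cast h1
  have hall : ∀ y : QQ, Polynomial.aeval y f = 0 → ∃ i, y = α i :=
    mem_of_root f hfm hfd α hαi hαr
  have hr : ∀ (σ : QQ ≃ₐ[ℚ] QQ) (y : QQ), Polynomial.aeval y f = 0 →
      Polynomial.aeval (σ y) f = 0 := by
    intro σ y hy
    have h5 := congrArg σ hy
    rw [map_zero] at h5
    rw [← h5]
    exact (Polynomial.aeval_algHom_apply ((σ : QQ →ₐ[ℚ] QQ).restrictScalars ℤ) y f)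
  -- the square root
  obtain ⟨β, hβ⟩ := IsAlgClosed.exists_pow_nat_eq (((1 - 8 * (p : ℤ) : ℤ)) : QQ) (n := 2)
    (by norm_num)
  have hβσ : ∀ σ : QQ ≃ₐ[ℚ] QQ, σ β = β ∨ σ β = -β := by
    intro σ
    apply sq_eq_sq_iff_eq_or_eq_neg.1
    rw [← map_pow, hβ, map_intCast]
  obtain ⟨cc, hcc⟩ := exists_conj
  have hccα : ∀ i, cc (α i) = α i := by
    intro i
    apply j0.injective
    change j0 (cc (α i)) = j0 (α i)
    rw [hcc, hα, Complex.conj_ofReal]
  have hβ0 : β ≠ 0 := by
    rintro rfl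
    have h1 : (((1 - 8 * (p : ℤ) : ℤ)) : QQ) = 0 := by
      rw [← hβ]
      norm_num
    have h2 : (1 - 8 * (p : ℤ) : ℤ) = 0 := Int.cast_eq_zero.1 h1
    omega
  have hccβ : cc β = -β := by
    rcases hβσ cc with h1 | h1
    · exfalso
      have h2 := hcc β
      rw [h1] at h2
      have h3 : (j0 β).im = 0 := Complex.conj_eq_iff_im.1 h2.symm
      have h4 : (j0 β) ^ 2 = (((1 - 8 * (p : ℤ) : ℤ)) : ℂ) := by
        rw [← map_pow, hβ, map_intCast]
      have h5 : j0 β = ((j0 β).re : ℂ) := Complex.ext rfl (by rw [h3, Complex.ofReal_im])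
      rw [h5] at h4
      have h6 : ((j0 β).re) ^ 2 = (((1 - 8 * (p : ℤ) : ℤ)) : ℝ) := by exact_mod_cast h4
      push_cast at h6
      have h7 : (2 : ℝ) ≤ p := by exact_mod_cast hp.two_le
      nlinarith [sq_nonneg (j0 β).re]
    · exact h1
  have hjβ : j0 β ≠ -j0 β := by
    intro h1
    apply hβ0
    apply j0.injective
    rw [map_zero]
    have h2 : 2 * j0 β = 0 := by linear_combination h1
    exact (mul_eq_zero.1 h2).resolve_left two_ne_zero
  -- the field
  let i0 : Fin g := ⟨0, by omega⟩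
  let S : Set QQ := {α i0, β}
  let F : IntermediateField ℚ QQ := IntermediateField.adjoin ℚ S
  have hSα : α i0 ∈ S := Or.inl rfl
  have hSβ : β ∈ S := Or.inr rfl
  have hfd' : FiniteDimensional ℚ F := by
    have : Finite S := (Set.toFinite S).to_subtype
    exact IntermediateField.finiteDimensional_adjoin fun x _ => Algebra.IsIntegral.isIntegral x
  have hNF : NumberField F := NumberField.mk
  let a1 : F := ⟨α i0, IntermediateField.subset_adjoin ℚ S hSα⟩
  let b1 : F := ⟨β, IntermediateField.subset_adjoin ℚ S hSβ⟩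
  have hext : ∀ φ ψ : F →+* ℂ, φ a1 = ψ a1 → φ b1 = ψ b1 → φ = ψ := by
    intro φ ψ h1 h2
    refine adjoin_hom_ext φ ψ ?_
    rintro x (rfl | rfl)
    · exact h1
    · exact h2
  -- embeddings come from automorphisms of `QQ`
  have hemb : ∀ φ : F →+* ℂ, ∃ s : QQ ≃ₐ[ℚ] QQ, ∀ x : F, φ x = j0 (s x) := by
    intro φ
    let φ' : F →ₐ[ℚ] ℂ := φ.toRatAlgHom
    let _ : Algebra F ℂ := φ.toAlgebra
    have hst : IsScalarTower ℚ F ℂ := IsScalarTower.of_algebraMap_eq fun x => (φ'.commutes x).symm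
    let τ0 : QQ →ₐ[F] ℂ := IsAlgClosed.lift
    let τ : QQ →ₐ[ℚ] ℂ := τ0.restrictScalars ℚ
    have hτ : ∀ x : F, τ x = φ x := fun x => τ0.commutes x
    obtain ⟨s, hs⟩ := exists_lift τ
    exact ⟨s, fun x => by rw [← hτ, hs]⟩
  have hval : ∀ φ : F →+* ℂ, ∃ i, φ a1 = j0 (α i) ∧ (φ b1 = j0 β ∨ φ b1 = -j0 β) := by
    intro φ
    obtain ⟨s, hs⟩ := hemb φ
    obtain ⟨i, hi⟩ := hall _ (hr s (α i0) (hαr i0))
    refine ⟨i, ?_, ?_⟩
    · rw [hs]
      change j0 (s (α i0)) = _
      rw [hi]
    · rw [hs]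
      change j0 (s β) = _ ∨ j0 (s β) = _
      rcases hβσ s with h1 | h1
      · left
        rw [h1]
      · right
        rw [h1, map_neg]
  -- complex conjugation
  have hccF : ∀ x : F, cc x ∈ F := by
    have hle : F ≤ F.comap (cc : QQ →ₐ[ℚ] QQ) := by
      rw [IntermediateField.adjoin_le_iff]
      rintro x (rfl | rfl)
      · change cc (α i0) ∈ F
        rw [hccα]
        exact a1.2
      · change cc x ∈ F
        rw [hccβ]
        exact neg_mem b1.2
    exact fun x => hle x.2
  let cF : F →ₐ[ℚ] F := ((cc : QQ →ₐ[ℚ] QQ).comp F.val).codRestrict F.toSubalgebra hccF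
  let c : F ≃ₐ[ℚ] F := AlgEquiv.ofBijective cF (AlgHom.bijective _)
  have hca : c a1 = a1 := Subtype.ext (hccα i0)
  have hcb : c b1 = -b1 := Subtype.ext hccβ
  have hc : ∀ (φ : F →+* ℂ) (x : F), φ (c x) = starRingEnd ℂ (φ x) := by
    intro φ
    have h1 : φ.comp (c : F →+* F) = (starRingEnd ℂ).comp φ := by
      obtain ⟨i, h2, h3⟩ := hval φ
      apply hext
      · change φ (c a1) = starRingEnd ℂ (φ a1)
        rw [hca, h2, hα, Complex.conj_ofReal]
      · change φ (c b1) = starRingEnd ℂ (φ b1)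
        rw [hcb, map_neg]
        have h4 : starRingEnd ℂ (j0 β) = -j0 β := by rw [← hcc, hccβ, map_neg]
        rcases h3 with h3 | h3
        · rw [h3, h4]
        · rw [h3, map_neg, h4]
    exact fun x => RingHom.congr_fun h1 x
  have hc1 : c ≠ 1 := by
    intro h1
    rw [h1] at hcb
    have h2 : β = -β := congrArg Subtype.val hcb
    apply hjβ
    rw [← map_neg, ← h2]
  have hCM : IsCMField F := isCM_of_conj F c hc hc1
  -- the enumeration
  have hs : ∀ i, ∃ s : QQ ≃ₐ[ℚ] QQ, s (α i0) = α i ∧ s β = β := by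
    intro i
    obtain ⟨s, hs⟩ := transitive_of_irreducible f hfm hirr (α i0) (α i) (hαr i0) (hαr i)
    rcases hβσ s with h1 | h1
    · exact ⟨s, hs, h1⟩
    · refine ⟨cc * s, ?_, ?_⟩
      · rw [AlgEquiv.mul_apply, hs, hccα]
      · rw [AlgEquiv.mul_apply, h1, map_neg, hccβ, neg_neg]
  choose s hsα hsβ using hs
  let t : Fin g → (F →+* ℂ) := fun i => ((j0 : QQ →+* ℂ).comp (s i : QQ →+* QQ)).comp
    (F.val : F →+* QQ)
  have hta : ∀ i, t i a1 = j0 (α i) := by
    intro i
    change j0 (s i (α i0)) = _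
    rw [hsα]
  have htb : ∀ i, t i b1 = j0 β := by
    intro i
    change j0 (s i β) = _
    rw [hsβ]
  have htca : ∀ i, ComplexEmbedding.conjugate (t i) a1 = j0 (α i) := by
    intro i
    change starRingEnd ℂ (t i a1) = _
    rw [hta, hα, Complex.conj_ofReal]
  have htcb : ∀ i, ComplexEmbedding.conjugate (t i) b1 = -j0 β := by
    intro i
    change starRingEnd ℂ (t i b1) = _
    rw [htb, ← hcc, hccβ, map_neg]
  have hji : ∀ i k, j0 (α i) = j0 (α k) → i = k := fun i k h1 => hαi (j0.injective h1)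
  let t' : Fin g ⊕ Fin g → (F →+* ℂ) := Sum.elim t (fun i => ComplexEmbedding.conjugate (t i))
  have ht'i : Function.Injective t' := by
    rintro (i | i) (k | k) hik
    · have h1 := RingHom.congr_fun hik a1
      simp only [t', Sum.elim_inl, hta] at h1
      rw [hji _ _ h1]
    · exfalso
      have h1 := RingHom.congr_fun hik b1
      simp only [t', Sum.elim_inl, Sum.elim_inr, htb, htcb] at h1
      exact hjβ h1
    · exfalso
      have h1 := RingHom.congr_fun hik b1
      simp only [t', Sum.elim_inl, Sum.elim_inr, htb, htcb] at h1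
      exact hjβ h1.symm
    · have h1 := RingHom.congr_fun hik a1
      simp only [t', Sum.elim_inr, htca] at h1
      rw [hji _ _ h1]
  have ht's : Function.Surjective t' := by
    intro φ
    obtain ⟨i, h1, h2⟩ := hval φ
    rcases h2 with h2 | h2
    · exact ⟨Sum.inl i, hext _ _ (by rw [h1]; exact hta i) (by rw [h2]; exact htb i)⟩
    · exact ⟨Sum.inr i, hext _ _ (by rw [h1]; exact htca i) (by rw [h2]; exact htcb i)⟩
  let T : Fin g ⊕ Fin g ≃ (F →+* ℂ) := Equiv.ofBijective t' ⟨ht'i, ht's⟩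
  have hTl : ∀ i, T (Sum.inl i) = t i := fun i => rfl
  have hTr : ∀ i, T (Sum.inr i) = ComplexEmbedding.conjugate (t i) := fun i => rfl
  refine ⟨F, inferInstance, hNF, hCM, T, fun i => rfl, ?_, ?_, ?_⟩
  · -- the prime `p` splits completely
    apply card_padic
    apply padic_values
    intro e0 σ σ' hσ
    have hα' : σ' (α i0) = α i0 := by
      let ι : ℤ_[p] →+* PadicAlgCl p :=
        (algebraMap ℚ_[p] (PadicAlgCl p)).comp (algebraMap ℤ_[p] ℚ_[p])
      have hιi : Function.Injective ι :=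
        (algebraMap ℚ_[p] (PadicAlgCl p)).injective.comp Subtype.coe_injective
      have h1 : ∀ i, Polynomial.aeval (ι (z i)) f = 0 := by
        intro i
        have h2 := Polynomial.aeval_algHom_apply (ι.toIntAlgHom) (z i) f
        rw [hz, map_zero] at h2
        exact h2
      have h2 : Polynomial.aeval (e0 (α i0)) f = 0 := by
        have h5 := congrArg e0 (hαr i0)
        rw [map_zero] at h5
        rw [← h5]
        exact (Polynomial.aeval_algHom_apply (e0.restrictScalars ℤ) (α i0) f)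
      obtain ⟨i, hi⟩ := mem_of_root f hfm hfd (fun i => ι (z i)) (hιi.comp hzi) h1 _ h2
      apply e0.injective
      change e0 (σ' (α i0)) = e0 (α i0)
      rw [hσ, hi]
      exact σ.commutes _
    have hβ' : σ' β = β := by
      obtain ⟨y, hy⟩ := sqrt_one_sub (p := p)
      apply e0.injective
      change e0 (σ' β) = e0 β
      rw [hσ]
      refine fix_of_sq p _ (y : ℚ_[p]) ?_ σ
      have h1 := congrArg (fun y : ℤ_[p] => (y : ℚ_[p])) hy
      simp only [PadicInt.coe_pow, PadicInt.coe_sub, PadicInt.coe_mul, PadicInt.coe_one,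
        PadicInt.coe_natCast] at h1
      have h4 : (y : ℚ_[p]) ^ 2 = (((1 - 8 * (p : ℤ) : ℤ)) : ℚ_[p]) := by
        rw [h1]
        push_cast
        rfl
      rw [← map_pow, ← map_pow, hβ, h4, map_intCast, map_intCast]
    have h3 : ((σ' : QQ →+* QQ).comp (F.val : F →+* QQ)) = (F.val : F →+* QQ) := by
      refine adjoin_hom_ext _ _ ?_
      rintro x (rfl | rfl)
      · exact hα'
      · exact hβ'
    exact fun x hx => RingHom.congr_fun h3 ⟨x, hx⟩
  · -- the action
    rintro _ ⟨τ, rfl⟩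
    obtain ⟨σ', hσ'⟩ := exists_lift ((τ : ℂ →+* ℂ).toRatAlgHom.comp j0)
    have hσ'' : ∀ x, τ (j0 x) = j0 (σ' x) := hσ'
    choose π hπ using fun i => hall _ (hr σ' (α i) (hαr i))
    have hπi : Function.Injective π := by
      intro i k hik
      apply hαi
      apply σ'.injective
      rw [hπ, hπ, hik]
    refine ⟨Equiv.ofBijective π (Finite.injective_iff_bijective.1 hπi), ?_⟩
    rcases hβσ σ' with h1 | h1
    · left
      intro i
      apply hext
      · change τ (t i a1) = t (π i) a1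
        rw [hta, hta, hσ'', hπ]
      · change τ (t i b1) = t (π i) b1
        rw [htb, htb, hσ'', h1]
    · right
      intro i
      apply hext
      · change τ (t i a1) = ComplexEmbedding.conjugate (t (π i)) a1
        rw [hta, htca, hσ'', hπ]
      · change τ (t i b1) = ComplexEmbedding.conjugate (t (π i)) b1
        rw [htb, htcb, hσ'', h1, map_neg]
  · -- double transitivity
    intro i j k l hij hkl
    obtain ⟨s', h1, h2⟩ := doubly_transitive q f hfm hirr h (by omega) hhm hhi hfh (α i) (α j)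
      (α k) (α l) (hαr i) (hαr j) (hαr k) (hαr l) (fun h3 => hij (hαi h3))
      (fun h3 => hkl (hαi h3))
    obtain ⟨s', h1, h2, h3⟩ : ∃ s' : QQ ≃ₐ[ℚ] QQ, s' (α i) = α k ∧ s' (α j) = α l ∧ s' β = β := by
      rcases hβσ s' with h4 | h4
      · exact ⟨s', h1, h2, h4⟩
      · refine ⟨cc * s', ?_, ?_, ?_⟩
        · rw [AlgEquiv.mul_apply, h1, hccα]
        · rw [AlgEquiv.mul_apply, h2, hccα]
        · rw [AlgEquiv.mul_apply, h4, map_neg, hccβ, neg_neg]
    obtain ⟨τ, hτ⟩ := Pool.Agent.H977R3.CM.exists_aut (j0 : QQ →+* ℂ) (s' : QQ ≃+* QQ)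
    have hτ' : ∀ x, τ (j0 x) = j0 (s' x) := hτ
    refine ⟨permOf F τ, permOf_mem τ, ?_, ?_⟩
    · apply hext
      · change τ (t i a1) = t k a1
        rw [hta, hta, hτ', h1]
      · change τ (t i b1) = t k b1
        rw [htb, htb, hτ', h3]
    · apply hext
      · change τ (t j a1) = t l a1
        rw [hta, hta, hτ', h2]
      · change τ (t j b1) = t l b1
        rw [htb, htb, hτ', h3]

end Pool.Agent.H21.NP
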