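import Pool.Agent.H21.NP.Tot
import Pool.Agent.H21.NP.Exot

/-!
# Vanishing signed sums
-/

set_option autoImplicit false
set_option linter.unusedSectionVars false

universe u

namespace Pool.Agent.H21.NP

open NumberField Module Pool.Agent.H21.TC

theorem not_rigid_of_zeroSum (Ω : Type u) [Field Ω] [IsAlgClosed Ω] [CharZero Ω] (p : ℕ)
    [Fact p.Prime] {g : ℕ} (hg : 3 ≤ g) (s : Fin g → ℚ) (hs01 : ∀ j, 0 ≤ s j ∧ s j ≤ 1)
    (hne : ∃ j, s j ≠ 1 / 2) (hz : ZeroSum s) : ¬ Rigid Ω p s := by
  classical
  obtain ⟨ε, hε⟩ := hz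
  obtain ⟨F, _, _, _, T, hT, hsplit, hact, hdbl⟩ := exists_total p g hg
  let u : Fin g → ℚ := fun i => (ε i : ℤ) * (1 - 2 * s i)
  have husum : ∑ i, u i = 0 := hε
  obtain ⟨j0, hj0⟩ : ∃ j, u j ≠ 0 := by
    obtain ⟨j, hj⟩ := hne
    refine ⟨j, ?_⟩
    simp only [u]
    apply mul_ne_zero
    · rcases Int.units_eq_one_or (ε j) with h | h <;> rw [h] <;> norm_num
    · intro h
      apply hj
      linarith
  let v : (F →+* ℂ) → ℚ := fun x => Sum.elim u (fun i => -u i) (T.symm x)
  let c : (F →+* ℂ) → ℚ := fun x => Sum.elim (fun _ => 1) (fun _ => -1) (T.symm x)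
  have hvl : ∀ i, v (T (Sum.inl i)) = u i := fun i => by simp only [v, Equiv.symm_apply_apply,
    Sum.elim_inl]
  have hvr : ∀ i, v (T (Sum.inr i)) = -u i := fun i => by simp only [v, Equiv.symm_apply_apply,
    Sum.elim_inr]
  have hcl : ∀ i, c (T (Sum.inl i)) = 1 := fun i => by simp only [c, Equiv.symm_apply_apply,
    Sum.elim_inl]
  have hcr : ∀ i, c (T (Sum.inr i)) = -1 := fun i => by simp only [c, Equiv.symm_apply_apply,
    Sum.elim_inr]
  have hT' : ∀ i, ComplexEmbedding.conjugate (T (Sum.inr i)) = T (Sum.inl i) := by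
    intro i
    rw [hT, conj_conj]
  have hvodd : ∀ x, v (ComplexEmbedding.conjugate x) = - v x := by
    intro x
    obtain ⟨y, rfl⟩ := T.surjective x
    rcases y with i | i
    · rw [← hT, hvl, hvr]
    · rw [hT', hvl, hvr, neg_neg]
  have hcodd : ∀ x, c (ComplexEmbedding.conjugate x) = - c x := by
    intro x
    obtain ⟨y, rfl⟩ := T.surjective x
    rcases y with i | i
    · rw [← hT, hcl, hcr]
    · rw [hT', hcl, hcr, neg_neg]
  -- the values of `σ` on the conjugate embeddings
  have hinr : ∀ σ ∈ PC F, ∀ i, v (σ (T (Sum.inr i))) = - v (σ (T (Sum.inl i))) := by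
    intro σ hσ i
    rw [hT, conj_comm σ hσ, hvodd]
  have h2 : ∀ i j, i ≠ j → ∀ (e e' : ℚ), e ^ 2 = 1 → e' ^ 2 = 1 →
      (∀ σ ∈ PC F, e * v (σ (T (Sum.inl i))) = e' * v (σ (T (Sum.inl j)))) → False := by
    intro i j hij e e' he he' hall
    have he0 : e' ≠ 0 := by
      rintro rfl
      norm_num at he'
    have h3 : ∀ k l, k ≠ l → e * u k = e' * u l := by
      intro k l hkl
      obtain ⟨σ, hσ, h4, h5⟩ := hdbl i j k l hij hkl
      have h6 := hall σ hσ
      rw [h4, h5, hvl, hvl] at h6
      exact h6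
    have h4 : ∀ k l, u k = u l := by
      intro k l
      obtain ⟨m, hm1, hm2⟩ : ∃ m : Fin g, m ≠ k ∧ m ≠ l := by
        by_contra hno
        push Not at hno
        have h5 : (Finset.univ : Finset (Fin g)) ⊆ {k, l} := by
          intro m _
          rw [Finset.mem_insert, Finset.mem_singleton]
          by_cases hm : m = k
          · exact Or.inl hm
          · exact Or.inr (hno m hm)
        have h6 := Finset.card_le_card h5
        rw [Finset.card_univ, Fintype.card_fin] at h6
        have h7 := Finset.card_le_two (a := k) (b := l)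
        omega
      have h5 := h3 m k hm1
      have h6 := h3 m l hm2
      exact mul_left_cancel₀ he0 (h5.symm.trans h6)
    have h5 : ∑ i, u i = g * u j0 := by
      rw [Finset.sum_congr rfl fun i _ => h4 i j0, Finset.sum_const, Finset.card_univ,
        Fintype.card_fin, nsmul_eq_mul]
    rw [husum] at h5
    have hg0 : (g : ℚ) ≠ 0 := by
      have : g ≠ 0 := by omega
      exact_mod_cast this
    exact hj0 ((mul_eq_zero.1 h5.symm).resolve_left hg0)
  have h1 : ∀ i, (∀ σ ∈ PC F, v (σ (T (Sum.inl i))) = - v (σ (T (Sum.inl i)))) → False := by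
    intro i hall
    obtain ⟨j, hj⟩ : ∃ j : Fin g, j ≠ i := by
      have : Nontrivial (Fin g) := Fin.nontrivial_iff_two_le.2 (by omega)
      exact exists_ne i
    obtain ⟨l, hl⟩ : ∃ l : Fin g, l ≠ j0 := by
      have : Nontrivial (Fin g) := Fin.nontrivial_iff_two_le.2 (by omega)
      exact exists_ne j0
    obtain ⟨σ, hσ, h4, -⟩ := hdbl i j j0 l hj.symm hl.symm
    have h6 := hall σ hσ
    rw [h4, hvl] at h6
    apply hj0
    linarith
  refine not_rigid Ω p F hsplit s hs01 T hT ε v hvl hvodd ?_ c hcodd ?_ ?_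
  · intro x y hxy
    obtain ⟨x, rfl⟩ := T.surjective x
    obtain ⟨y, rfl⟩ := T.surjective y
    congr 1
    rcases x with i | i <;> rcases y with j | j
    · by_contra hne'
      have hij : i ≠ j := fun h => hne' (by rw [h])
      exact h2 i j hij 1 1 (by norm_num) (by norm_num) fun σ hσ => by
        rw [one_mul, one_mul]
        exact hxy σ hσ
    · exfalso
      by_cases hij : i = j
      · subst hij
        exact h1 i fun σ hσ => by
          rw [← hinr σ hσ]
          exact hxy σ hσ
      · exact h2 i j hij 1 (-1) (by norm_num) (by norm_num) fun σ hσ => by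
          rw [one_mul, neg_one_mul, ← hinr σ hσ]
          exact hxy σ hσ
    · exfalso
      by_cases hij : i = j
      · subst hij
        exact h1 i fun σ hσ => by
          rw [← hinr σ hσ]
          exact (hxy σ hσ).symm
      · exact h2 i j hij (-1) 1 (by norm_num) (by norm_num) fun σ hσ => by
          rw [one_mul, neg_one_mul, ← hinr σ hσ]
          exact hxy σ hσ
    · by_contra hne'
      have hij : i ≠ j := fun h => hne' (by rw [h])
      exact h2 i j hij (-1) (-1) (by norm_num) (by norm_num) fun σ hσ => by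
        rw [neg_one_mul, neg_one_mul, ← hinr σ hσ, ← hinr σ hσ]
        exact hxy σ hσ
  · intro σ hσ
    rw [← Equiv.sum_comp T, Fintype.sum_sum_type]
    simp only [hcl, hcr, hinr σ hσ]
    obtain ⟨π, hπ | hπ⟩ := hact σ hσ
    · simp only [hπ, hvl]
      have h3 : ∑ i, u (π i) = 0 := by rw [Equiv.sum_comp π u, husum]
      simp only [one_mul, neg_mul_neg, h3, add_zero]
    · simp only [hπ, hvr]
      have h3 : ∑ i, u (π i) = 0 := by rw [Equiv.sum_comp π u, husum]
      simp only [one_mul, neg_neg, neg_one_mul, Finset.sum_neg_distrib, h3, neg_zero, add_zero]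
  · intro h0
    have h3 := congrFun h0 (T (Sum.inl j0))
    rw [hcl] at h3
    exact one_ne_zero h3

end Pool.Agent.H21.NP
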